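import Pool.Agent.H18.EDB.Targets2

/-!
# Zariski dense orbits in dimension `ν` by forward heights: the targets

The notation is that of `Pool.Agent.H2.ED` and `Pool.Agent.H18.EDB`: `P` is irreducible,
homogeneous and monic in `X 0`, affine coordinates are the quotients by `X 1`.
-/

open MvPolynomial
open Pool.Agent.H12.ZD (pmap)
open Pool.Agent.H18.HIT Pool.Agent.H18.HX Pool.Agent.H18.VZ
open Pool.Agent.H8.ZA (HFam Const NA)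
open Pool.Agent.H8.TD (lc dg Cop)
open Pool.Agent.H8.TX (hn)
open Pool.Agent.H2.ED
open Pool.Agent.H18.TE (lg Gc)
open Pool.Agent.H18.TXB (avn)
open Pool.Agent.H18.EDB (dgm)

namespace Pool.Agent.H8.EDA

/-! ## Definitions -/

/-- the forward recursion for the heights at the scale `m`, for families of points outside the
hypersurfaces in `T` -/
def Rcf {ν : ℕ} (P : Po (ν + 2) Qb) (F : Tup (ν + 2) Qb) (m : ℕ) (κ β : ℝ)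
    (T : Finset (Po (ν + 2) Qb)) : Prop :=
  ∀ (K' : IntermediateField ℚ Qb) (F' : HFam K'), ∃ c₀ : ℝ,
    ∀ (μ : ℕ) (z : Fin μ → Fin (ν + 2) → Qb), (∀ j, eval (z j) P = 0) → (∀ j, z j 1 = 1) →
      (∀ j, ∀ p ∈ T, eval (z j) p ≠ 0) → (∀ p ∈ T, ∏ j, eval (z j) p ∈ K') →
      κ * ∑ j, hn F' (af (pmap (it F m) (z j))) ≤
        ∑ j, hn F' (af (pmap (it F (m + m)) (z j))) + β * ∑ j, hn F' (z j) + μ * c₀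

/-! ## A. The recursion (block M) -/

/-- the forward recursion at all large scales; `c` is close to the dynamical degree `λ_1` -/
def T_NUF : Prop := ∀ (ν r d : ℕ) (P : Po (ν + 2) Qb) (F : Tup (ν + 2) Qb) (K : Type) [Field K]
  [Algebra Qb K] (ξ : Fin (ν + 2) → K) (τ : K →ₐ[Qb] K) (μ μ' C : ℝ), 3 ≤ ν → Hyp P r →
  (∀ i, (F i).IsHomogeneous d) → Slf (Ideal.span {P}) F → Fd P F ξ τ → 0 ≤ μ' → μ' < μ →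
  (∀ N, ∃ n ≥ N, ∃ s, μ ^ n ≤ (dgm Qb (pn τ ξ n) ξ 1 s : ℝ)) →
  (∀ n s, (dgm Qb (pn τ ξ n) ξ 3 s : ℝ) ≤ C * μ' ^ n) →
  ∃ c : ℝ, 1 < c ∧ μ' < c ∧ ∀ Λ : ℝ, ∃ m₀ : ℕ, ∀ m ≥ m₀,
    (∃ s, Λ * c ^ m ≤ (dgm Qb (pn τ ξ m) ξ 1 s : ℝ)) ∧
    ∃ (κ β : ℝ) (T : Finset (Po (ν + 2) Qb)), 0 ≤ β ∧ 2 * c ^ m ≤ κ ∧ 8 * β ≤ κ * c ^ m ∧
      (∀ p ∈ T, aeval ξ p ≠ 0) ∧ Rcf P F m κ β T

/-! ## B. The start -/

/-- the minimal equation of a linear form in the coordinates of `f ^ m` over the functions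
`ξ 1, ..., ξ (ν + 1)` -/
def T_EQF : Prop := ∀ (ν r d m : ℕ) (P : Po (ν + 2) Qb) (F : Tup (ν + 2) Qb) (K : Type)
  [Field K] [Algebra Qb K] (ξ : Fin (ν + 2) → K) (τ : K →ₐ[Qb] K) (Y : ℕ)
  (s : Fin ν → Fin (ν + 2) → Qb), 2 ≤ ν → Hyp P r → (∀ i, (F i).IsHomogeneous d) →
  Slf (Ideal.span {P}) F → Fd P F ξ τ → Y ≤ dgm Qb (pn τ ξ m) ξ 1 s → 1 ≤ Y →
  ∃ (E₁ Y' : ℕ) (Cf : Fin (E₁ + 1) → Po (ν + 1) Qb) (s₀ : Fin (ν + 2) → Qb), 1 ≤ E₁ ∧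
    (∀ j, (Cf j).IsHomogeneous Y') ∧ Cop Cf ∧ Cf 0 ≠ 0 ∧
    Irreducible (∑ j : Fin (E₁ + 1), Polynomial.C (Cf j) * Polynomial.X ^ (E₁ - (j : ℕ))) ∧
    (E₁ : ℝ) * ((Y : ℝ) / (r : ℝ) ^ ν) ≤ Y' ∧
    ∑ j : Fin (E₁ + 1), aeval (fun i : Fin (ν + 1) => ξ i.succ) (Cf j) *
      lc s₀ (pn τ ξ m) ^ (E₁ - (j : ℕ)) = 0

/-! ## C. The forward orbit -/

/-- the orbit of a point over a line and the growth of its heights -/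
def T_ORF : Prop := ∀ (ν r d m Y : ℕ) (P b : Po (ν + 2) Qb) (F : Tup (ν + 2) Qb) (K : Type)
  [Field K] [Algebra Qb K] (ξ : Fin (ν + 2) → K) (τ : K →ₐ[Qb] K) (κ β q : ℝ)
  (T : Finset (Po (ν + 2) Qb)) (s : Fin ν → Fin (ν + 2) → Qb), 2 ≤ ν → Hyp P r → r ≤ d →
  (∀ i, (F i).IsHomogeneous d) → Slf (Ideal.span {P}) F → Fd P F ξ τ → 1 ≤ m → 1 ≤ Y →
  Y ≤ dgm Qb (pn τ ξ m) ξ 1 s → 0 ≤ β → 1 < q → 2 * q ≤ κ → 8 * β ≤ κ * q →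
  2 * q ≤ (Y : ℝ) / (r : ℝ) ^ ν → (∀ p ∈ T, aeval ξ p ≠ 0) → Rcf P F m κ β T →
  (∃ l, b.IsHomogeneous l) → ¬ P ∣ b →
  ∃ k, 1 ≤ k ∧ m ∣ k ∧ ∀ (E : ℕ) (θ Δ : Po (ν + 2) Qb), Bas P (it F k) E θ Δ →
    Cvi (Ideal.span {P}) (it F k) E → ∀ g : Po (ν + 1) Qb, g ≠ 0 →
    ∃ (x : Fin (ν + 2) → Qb) (K₀ : IntermediateField ℚ Qb) (F' : HFam K₀),
      FiniteDimensional ℚ K₀ ∧ (∀ i, ∀ c ∈ (F i).coeffs, c ∈ K₀) ∧ eval x P = 0 ∧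
      (∀ n : ℕ, eval ((pmap F)^[n] x) b ≠ 0) ∧ (∀ n : ℕ, (pmap F)^[n] x 1 ≠ 0) ∧
      eval x (up g) ≠ 0 ∧ (van (it F k) x).IsPrime ∧ Tot P (it F k) E θ (van (it F k) x) ∧
      ∀ (Γ : Finset (Qb ≃ₐ[K₀] Qb)) (L : IntermediateField K₀ Qb), Gc K₀ Γ L →
        (∀ i, x i ∈ L) → Γ.card ≤ avn F' Γ (af x) ∧
        ∀ n : ℕ, q * avn F' Γ (af ((pmap F)^[m * n] x)) ≤
          avn F' Γ (af ((pmap F)^[m * (n + 1)] x))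

/-! ## D. Totally invariant subvarieties -/

/-- the degree of an iterate restricted to a totally invariant closed subset which is not a
hypersurface -/
def T_VDF : Prop := ∀ (ν r₀ r d k : ℕ) (P : Po (ν + 2) Qb) (F : Tup (ν + 2) Qb)
  (V : Ideal (Po (ν + 2) Qb)) (K κ : Type) [Field K] [Algebra Qb K] [Field κ] [Algebra Qb κ]
  (ξ : Fin (ν + 2) → K) (η : Fin (ν + 2) → κ) (τ : K →ₐ[Qb] K) (τV : κ →ₐ[Qb] κ), 3 ≤ ν →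
  Hyp P r₀ → (∀ i, (F i).IsHomogeneous d) → 1 ≤ d → Slf (Ideal.span {P}) F → Fd P F ξ τ →
  1 ≤ k → V.IsPrime → Hmi V → X 1 ∉ V → P ∈ V → 1 ≤ r → r + 2 ≤ ν →
  (∀ q, aeval (it F k) q ∈ V ↔ q ∈ V) → Fv V r (it F k) η τV → pderiv 0 P ∉ V →
  (jm P (it F k)).det ∉ V → ∃ s : ℕ, ∀ n B : ℕ,
    (∀ s', dgm Qb (pn τ ξ (k * n)) ξ 3 s' ≤ B) →
    ∀ (s₁ : Fin (ν + 2) → Qb) (a : Fin (r - 1) → Fin (ν + 2) → Qb),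
      dg Qb (insert (lc s₁ (pn τV η n)) (Set.range fun i => lc (a i) η)) ≤ s * B

/-- the degree in `z` of the irreducible equation of `z` over `μ` -/
def T_EDG : Prop := ∀ (ρ E Y : ℕ) (k K : Type) [Field k] [Field K] [Algebra k K]
  (μ : Fin ρ → K) (z : K) (Cf : Fin (E + 1) → Po (ρ + 1) k), AlgebraicIndependent k μ →
  FiniteDimensional (IntermediateField.adjoin k (Set.range μ)) K → 1 ≤ E →
  (∀ j, (Cf j).IsHomogeneous Y) → Cf 0 ≠ 0 →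
  Irreducible (∑ j : Fin (E + 1), Polynomial.C (Cf j) * Polynomial.X ^ (E - (j : ℕ))) →
  ∑ j : Fin (E + 1), aeval (Fin.cons 1 μ : Fin (ρ + 1) → K) (Cf j) * z ^ (E - (j : ℕ)) = 0 →
  E ≤ dg k (Set.range μ)

/-- the height of a root of an equation whose coefficients are forms -/
def T_HVR : Prop := ∀ (ρ E Y : ℕ) (Cf : Fin (E + 1) → Po (ρ + 1) Qb)
  (K' : IntermediateField ℚ Qb) (F' : HFam K'), 1 ≤ E → (∀ j, (Cf j).IsHomogeneous Y) →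
  (∀ j, ∀ a ∈ (Cf j).coeffs, a ∈ K') → ∃ c : ℝ, ∀ (w : Fin (ρ + 1) → Qb) (z : Qb),
    (∀ i, w i ∈ K') → eval w (Cf 0) ≠ 0 →
    ∑ j : Fin (E + 1), eval w (Cf j) * z ^ (E - (j : ℕ)) = 0 → hn F' ![z] ≤ Y * hn F' w + c

/-- heights of the iterates of a self-map, on a totally invariant closed subset which is not a
hypersurface -/
def T_VSF : Prop := ∀ (ν r₀ d k : ℕ) (P : Po (ν + 2) Qb) (F : Tup (ν + 2) Qb)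
  (V : Ideal (Po (ν + 2) Qb)) (K : Type) [Field K] [Algebra Qb K] (ξ : Fin (ν + 2) → K)
  (τ : K →ₐ[Qb] K), 3 ≤ ν → Hyp P r₀ → (∀ i, (F i).IsHomogeneous d) → 1 ≤ d →
  Slf (Ideal.span {P}) F → Fd P F ξ τ → 1 ≤ k → V.IsPrime → Hmi V → X 1 ∉ V → P ∈ V →
  (∃ c ∈ V, ¬ P ∣ c) → (¬ ∃ h, Pdv P V h) → (∀ q, aeval (it F k) q ∈ V ↔ q ∈ V) →
  pderiv 0 P ∉ V → (jm P (it F k)).det ∉ V → ∃ C_V : ℕ, ∀ n B : ℕ,
    (∀ s, dgm Qb (pn τ ξ (k * n)) ξ 3 s ≤ B) →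
    ∃ (u : Po (ν + 2) Qb) (A : Finset Qb), u ∉ V ∧
      ∀ (K' : IntermediateField ℚ Qb) (F' : HFam K'), (∀ a ∈ A, a ∈ K') → ∃ c : ℝ,
        ∀ y : Fin (ν + 2) → Qb, (∀ i, y i ∈ K') → (∀ q ∈ V, eval y q = 0) → y 1 ≠ 0 →
          (pmap (it F k))^[n] y 1 ≠ 0 → eval y u ≠ 0 →
          hn F' (af ((pmap (it F k))^[n] y)) ≤ C_V * B * hn F' (af y) + c

/-! ## E. The theorem for hypersurfaces -/

/-- **the theorem**: `λ_1` is larger than `λ_3` -/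
def T_ALP : Prop := ∀ (ν r d : ℕ) (P b : Po (ν + 2) Qb) (F : Tup (ν + 2) Qb) (K : Type)
  [Field K] [Algebra Qb K] (ξ : Fin (ν + 2) → K) (τ : K →ₐ[Qb] K) (μ μ' C : ℝ), 3 ≤ ν →
  Hyp P r → r ≤ d → 2 ≤ d → (∀ i, (F i).IsHomogeneous d) → Slf (Ideal.span {P}) F → NIv P F →
  Fd P F ξ τ → 0 ≤ μ' → μ' < μ →
  (∀ N, ∃ n ≥ N, ∃ s, μ ^ n ≤ (dgm Qb (pn τ ξ n) ξ 1 s : ℝ)) →
  (∀ n s, (dgm Qb (pn τ ξ n) ξ 3 s : ℝ) ≤ C * μ' ^ n) →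
  (∃ m, b.IsHomogeneous m) → ¬ P ∣ b →
  ∃ x : Fin (ν + 2) → Qb, eval x P = 0 ∧ (∀ n : ℕ, eval ((pmap F)^[n] x) b ≠ 0) ∧
    ∀ c : Po (ν + 2) Qb, (∀ n : ℕ, eval ((pmap F)^[n] x) c = 0) → P ∣ c

end Pool.Agent.H8.EDA
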