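import Pool.Agent.H8.EDA.All0
import Pool.Agent.H10.EDA.EQF

/-!
# The theorem for `λ_1 > λ_3`, without hypotheses
-/

set_option autoImplicit false

namespace Pool.Agent.H8.EDA.Al

theorem eqf : T_EQF := Pool.Agent.H10.EDA.pf_EQF Pool.Agent.H42.EDB.pf_CHN

/-- **the theorem for hypersurfaces, `λ_1 > λ_3`** -/
theorem alp : T_ALP := alp_of eqf

end Pool.Agent.H8.EDA.Al
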