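import Pool.Agent.H8.EDA.Dgy
import Pool.Agent.H8.TX.FinB

/-!
# Zariski dense orbits: `λ_(n - 1)` larger than the topological degree and than `λ_(n - 3)`,
projective varieties
-/

set_option autoImplicit false

open MvPolynomial
open Pool.Agent.H12.ZD (pmap)
open Pool.Agent.H18.HIT Pool.Agent.H18.HX Pool.Agent.H18.VZ
open Pool.Agent.H8.TD (lc dg)
open Pool.Agent.H2.ED
open Pool.Agent.H18.EDB (dgm)
open Pool.Agent.H8.TX (Upv)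

namespace Pool.Agent.H8.EDA

theorem Cvi.mono {L : ℕ} {k : Type} [Field k] {I : Ideal (Po L k)} {f : Tup L k} {e e' : ℕ}
    (h : Cvi I f e) (he : e' ≤ e) : Cvi I f e' := by
  obtain ⟨c, hc, h1⟩ := h
  refine ⟨c, hc, fun y hy hyc => ?_⟩
  obtain ⟨S, hS, hS'⟩ := h1 y hy hyc
  obtain ⟨T, hTS, hT⟩ := Finset.exists_subset_card_eq (hS ▸ he)
  exact ⟨T, hT, fun x hx => hS' x (hTS hx)⟩

/-- the topological degree, from an upper bound for the number of preimages -/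
theorem upv_fin {ν r d e : ℕ} {k : Type} [Field k] [IsAlgClosed k] [CharZero k]
    {P : Po (ν + 2) k} {F : Tup (ν + 2) k} (hP : Hyp P r) (hd : 1 ≤ d)
    (hF : ∀ i, (F i).IsHomogeneous d) (hsl : Slf (Ideal.span {P}) F)
    (hU : Upv (Ideal.span {P}) F e) {K : Type} [Field K] [Algebra k K] {ξ : Fin (ν + 2) → K}
    {τ : K →ₐ[k] K} (hfd : Fd P F ξ τ) :
    1 ≤ Module.finrank τ.fieldRange K ∧ Module.finrank τ.fieldRange K ≤ e ∧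
      Cvi (Ideal.span {P}) F (d * Module.finrank τ.fieldRange K) := by
  have hX1 : ¬ P ∣ (X 1 : Po (ν + 2) k) := not_dvd_X1 hP
  have hprime : (Ideal.span {P} : Ideal (Po (ν + 2) k)).IsPrime := isPrime_span hP.irr
  have hXI : ∃ i, (X i : Po (ν + 2) k) ∉ (Ideal.span {P} : Ideal (Po (ν + 2) k)) :=
    ⟨1, fun h => hX1 (Ideal.mem_span_singleton.mp h)⟩
  obtain ⟨E₁, θ₁, Δ₁, hB₁, hcv₁⟩ := Facts.bas (ν + 1) k P F hP.irr hP.mon hsl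
  have hE₁ : E₁ ≤ d * e := by
    have h1 := Pool.Agent.H8.TX.Al.upx (ν + 2) d e 1 E₁ k (Ideal.span {P}) F hd hF hsl hXI hU (by
      rw [it_one]
      exact hcv₁)
    rwa [pow_one, pow_one] at h1
  obtain ⟨h0, h1⟩ := dgy Pool.Agent.H8.TD.Al.sl1 k K P θ₁ Δ₁ F r d E₁ ξ τ hP hd hF hsl hB₁ hfd
  exact ⟨Module.finrank_pos, Nat.le_of_mul_le_mul_left (h1.trans hE₁) hd, hcv₁.mono h1⟩

/-- **`λ_(n - 1) > e, λ_(n - 3)`**: rational self-maps of projective varieties over `Q̄` of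
dimension at least four -/
theorem betX (hBET : Pool.Agent.H18.EDB.T_BET) {L : ℕ} {I : Ideal (Po L Qb)} (hI : I.IsPrime)
    (hhom : ∀ c ∈ I, ∀ t, homogeneousComponent t c ∈ I)
    (hne : ∃ i, X i ∉ I) (n : ℕ) (hn : 4 ≤ n)
    (hdim : ∀ u : Fin (n + 2) → Po L Qb, ∃ q : Po (n + 2) Qb, q ≠ 0 ∧ aeval u q ∈ I)
    (hdim' : ∃ u : Fin (n + 1) → Po L Qb, ∀ q : Po (n + 1) Qb, aeval u q ∈ I → q = 0)
    (f : Tup L Qb) (d : ℕ) (hd : 1 ≤ d) (hf : ∀ i, (f i).IsHomogeneous d)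
    (hinv : ∀ c ∈ I, aeval f c ∈ I)
    (hdom : ∀ (s : ℕ) (q : Po L Qb), q.IsHomogeneous s → aeval f q ∈ I → q ∈ I)
    (hNf : Nfi I f) (e : ℕ) (hU : Upv I f e) (μ μ' C : ℝ) (hμ : (e : ℝ) < μ) (hμ'0 : 0 ≤ μ')
    (hμμ : μ' < μ) (hge : Pge I f n (n - 1) μ) (hle : Ple I f n (n - 3) μ' C)
    (b : Po L Qb) (t : ℕ) (hb : b.IsHomogeneous t) (hbI : b ∉ I) :
    ∃ x : Fin L → Qb, Zer I x ∧ (∀ j : ℕ, (pmap f)^[j] x ≠ 0) ∧
      (∀ j : ℕ, eval ((pmap f)^[j] x) b ≠ 0) ∧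
      ∀ (s : ℕ) (h : Po L Qb), h.IsHomogeneous s → (∀ j : ℕ, eval ((pmap f)^[j] x) h = 0) →
        h ∈ I := by
  have hI' := hI
  obtain ⟨r, δ, l, P, b', Δ, F, hpro, hsf, hrd, hd2, hF, hFl, hsF, hNF, hb', hPb', -, hback⟩ :=
    redX hI hhom hne n hdim hdim' f d hd hf hinv hdom hNf b t hb hbI
  obtain ⟨K, _, _, ξ, τ, hfd⟩ := pf_FLD n r (d + δ) Qb P F hpro.hyp hF hsF
  have hupl : aeval l (up Δ) = aeval (fun j : Fin (n + 1) => l j.succ) Δ := by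
    rw [up, aeval_rename]
    rfl
  have hUF : Upv (Ideal.span {P}) F e := Pool.Agent.H8.TX.Al.tup L (n + 1) r δ d e Qb I l P Δ f F
    hpro hhom hd hf hsf hF (fun i => by
      rw [← hupl]
      exact hFl i) hsF hU
  obtain ⟨he1, hee, hcv⟩ := upv_fin hpro.hyp (by omega) hF hsF hUF hfd
  have hee' : (Module.finrank τ.fieldRange K : ℝ) ≤ e := Nat.cast_le.2 hee
  have he1' : (1 : ℝ) ≤ (Module.finrank τ.fieldRange K : ℝ) := by exact_mod_cast he1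
  obtain ⟨μ₁, hμ₁, hμ₁'⟩ := exists_between (max_lt (hee'.trans_lt hμ) hμμ)
  rw [max_lt_iff] at hμ₁
  obtain ⟨y, hy, hyb, hyd⟩ := hBET n r (d + δ) (Module.finrank τ.fieldRange K) P b' F K ξ τ
    μ₁ μ' C (by omega) hpro.hyp hrd hd2 hF hsF hNF hfd he1 le_rfl hcv hμ₁.1 hμ'0 hμ₁.2
    (fun N => hge.dgm_ge (by linarith [hμ₁.1]) hμ₁' hpro hfd hf hsf hF hsF hFl N)
    (fun m s => hle.dgm_le (by omega) (by omega) hhom hpro hfd hf hsf hF hsF hFl m s) hb' hPb'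
  exact hback y hy hyb hyd

/-- the same for threefolds, where `λ_0 = 1` -/
theorem betX3 (hCBX : Pool.Agent.H8.TX.T_CBX) (hDGC : Pool.Agent.H8.TX.T_DGC) {L : ℕ}
    {I : Ideal (Po L Qb)} (hI : I.IsPrime)
    (hhom : ∀ c ∈ I, ∀ t, homogeneousComponent t c ∈ I)
    (hne : ∃ i, X i ∉ I)
    (hdim : ∀ u : Fin 5 → Po L Qb, ∃ q : Po 5 Qb, q ≠ 0 ∧ aeval u q ∈ I)
    (f : Tup L Qb) (d : ℕ) (hd : 1 ≤ d) (hf : ∀ i, (f i).IsHomogeneous d)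
    (hinv : ∀ c ∈ I, aeval f c ∈ I)
    (hdom : ∀ (s : ℕ) (q : Po L Qb), q.IsHomogeneous s → aeval f q ∈ I → q ∈ I)
    (hNf : Nfi I f) (e : ℕ) (he : 1 ≤ e) (hU : Upv I f e) (μ : ℝ) (hμ : (e : ℝ) < μ)
    (hge : Pge I f 3 2 μ) (b : Po L Qb) (t : ℕ) (hb : b.IsHomogeneous t) (hbI : b ∉ I) :
    ∃ x : Fin L → Qb, Zer I x ∧ (∀ j : ℕ, (pmap f)^[j] x ≠ 0) ∧
      (∀ j : ℕ, eval ((pmap f)^[j] x) b ≠ 0) ∧
      ∀ (s : ℕ) (h : Po L Qb), h.IsHomogeneous s → (∀ j : ℕ, eval ((pmap f)^[j] x) h = 0) →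
        h ∈ I := by
  refine Pool.Agent.H8.TX.n3varB_of hCBX hDGC hI hhom hne hdim f d hd hf hinv hdom hNf e he hU μ hμ
    (fun N => ?_) b t hb hbI
  obtain ⟨m, hm, s₀, s', s, c, hs₀, hs', hs, hc, hpts⟩ := hge N
  have hσ : Function.Injective (![1, 2, 0] : Fin 3 → Fin 3) := by decide
  refine ⟨m, hm, s₀, s 2, s', s 0, s 1, rename ![1, 2, 0] c, hs₀, hs 2, hs', hs 0, hs 1, ?_,
    fun t ht => ?_⟩
  · intro h0
    exact hc (rename_injective _ hσ (by rw [h0, map_zero]))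
  · rw [eval_rename] at ht
    obtain ⟨S, hS, hS'⟩ := hpts _ ht
    refine ⟨S, hS, fun x hx => ?_⟩
    obtain ⟨h1, h2, h3, h4⟩ := hS' x hx
    exact ⟨h1, h2, (h4 2).2 le_rfl, h3, (h4 0).1 (by decide), (h4 1).1 (by decide)⟩

end Pool.Agent.H8.EDA
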