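import Pool.Agent.H8.EDA.Lin
import Pool.Agent.H18.VZ.Facts

/-!
# Zariski dense orbits in dimension `ν` by forward heights: the theorem for hypersurfaces
-/

set_option autoImplicit false

open MvPolynomial
open Pool.Agent.H12.ZD (pmap)
open Pool.Agent.H18.HIT Pool.Agent.H18.HX Pool.Agent.H18.VZ
open Pool.Agent.H8.ZA (HFam Const NA)
open Pool.Agent.H8.TD (lc dg Cop)
open Pool.Agent.H8.TX (hn hn_nonneg)
open Pool.Agent.H2.ED
open Pool.Agent.H18.TE (lg Gc T_GAL)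
open Pool.Agent.H18.TXB (avn avn_mem T_CNV)
open Pool.Agent.H18.EDB (dgm)

namespace Pool.Agent.H8.EDA

/-- comparison of exponential functions -/
theorem exists_l {a b : ℝ} (R : ℝ) (ha : 0 ≤ a) (hab : a < b) (hb : 1 < b) :
    ∃ l : ℕ, R * a ^ l + 1 ≤ b ^ l := by
  have hb0 : 0 < b := by linarith
  have h1 : Filter.Tendsto (fun l : ℕ => (a / b) ^ l) Filter.atTop (nhds 0) :=
    tendsto_pow_atTop_nhds_zero_of_lt_one (by positivity) ((div_lt_one hb0).2 hab)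
  have h2 : Filter.Tendsto (fun l : ℕ => (1 / b) ^ l) Filter.atTop (nhds 0) :=
    tendsto_pow_atTop_nhds_zero_of_lt_one (by positivity) ((div_lt_one hb0).2 hb)
  have h3 := (h1.const_mul R).add h2
  rw [mul_zero, add_zero] at h3
  obtain ⟨l, hl⟩ := (h3.eventually (gt_mem_nhds one_pos)).exists
  refine ⟨l, ?_⟩
  have h4 : 0 < b ^ l := by positivity
  have h5 := mul_le_mul_of_nonneg_right hl.le h4.le
  rw [add_mul, mul_assoc, ← mul_pow, ← mul_pow, div_mul_cancel₀ _ hb0.ne',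
    div_mul_cancel₀ _ hb0.ne', one_pow, one_mul] at h5
  exact h5

/-- growth and slow growth at infinitely many places contradict each other -/
theorem contraF {h : ℕ → ℝ} {g : ℝ} {l : ℕ} {D c : ℝ} {S : Set ℕ} (hg : 1 < g)
    (hgrow : ∀ n, g * h n ≤ h (n + 1)) (h0 : 1 ≤ h 0) (hD : D + 1 ≤ g ^ l)
    (hslow : ∀ n ∈ S, h (n + l) ≤ D * h n + c) (hS : S.Infinite) : False := by
  have hg0 : 0 < g := by linarith
  have h1 : ∀ n j, g ^ j * h n ≤ h (n + j) := by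
    intro n j
    induction j with
    | zero => rw [pow_zero, one_mul, Nat.add_zero]
    | succ j ih =>
      calc g ^ (j + 1) * h n = g * (g ^ j * h n) := by ring
        _ ≤ g * h (n + j) := mul_le_mul_of_nonneg_left ih hg0.le
        _ ≤ h (n + j + 1) := hgrow _
  obtain ⟨N, hN⟩ := pow_unbounded_of_one_lt c hg
  obtain ⟨n, hn, hNn⟩ := hS.exists_gt N
  have h2 : c < h n := by
    have h3 := h1 0 n
    rw [Nat.zero_add] at h3
    have h4 : g ^ N ≤ g ^ n := pow_le_pow_right₀ hg.le hNn.le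
    have h5 : g ^ n * 1 ≤ g ^ n * h 0 := mul_le_mul_of_nonneg_left h0 (by positivity)
    linarith
  have h6 := h1 n l
  have h7 := hslow n hn
  have h8 : 0 ≤ h n := by
    have h3 := h1 0 n
    rw [Nat.zero_add] at h3
    have h5 : g ^ n * 1 ≤ g ^ n * h 0 := mul_le_mul_of_nonneg_left h0 (by positivity)
    have : 0 < g ^ n := by positivity
    linarith
  have h9 : (D + 1) * h n ≤ g ^ l * h n := mul_le_mul_of_nonneg_right hD h8
  linarith

theorem pf_ALP (hJPR : T_JPR) (hCNV : T_CNV) (hGAL : T_GAL) (hNUF : T_NUF) (hORF : T_ORF)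
    (hVSF : T_VSF) : T_ALP := by
  intro ν r d P b F K _ _ ξ τ μ μ' C hν hP hrd hd hF hsl hNI hfd hμ' hμμ hlow hup hb hPb
  classical
  have hr : 1 ≤ r := one_le_r hP
  have hpr := hP.irr.prime
  have hprime : (Ideal.span {P} : Ideal (Po (ν + 2) Qb)).IsPrime := isPrime_span hP.irr
  have hr0 : (0 : ℝ) < r := by exact_mod_cast hr
  obtain ⟨c, hc1, hcμ, hnuf⟩ := hNUF ν r d P F K ξ τ μ μ' C hν hP hF hsl hfd hμ' hμμ hlow hup
  obtain ⟨m₀, hm₀⟩ := hnuf (2 * (r : ℝ) ^ ν)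
  obtain ⟨m, hm⟩ : ∃ m : ℕ, m = m₀ + 1 := ⟨_, rfl⟩
  obtain ⟨⟨s, hs⟩, κ, β, T, hβ, hκc, hβκ, hT, hrec⟩ := hm₀ m (by omega)
  obtain ⟨Y, hY⟩ : ∃ Y : ℕ, Y = dgm Qb (pn τ ξ m) ξ 1 s := ⟨_, rfl⟩
  rw [← hY] at hs
  have hc0 : 0 < c := by linarith
  have hcm : 1 < c ^ m := one_lt_pow₀ hc1 (by omega)
  have hρ : 2 * c ^ m ≤ (Y : ℝ) / (r : ℝ) ^ ν := by
    rw [le_div_iff₀ (by positivity)]
    calc 2 * c ^ m * (r : ℝ) ^ ν = 2 * (r : ℝ) ^ ν * c ^ m := by ring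
      _ ≤ Y := hs
  have hY1 : 1 ≤ Y := by
    rw [Nat.one_le_iff_ne_zero]
    rintro rfl
    rw [Nat.cast_zero, zero_div] at hρ
    linarith
  obtain ⟨k, hk, hmk, hmain⟩ := hORF ν r d m Y P b F K ξ τ κ β (c ^ m) T s (by omega) hP hrd hF
    hsl hfd (by omega) hY1 hY.le hβ hcm hκc hβκ hρ hT hrec hb hPb
  have hsk := hsl.it k
  obtain ⟨E, θ, Δ, hB, hcv⟩ := Facts.bas (ν + 1) Qb P (it F k) hP.irr hP.mon hsk
  have hNT : NIv P (it F k) := Facts.niv (ν + 1) r d k Qb P F hP hF hsl hk hNI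
  have hFk : ∀ i, (it F k i).IsHomogeneous (d ^ k) := it_hom hF k
  have hD2 : 2 ≤ d ^ k := hd.trans (Nat.le_self_pow (by omega) d)
  obtain ⟨g₁, hg₁, hinv⟩ := Facts.inv (ν + 1) r (d ^ k) E Qb P (it F k) θ Δ hP hFk hsk hB hNT
  have hpd : ¬ P ∣ pderiv 0 P := Pool.Agent.H8.HX.not_dvd_pderiv hP.mon hP.irr
  have hjm : ¬ P ∣ (jm P (it F k)).det := hJPR ν r (d ^ k) Qb P (it F k) hP (by omega) hFk hsk
  obtain ⟨W, hW⟩ : ∃ W : Po (ν + 2) Qb, W = Δ * pderiv 0 P * (jm P (it F k)).det := ⟨_, rfl⟩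
  have hPW : ¬ P ∣ W := by
    rw [hW]
    intro h
    rcases hpr.dvd_or_dvd h with h | h
    · exact (hpr.dvd_or_dvd h).elim hB.ne hpd
    · exact hjm h
  obtain ⟨c', A', hc'0, hc'⟩ := Pool.Agent.H18.HX.All.nrx (ν + 1) Qb P W hP.irr hP.mon hPW
  obtain ⟨x, K₀, F', hKfin, hKF, hxP, hxb, hx1, hxg, hVp, hVt, hgrow⟩ :=
    hmain E θ Δ hB hcv (g₁ * c') (mul_ne_zero hg₁ hc'0)
  have hxg' : eval x (up g₁) ≠ 0 ∧ eval x (up c') ≠ 0 := by
    have h1 : eval x (up (g₁ * c')) = eval x (up g₁) * eval x (up c') := by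
      rw [up, up, up, map_mul, map_mul]
    rw [h1] at hxg
    exact ⟨left_ne_zero_of_mul hxg, right_ne_zero_of_mul hxg⟩
  obtain ⟨hxg₁, hxc'⟩ := hxg'
  have hxW : eval x W ≠ 0 := by
    intro h0
    apply hxc'
    obtain ⟨B', hB'⟩ := hc'
    have h1 := congrArg (eval x) hB'
    rw [map_sub, map_mul, map_mul (eval x) P, hxP, h0, zero_mul, zero_mul, sub_zero] at h1
    exact h1
  rw [hW, map_mul, map_mul] at hxW
  have hxΔ := left_ne_zero_of_mul (left_ne_zero_of_mul hxW)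
  have hxpd := right_ne_zero_of_mul (left_ne_zero_of_mul hxW)
  have hxjm := right_ne_zero_of_mul hxW
  obtain ⟨V, hV⟩ : ∃ V, V = van (it F k) x := ⟨_, rfl⟩
  have hout : ∀ q : Po (ν + 2) Qb, eval x q ≠ 0 → q ∉ V := by
    intro q hq h
    rw [hV] at h
    exact hq (h 0)
  have hzer := zer_span.mpr hxP
  have hPV : P ∈ V := by
    rw [hV]
    intro n
    exact zer_iterate hsk.inv hzer n P (Ideal.mem_span_singleton_self P)
  have hΔV : Δ ∉ V := hout Δ hxΔ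
  have hHm : Hmi V := by
    rw [hV]
    rw [hV] at hΔV
    exact Facts.cne (ν + 1) r (d ^ k) E Qb P (it F k) θ Δ x hP hD2 hFk hsk hB hxP hVp hVt hΔV
  refine ⟨x, hxP, hxb, fun q hq => ?_⟩
  have hqV : q ∈ V := by
    rw [hV]
    intro n
    rw [pmap_it_iterate]
    exact hq _
  rw [← hV] at hVp hVt
  by_contra hPq
  by_cases hex : ∃ h, Pdv P V h
  · obtain ⟨h, hh⟩ := hex
    have h1 := hinv _ h hh hHm hVt
    exact hout _ hxg₁ h1
  have hiff : ∀ q, aeval (it F k) q ∈ V ↔ q ∈ V := by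
    intro q
    refine ⟨fun h => ?_, fun h => hVt.inv q h⟩
    have h1 := hVt.ind (fun i => if (i : ℕ) = 0 then q else 0) (by
      have hE1 := hB.pos
      rw [Finset.sum_eq_single (⟨0, by omega⟩ : Fin E)]
      · rw [if_pos rfl, pow_zero, one_mul]
        exact h
      · intro i _ hi
        rw [if_neg (fun h0 => hi (Fin.ext h0)), map_zero, mul_zero]
      · intro h0
        exact absurd (Finset.mem_univ _) h0) ⟨0, by have := hB.pos; omega⟩
    simpa using h1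
  have hiff' : ∀ (n : ℕ) (q : Po (ν + 2) Qb), aeval (it (it F k) n) q ∈ V → q ∈ V := by
    intro n
    induction n with
    | zero =>
      intro q h
      rwa [it_zero, aeval_X_left_apply] at h
    | succ n ih =>
      intro q h
      rw [aeval_it_succ] at h
      exact (hiff q).1 (ih _ h)
  have hX1V : X 1 ∉ V := hout _ (by rw [eval_X]; exact hx1 0)
  obtain ⟨C_V, hvsf⟩ := hVSF ν r d k P F V K ξ τ hν hP hF (by omega) hsl hfd hk hVp hHm hX1V
    hPV ⟨q, hqV, hPq⟩ hex hiff (hout _ hxpd) (hout _ hxjm)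
  -- the number of steps
  obtain ⟨l, hl⟩ := exists_l (C_V * C) (pow_nonneg hμ' k)
    (pow_lt_pow_left₀ hcμ hμ' (by omega : k ≠ 0)) (one_lt_pow₀ hc1 (by omega : k ≠ 0))
  obtain ⟨B, hBdef⟩ : ∃ B : ℕ, B = ⌊C * μ' ^ (k * l)⌋₊ := ⟨_, rfl⟩
  have hBle : (B : ℝ) ≤ C * μ' ^ (k * l) := by
    rw [hBdef]
    exact Nat.floor_le ((Nat.cast_nonneg _).trans (hup (k * l) 0))
  obtain ⟨u, A, hu, hvsf'⟩ := hvsf l B fun s => by
    rw [hBdef]
    exact Nat.le_floor (hup (k * l) s)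
  -- the field
  obtain ⟨S, hS⟩ : ∃ S : Finset Qb, S = A ∪ Finset.univ.image x := ⟨_, rfl⟩
  obtain ⟨K₁, hK₁⟩ : ∃ K₁, K₁ = K₀ ⊔ IntermediateField.adjoin ℚ (S : Set Qb) := ⟨_, rfl⟩
  have hle : K₀ ≤ K₁ := by
    rw [hK₁]
    exact le_sup_left
  have hfin1 : FiniteDimensional ℚ K₁ := by
    rw [hK₁]
    have := hKfin
    have : FiniteDimensional ℚ (IntermediateField.adjoin ℚ (S : Set Qb)) :=
      IntermediateField.finiteDimensional_adjoin fun x _ =>
        (Algebra.IsAlgebraic.isAlgebraic (R := ℚ) x).isIntegral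
    exact IntermediateField.finiteDimensional_sup K₀ (IntermediateField.adjoin ℚ (S : Set Qb))
  have hSK : ∀ a ∈ S, a ∈ K₁ := by
    intro a ha
    rw [hK₁]
    exact (le_sup_right : IntermediateField.adjoin ℚ (S : Set Qb) ≤ _)
      (IntermediateField.subset_adjoin ℚ _ ha)
  simp only [hS, Finset.mem_union] at hSK
  have hKF1 : ∀ i, ∀ c ∈ (F i).coeffs, c ∈ K₁ := fun i c hc => hle (hKF i c hc)
  have hxK : ∀ i, x i ∈ K₁ := fun i => hSK _ (Or.inr (Finset.mem_image_of_mem _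
    (Finset.mem_univ i)))
  have horb : ∀ n i, (pmap F)^[n] x i ∈ K₁ := fun n i =>
    Pool.Agent.H8.TX.orbit_mem5 F hKF1 x hxK n i
  obtain ⟨F₁, r₁, hr₁, hconv⟩ := hCNV K₀ K₁ F' hle hfin1
  obtain ⟨cV, hcV⟩ := hvsf' K₁ F₁ fun a ha => hSK a (Or.inl ha)
  -- the heights with respect to the larger field
  obtain ⟨Γ₀, L₀, hL₀, hΓ₀⟩ := hGAL K₀ (Finset.univ.image x)
  obtain ⟨Γ₁, L₁, -, hΓ₁⟩ := hGAL K₁ ∅
  have hx₀ : ∀ i, x i ∈ L₀ := fun i => hL₀ _ (Finset.mem_image_of_mem _ (Finset.mem_univ i))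
  have horb₀ : ∀ n i, (pmap F)^[n] x i ∈ L₀ := fun n i =>
    Pool.Agent.H18.BKH.orbit_memL F hKF x hx₀ n i
  have horb₁ : ∀ n i, (pmap F)^[n] x i ∈ L₁ := fun n i =>
    L₁.algebraMap_mem ⟨_, horb n i⟩
  have hΓ0 : (0 : ℝ) < Γ₀.card := by
    exact_mod_cast hΓ₀.ne.card_pos
  have hΓ1 : (0 : ℝ) < Γ₁.card := by
    exact_mod_cast hΓ₁.ne.card_pos
  have hr1 : (1 : ℝ) ≤ r₁ := by exact_mod_cast hr₁
  have hhn : ∀ n, (Γ₀.card : ℝ) * hn F₁ (af ((pmap F)^[n] x)) =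
      r₁ * avn F' Γ₀ (af ((pmap F)^[n] x)) := by
    intro n
    have h1 := hconv (ν + 2) (af ((pmap F)^[n] x)) Γ₀ L₀ Γ₁ L₁ hΓ₀ hΓ₁
      (fun i => div_mem (horb₀ n i) (horb₀ n 1)) (fun i => div_mem (horb₁ n i) (horb₁ n 1))
    have h3 : ∀ i, af ((pmap F)^[n] x) i ∈ K₁ := fun i => div_mem (horb n i) (horb n 1)
    rw [avn_mem F₁ Γ₁ h3] at h1
    have h2 : (Γ₁.card : ℝ) * (Γ₀.card * hn F₁ (af ((pmap F)^[n] x))) =
        Γ₁.card * (r₁ * avn F' Γ₀ (af ((pmap F)^[n] x))) := by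
      linear_combination h1
    exact mul_left_cancel₀ hΓ1.ne' h2
  obtain ⟨hstart, hstep⟩ := hgrow Γ₀ L₀ hΓ₀ hx₀
  have hstep1 : ∀ n, c ^ m * hn F₁ (af ((pmap F)^[m * n] x)) ≤
      hn F₁ (af ((pmap F)^[m * (n + 1)] x)) := by
    intro n
    have h1 := mul_le_mul_of_nonneg_left (hstep n) (by linarith : (0 : ℝ) ≤ r₁)
    have h2 : (Γ₀.card : ℝ) * (c ^ m * hn F₁ (af ((pmap F)^[m * n] x))) ≤
        Γ₀.card * hn F₁ (af ((pmap F)^[m * (n + 1)] x)) := by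
      rw [hhn, mul_left_comm, hhn]
      linarith
    exact le_of_mul_le_mul_left h2 hΓ0
  have hstart1 : 1 ≤ hn F₁ (af x) := by
    have h1 := hhn 0
    rw [Function.iterate_zero, id] at h1
    have h2 : (Γ₀.card : ℝ) * 1 ≤ Γ₀.card * hn F₁ (af x) := by
      rw [h1, mul_one]
      have h3 : 1 * (Γ₀.card : ℝ) ≤ r₁ * avn F' Γ₀ (af x) :=
        mul_le_mul hr1 hstart hΓ0.le (by linarith)
      linarith
    exact le_of_mul_le_mul_left h2 hΓ0
  obtain ⟨k₂, hk₂⟩ := hmk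
  have hstepk : ∀ n, c ^ k * hn F₁ (af ((pmap F)^[k * n] x)) ≤
      hn F₁ (af ((pmap F)^[k * (n + 1)] x)) := by
    intro n
    have h1 : ∀ j i, (c ^ m) ^ j * hn F₁ (af ((pmap F)^[m * i] x)) ≤
        hn F₁ (af ((pmap F)^[m * (i + j)] x)) := by
      intro j i
      induction j with
      | zero =>
        rw [pow_zero, one_mul]
        exact le_rfl
      | succ j ih =>
        calc (c ^ m) ^ (j + 1) * hn F₁ (af ((pmap F)^[m * i] x)) =
              c ^ m * ((c ^ m) ^ j * hn F₁ (af ((pmap F)^[m * i] x))) := by ring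
          _ ≤ c ^ m * hn F₁ (af ((pmap F)^[m * (i + j)] x)) :=
              mul_le_mul_of_nonneg_left ih (by positivity)
          _ ≤ _ := hstep1 (i + j)
    have h2 := h1 k₂ (k₂ * n)
    have h3 : m * (k₂ * n) = k * n := by rw [hk₂]; ring
    have h4 : m * (k₂ * n + k₂) = k * (n + 1) := by rw [hk₂]; ring
    rw [h3, h4, ← pow_mul, ← hk₂] at h2
    exact h2
  refine contraF (h := fun n => hn F₁ (af ((pmap F)^[k * n] x))) (g := c ^ k) (l := l)
    (D := C_V * C * (μ' ^ k) ^ l) (c := cV)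
    (S := {n | eval ((pmap F)^[k * n] x) u ≠ 0}) (one_lt_pow₀ hc1 (by omega)) hstepk
    (by
      simp only [Nat.mul_zero, Function.iterate_zero, id]
      exact hstart1) hl (fun n hn' => ?_) ?_
  · have hpi : (pmap (it F k))^[l] ((pmap F)^[k * n] x) = (pmap F)^[k * (n + l)] x := by
      rw [pmap_it_iterate, ← Function.iterate_add_apply]
      congr 1
      ring
    have h1 := hcV ((pmap F)^[k * n] x) (horb _) (fun q hq => by
        rw [hV] at hq
        have h2 := hq n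
        rwa [pmap_it_iterate] at h2) (hx1 _) (by rw [hpi]; exact hx1 _) hn'
    rw [hpi] at h1
    refine h1.trans ?_
    have h2 : (C_V : ℝ) * B ≤ C_V * C * (μ' ^ k) ^ l := by
      rw [mul_assoc, ← pow_mul]
      exact mul_le_mul_of_nonneg_left hBle (Nat.cast_nonneg _)
    have h3 := mul_le_mul_of_nonneg_right h2 (hn_nonneg F₁ (af ((pmap F)^[k * n] x)))
    linarith
  · intro hfinS
    obtain ⟨N, hN⟩ := hfinS.bddAbove
    apply hu
    apply hiff' (N + 1)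
    rw [hV]
    intro n
    rw [Pool.Agent.H18.HIT.eval_aeval, pmap_it, pmap_it_iterate, pmap_it_iterate,
      ← Function.iterate_add_apply, ← Nat.mul_add]
    by_contra h1
    have h2 := hN (show N + 1 + n ∈ {n | eval ((pmap F)^[k * n] x) u ≠ 0} from h1)
    omega

end Pool.Agent.H8.EDA
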