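import Pool.Agent.H8.EDA.Lin

/-!
# Zariski dense orbits in dimension `ν` by forward heights: the orbit
-/

set_option autoImplicit false

open MvPolynomial
open Pool.Agent.H12.ZD (pmap)
open Pool.Agent.H18.HIT Pool.Agent.H18.HX Pool.Agent.H18.VZ
open Pool.Agent.H8.ZA (HFam Const NA)
open Pool.Agent.H8.TD (lc dg Wsp Cop dh lc_single lc_map lc_iterate)
open Pool.Agent.H8.TX (hn hn_nonneg hn_lc szn_one hn_mono hn_le_sum hn_coord one_le_szn le_szn szn
  T_COL)
open Pool.Agent.H2.ED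
open Pool.Agent.H18.TE (lg Gc T_GAL T_FIX T_EQD T_HLN)
open Pool.Agent.H18.BKH (map_eval map_pmap map_orbit eval_memL orbit_memL Gc.prod_mem)
open Pool.Agent.H18.TXB (avn avn_nonneg avn_mem sum_fin prod_fin hn_ht exists_algEquiv root_div
  T_LFG fracX)
open Pool.Agent.H18.EDB (dgm T_HTN)

namespace Pool.Agent.H8.EDA

/-- growth from the first two heights and the recursion -/
theorem growF (u : ℕ → ℝ) {κ β q c₀ A B C : ℝ} (hq : 1 < q) (hκ : 2 * q ≤ κ)
    (hβκ : 8 * β ≤ κ * q) (hrec : ∀ j, κ * u (j + 1) ≤ u (j + 2) + β * u j + c₀)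
    (h0 : |u 0 - A| ≤ B) (h1 : 2 * q * A - C ≤ u 1)
    (hA : |C| + B + 1 + 4 * |c₀| ≤ A) : ∀ j, 1 + 4 * |c₀| ≤ u j ∧ q * u j ≤ u (j + 1) := by
  have hB : 0 ≤ B := (abs_nonneg _).trans h0
  have hc := abs_nonneg c₀
  have hC := abs_nonneg C
  have hC' := le_abs_self C
  have hc' := le_abs_self c₀
  obtain ⟨h2, h3⟩ := abs_le.mp h0
  intro j
  induction j with
  | zero =>
    refine ⟨by linarith, ?_⟩
    have h4 : q * u 0 ≤ q * (A + B) := mul_le_mul_of_nonneg_left (by linarith) (by linarith)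
    have h5 : q * (|C| + B + 1 + 4 * |c₀|) ≤ q * A := mul_le_mul_of_nonneg_left hA (by linarith)
    have h6 : 1 * |C| ≤ q * |C| := mul_le_mul_of_nonneg_right hq.le hC
    have h7 : 0 ≤ q * (1 + 4 * |c₀|) := by positivity
    nlinarith
  | succ j ih =>
    obtain ⟨h4, h5⟩ := ih
    have h6 : 1 * u j ≤ q * u j := mul_le_mul_of_nonneg_right hq.le (by linarith)
    have h7 : 1 + 4 * |c₀| ≤ u (j + 1) := by linarith
    refine ⟨h7, ?_⟩
    have h8 := hrec j
    have h9 : 8 * β * u j ≤ κ * q * u j := mul_le_mul_of_nonneg_right hβκ (by linarith)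
    have h10 : κ * (q * u j) ≤ κ * u (j + 1) := mul_le_mul_of_nonneg_left h5 (by linarith)
    have h11 : 2 * q * u (j + 1) ≤ κ * u (j + 1) := mul_le_mul_of_nonneg_right hκ (by linarith)
    have h12 : 1 * u (j + 1) ≤ q * u (j + 1) := mul_le_mul_of_nonneg_right hq.le (by linarith)
    have h13 : κ * q * u j = κ * (q * u j) := by ring
    have h14 : u (j + 1 + 1) = u (j + 2) := rfl
    rw [h14]
    nlinarith

section

variable {ν : ℕ} {K : Type} [Field K] [Algebra Qb K] {P : Po (ν + 2) Qb} {F : Tup (ν + 2) Qb}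
  {ξ : Fin (ν + 2) → K} {τ : K →ₐ[Qb] K} {r : ℕ}

/-- the polynomial form of the equation -/
theorem eq_polyF (h : Fd P F ξ τ) (hP : Hyp P r) {d : ℕ} (hF : ∀ i, (F i).IsHomogeneous d)
    (hs : Slf (Ideal.span {P}) F) {m E Y' : ℕ}
    {Cf : Fin (E + 1) → Po (ν + 1) Qb} (hCf : ∀ j, (Cf j).IsHomogeneous Y')
    {s : Fin (ν + 2) → Qb}
    (hrel : ∑ j : Fin (E + 1), aeval (fun i : Fin (ν + 1) => ξ i.succ) (Cf j) *
        lc s (pn τ ξ m) ^ (E - (j : ℕ)) = 0) :
    P ∣ ∑ j : Fin (E + 1), aeval (fun i : Fin (ν + 1) => it F 0 i.succ) (Cf j) *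
      (sF F m s ^ (E - (j : ℕ)) * it F m 1 ^ (j : ℕ)) := by
  obtain ⟨hne, heq⟩ := pn_eq h hP hF hs m
  refine (h.gp.iff (Y' + d ^ m * E) _ ?_).1 ?_
  · apply IsHomogeneous.sum
    intro j _
    have h1 : (aeval (fun i : Fin (ν + 1) => it F 0 i.succ) (Cf j)).IsHomogeneous
        (1 * Y') := (hCf j).aeval _ fun i => by
      rw [it_zero]
      exact isHomogeneous_X _ _
    rw [one_mul] at h1
    have h2 := ((sF_hom hF m s).pow (E - (j : ℕ))).mul ((it_hom hF m 1).pow (j : ℕ))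
    have h3 : d ^ m * (E - (j : ℕ)) + d ^ m * (j : ℕ) = d ^ m * E := by
      rw [← mul_add]
      congr 1
      have := j.2
      omega
    rw [h3] at h2
    exact h1.mul h2
  · have h1 : ∀ j : Fin (E + 1), aeval ξ (aeval (fun i : Fin (ν + 1) => it F 0 i.succ) (Cf j) *
        (sF F m s ^ (E - (j : ℕ)) * it F m 1 ^ (j : ℕ))) =
        aeval ξ (it F m 1) ^ E *
          (aeval (fun i : Fin (ν + 1) => ξ i.succ) (Cf j) *
            lc s (pn τ ξ m) ^ (E - (j : ℕ))) := by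
      intro j
      have h2 : aeval ξ (aeval (fun i : Fin (ν + 1) => it F 0 i.succ) (Cf j)) =
            aeval (fun i : Fin (ν + 1) => ξ i.succ) (Cf j) := by
        rw [← AlgHom.comp_apply, comp_aeval]
        congr 2
        funext i
        rw [it_zero, aeval_X]
      have h3 : aeval ξ (sF F m s) = lc s (pn τ ξ m) * aeval ξ (it F m 1) := by
        rw [lc_pn heq, div_mul_cancel₀ _ hne]
      have h4 : E - (j : ℕ) + (j : ℕ) = E := by
        have := j.2
        omega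
      rw [map_mul, map_mul, map_pow, map_pow, h2, h3, mul_pow]
      have h5 : aeval ξ (it F m 1) ^ E = aeval ξ (it F m 1) ^ (E - (j : ℕ)) *
          aeval ξ (it F m 1) ^ (j : ℕ) := by
        rw [← pow_add, h4]
      rw [h5]
      ring
    rw [map_sum, Finset.sum_congr rfl fun j _ => h1 j, ← Finset.mul_sum, hrel, mul_zero]

end

/-- **the orbit**: points over a line whose heights grow -/
theorem pf_ORF (hEQF : T_EQF) (hCOL : T_COL) (hHTN : T_HTN) (hLFG : T_LFG) (hFIX : T_FIX)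
    (hEQD : T_EQD) (hHLN : T_HLN) : T_ORF := by
  intro ν r d m Y P b F K _ _ ξ τ κ β q T s hν hP hrd hF hsl hfd hm hY1 hY hβ hq hκ hβκ hqY hT
    hrec hb hPb
  classical
  have hprime : (Ideal.span {P} : Ideal (Po (ν + 2) Qb)).IsPrime := isPrime_span hP.irr
  have hpr := hP.irr.prime
  have hX1 : ¬ P ∣ (X 1 : Po (ν + 2) Qb) := not_dvd_X1 hP
  have hr1 : 1 ≤ r := one_le_r hP
  obtain ⟨E₁, Y', Cf, s₀, hE₁, hCf, hcop, hC0, hirr, hEY, hrel⟩ :=
    hEQF ν r d m P F K ξ τ Y s hν hP hF hsl hfd hY hY1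
  have hrelP := eq_polyF hfd hP hF hsl hCf hrel
  obtain ⟨b₁, hb₁⟩ : ∃ b₁ : Po (ν + 2) Qb, b₁ = ∏ p ∈ T, hmg p := ⟨_, rfl⟩
  have hb₁hom : b₁.IsHomogeneous (∑ p ∈ T, p.totalDegree) := by
    rw [hb₁]
    exact IsHomogeneous.prod _ _ _ fun p _ => hmg_hom p
  have hPb₁ : ¬ P ∣ b₁ := by
    rw [hb₁]
    intro h
    obtain ⟨p, hp, hPp⟩ := (Prime.dvd_finsetProd_iff hpr _).1 h
    apply hT p hp
    rw [← aeval_hmg p ξ hfd.gp.one]
    exact aeval_dvd hfd.gp hP hPp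
  obtain ⟨mb, hmb⟩ := hb
  -- the function to be avoided by the orbit of `f ^ m`
  obtain ⟨b₂, hb₂⟩ : ∃ b₂ : Po (ν + 2) Qb, b₂ = ∏ i ∈ Finset.range m, aeval (it F i) (b * X 1) :=
    ⟨_, rfl⟩
  have hb₂hom : ∃ n, b₂.IsHomogeneous n := by
    refine ⟨∑ i ∈ Finset.range m, d ^ i * (mb + 1), ?_⟩
    rw [hb₂]
    exact IsHomogeneous.prod _ _ _ fun i _ =>
      (hmb.mul (isHomogeneous_X _ _)).aeval _ fun j => it_hom hF i j
  have hPb₂ : ¬ P ∣ b₂ := by
    rw [hb₂]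
    intro h
    obtain ⟨i, -, hi⟩ := (Prime.dvd_finsetProd_iff hpr _).1 h
    have h1 := (hsl.it i).inj _ (Ideal.mem_span_singleton.2 hi)
    exact (hpr.dvd_or_dvd (Ideal.mem_span_singleton.1 h1)).elim hPb hX1
  obtain ⟨n₂, hn₂⟩ := hb₂hom
  obtain ⟨k₁, α, ϖ, hk₁, hϖ, hcol⟩ := hCOL (ν + 1) r (d ^ m) P (b₂ * b₁) (it F m) (by omega) hP
    (hrd.trans (Nat.le_self_pow (by omega) d)) (it_hom hF m) (hsl.it m)
    ⟨_, hn₂.mul hb₁hom⟩ (fun h => (hpr.dvd_or_dvd h).elim hPb₂ hPb₁)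
  refine ⟨m * k₁, Nat.mul_pos hm hk₁, Dvd.intro k₁ rfl, fun E θ Δ hB hcv g hg => ?_⟩
  rw [it_mul] at hcol
  have hcol' := hcol E θ Δ hB hcv
  obtain ⟨hal1, hal2⟩ := Pool.Agent.H18.HX.All.alx (ν + 1) Qb P (it F 0) hP.irr hP.mon (hsl.it 0)
  obtain ⟨c₁, hc₁, hlift⟩ := hLFG (ν + 2) (ν + 1) E₁ Qb (Ideal.span {P})
    (fun j => it F 0 j.succ) (sF F m s₀)
    (it F m 1) 1 Cf (fun q hq => hal1 q (Ideal.mem_span_singleton.1 hq))
    (fun i => by
      obtain ⟨Q, hQ, h1⟩ := hal2 i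
      exact ⟨Q, hQ, Ideal.mem_span_singleton.2 h1⟩)
    (fun h => by
      have h1 : aeval (it F m) (X 1 : Po (ν + 2) Qb) ∈ (Ideal.span {P} : Ideal (Po (ν + 2) Qb)) := by
        rw [aeval_X]
        exact h
      exact hX1 (Ideal.mem_span_singleton.1 ((hsl.it m).inj _ h1)))
    (fun h => hprime.ne_top ((Ideal.eq_top_iff_one _).2 h)) hC0 hirr
    (Ideal.mem_span_singleton.2 hrelP)
  obtain ⟨y, hy, hyb⟩ := hcol' (g * (c₁ * (Cf 0 * X 0))) (mul_ne_zero hg (mul_ne_zero hc₁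
    (mul_ne_zero hC0 (X_ne_zero 0))))
  obtain ⟨w, hw⟩ : ∃ w : Fin (ν + 1) → Qb, w = fun i => α i + ϖ * (y i : Qb) := ⟨_, rfl⟩
  rw [← hw, map_mul, map_mul, map_mul, eval_X] at hy
  have hwC := left_ne_zero_of_mul (right_ne_zero_of_mul (right_ne_zero_of_mul hy))
  have hw0 := right_ne_zero_of_mul (right_ne_zero_of_mul (right_ne_zero_of_mul hy))
  obtain ⟨cc, hcc, hdir⟩ := dirB (by omega) hCf hcop hw0 hwC
  obtain ⟨b', hb', hbt⟩ := hyb cc hcc
  obtain ⟨v, hv⟩ : ∃ v : Fin (ν + 1) → Qb, v = fun i => ϖ * cZ b' i := ⟨_, rfl⟩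
  obtain ⟨hv1, hv2, hv3, hv4⟩ := hdir (cZ b') hb' ϖ hϖ
  have hvi : ∀ i, v i = ϖ * cZ b' i := fun i => congrFun hv i
  -- the number field
  obtain ⟨S, hS⟩ : ∃ S : Finset Qb, S = P.coeffs ∪ ((Finset.univ.biUnion fun i => (F i).coeffs) ∪
    ((T.biUnion fun p => p.coeffs) ∪ ((Finset.univ.biUnion fun j => (Cf j).coeffs) ∪
      (Finset.univ.image w ∪ (Finset.univ.image v ∪ (Finset.univ.image s₀ ∪
        (ln w v (Cf 0)).coeffs)))))) :=
    ⟨_, rfl⟩
  obtain ⟨K₀, hK₀⟩ : ∃ K₀, K₀ = IntermediateField.adjoin ℚ (S : Set Qb) := ⟨_, rfl⟩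
  have hSK : ∀ c ∈ S, c ∈ K₀ := fun c hc => by
    rw [hK₀]
    exact IntermediateField.subset_adjoin ℚ _ hc
  have hKfin : FiniteDimensional ℚ K₀ := by
    rw [hK₀]
    exact IntermediateField.finiteDimensional_adjoin fun x _ =>
      (Algebra.IsAlgebraic.isAlgebraic (R := ℚ) x).isIntegral
  have hgal' : ∀ σ : Qb ≃+* Qb, (∀ a ∈ S, σ a = a) → ∃ τ : Qb ≃ₐ[K₀] Qb, ∀ a, τ a = σ a := by
    intro σ hσ
    rw [hK₀]
    exact exists_algEquiv S σ hσ
  simp only [hS, Finset.mem_union] at hSK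
  have hKP : ∀ c ∈ P.coeffs, c ∈ K₀ := fun c hc => hSK c (Or.inl hc)
  have hKF : ∀ i, ∀ c ∈ (F i).coeffs, c ∈ K₀ := fun i c hc => hSK c (Or.inr (Or.inl
      (Finset.mem_biUnion.2 ⟨i, Finset.mem_univ i, hc⟩)))
  have hKT : ∀ p ∈ T, ∀ c ∈ p.coeffs, c ∈ K₀ := fun p hp c hc => hSK c (Or.inr (Or.inr (Or.inl
      (Finset.mem_biUnion.2 ⟨p, hp, hc⟩))))
  have hKC : ∀ j, ∀ c ∈ (Cf j).coeffs, c ∈ K₀ := fun j c hc => hSK c (Or.inr (Or.inr (Or.inr
    (Or.inl (Finset.mem_biUnion.2 ⟨j, Finset.mem_univ j, hc⟩)))))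
  have hKw : ∀ i, w i ∈ K₀ := fun i => hSK _ (Or.inr (Or.inr (Or.inr (Or.inr (Or.inl
        (Finset.mem_image_of_mem _ (Finset.mem_univ i)))))))
  have hKv : ∀ i, v i ∈ K₀ := fun i => hSK _ (Or.inr (Or.inr (Or.inr (Or.inr (Or.inr (Or.inl
        (Finset.mem_image_of_mem _ (Finset.mem_univ i))))))))
  have hKs : ∀ i, s₀ i ∈ K₀ := fun i => hSK _ (Or.inr (Or.inr (Or.inr (Or.inr (Or.inr (Or.inr
    (Or.inl (Finset.mem_image_of_mem _ (Finset.mem_univ i)))))))))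
  have hKL : ∀ j, (ln w v (Cf 0)).coeff j ∈ K₀ := Pool.Agent.H8.TD.coeff_mem _ fun c hc =>
    hSK c (Or.inr (Or.inr (Or.inr (Or.inr (Or.inr (Or.inr (Or.inr hc)))))))
  have hKl : ∀ (t : ℤ) (i : Fin (ν + 1)), w i + (t : Qb) * v i ∈ K₀ := fun t i =>
    add_mem (hKw i) (mul_mem (intCast_mem K₀ t) (hKv i))
  obtain ⟨F'⟩ := Pool.Agent.H8.ZA.F.PFX K₀ hKfin
  obtain ⟨c₀, hc₀⟩ := hrec K₀ F'
  obtain ⟨cs, hcs⟩ := hn_lc F' s₀
  obtain ⟨cA, hcA⟩ := hHLN E₁ Y' (fun j => ln w v (Cf j)) (fun j => (ln_coeff (hCf j) w v).1)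
    ⟨0, by
      rw [(ln_coeff (hCf 0) w v).2, hv]
      exact hv3⟩
    (by
      intro t
      obtain ⟨j, hj⟩ := hv4 t
      refine ⟨j, ?_⟩
      rw [eval_ln, hv]
      exact hj)
    (by
      intro h0
      apply hv3
      rw [← hv, ← (ln_coeff (hCf 0) w v).2, h0, Polynomial.coeff_zero]) K₀ F' hKL
  obtain ⟨cB, hcB⟩ := hHTN ν P r w v hP (by rw [hv]; exact hv1) (by rw [hv]; exact hv2) K₀ F'
    fun t => hKl t 0
  obtain ⟨A₀, hA₀⟩ : ∃ A₀ : ℝ, A₀ = |cA / E₁ + cs| + |cB| + 1 + 4 * |c₀| := ⟨_, rfl⟩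
  obtain ⟨Mb, hMb⟩ := exists_nat_gt (Real.exp (max A₀ 0))
  obtain ⟨t, x, htM, hxe, hxP, hxb, hxg, hVp, hVt, hgal⟩ := hbt S Mb
  have hxt : tl x = fun i => w i + (t : Qb) * v i := by
    funext i
    rw [tl, hxe, hw, hvi, cZ]
    push_cast
    ring
  have hxt' : ∀ i : Fin (ν + 1), x i.succ = w i + (t : Qb) * v i := fun i => congrFun hxt i
  have hup : ∀ q : Po (ν + 1) Qb, eval x (up q) = eval (tl x) q := fun q => by
    rw [up, eval_rename]
    rfl
  rw [hup, map_mul, map_mul, map_mul, eval_X] at hxg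
  have hxg' := left_ne_zero_of_mul hxg
  have hxc := left_ne_zero_of_mul (right_ne_zero_of_mul hxg)
  have hxC := left_ne_zero_of_mul (right_ne_zero_of_mul (right_ne_zero_of_mul hxg))
  have hx0 := right_ne_zero_of_mul (right_ne_zero_of_mul (right_ne_zero_of_mul hxg))
  have hzer : ∀ n, eval ((pmap F)^[n] x) P = 0 := fun n =>
    zer_iterate hsl.inv (zer_span.mpr hxP) n P (Ideal.mem_span_singleton_self P)
  have havb : ∀ n, eval ((pmap F)^[n] x) b ≠ 0 ∧ (pmap F)^[n] x 1 ≠ 0 := by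
    intro n
    have h1 := hxb (n / m)
    rw [pmap_it_iterate, map_mul, hb₂, map_prod] at h1
    have h2 := Finset.prod_ne_zero_iff.1 (left_ne_zero_of_mul h1) (n % m)
      (Finset.mem_range.2 (Nat.mod_lt n hm))
    rw [Pool.Agent.H18.HIT.eval_aeval, pmap_it, ← Function.iterate_add_apply,
      Nat.mod_add_div, map_mul, eval_X] at h2
    exact ⟨left_ne_zero_of_mul h2, right_ne_zero_of_mul h2⟩
  have havT : ∀ j, ∀ p ∈ T, eval (af ((pmap F)^[m * j] x)) p ≠ 0 := by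
    intro j p hp
    have h1 := hxb j
    rw [pmap_it_iterate, map_mul, hb₁, map_prod] at h1
    have h3 := Finset.prod_ne_zero_iff.1 (right_ne_zero_of_mul h1) p hp
    rw [eval_hmg p (havb (m * j)).2] at h3
    exact right_ne_zero_of_mul h3
  have ht0 : t ≠ 0 := by
    rintro rfl
    rw [abs_zero] at htM
    exact absurd htM (by have := Int.natCast_nonneg Mb; omega)
  obtain ⟨A, hA⟩ : ∃ A : ℝ, A = F'.arch.card * Real.log |(t : ℝ)| := ⟨_, rfl⟩
  have hlog : max A₀ 0 ≤ Real.log |(t : ℝ)| := by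
    have h2 : (Mb : ℝ) < |(t : ℝ)| := by exact_mod_cast htM
    rw [Real.le_log_iff_exp_le ((Nat.cast_nonneg Mb).trans_lt h2)]
    exact (hMb.trans h2).le
  have hAA : A₀ ≤ A ∧ 0 ≤ A := by
    have h3 : (1 : ℝ) ≤ F'.arch.card := by
      exact_mod_cast F'.arch_nonempty.card_pos
    have h4 : 0 ≤ Real.log |(t : ℝ)| := (le_max_right _ _).trans hlog
    have h5 : 1 * Real.log |(t : ℝ)| ≤ A := by
      rw [hA]
      exact mul_le_mul_of_nonneg_right h3 h4
    have h6 := (le_max_left A₀ 0).trans hlog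
    constructor <;> linarith
  refine ⟨x, K₀, F', hKfin, hKF, hxP, fun n => (havb n).1, fun n => (havb n).2, ?_, hVp, hVt,
    fun Γ L hΓ hxL => ?_⟩
  · rw [hup]
    exact hxg'
  have hΓ0 : (0 : ℝ) < Γ.card := by
    exact_mod_cast hΓ.ne.card_pos
  have hE0 : (0 : ℝ) < E₁ := by exact_mod_cast hE₁
  have hr0 : (0 : ℝ) < (r : ℝ) ^ ν := by
    have : (0 : ℝ) < r := by exact_mod_cast hr1
    positivity
  -- the first height
  have hfirst0 : |avn F' Γ (af x) / Γ.card - A| ≤ |cB| := by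
    have h0 : ∀ σ ∈ Γ, |hn F' (fun i => σ (af x i)) - A| ≤ |cB| := by
      intro σ _
      rw [map_af]
      have h1 : (fun i => σ (x i)) = (Fin.cons (σ (x 0)) (fun i => w i + (t : Qb) * v i) :
          Fin (ν + 2) → Qb) := by
        funext i
        refine Fin.cases rfl (fun i' => ?_) i
        rw [Fin.cons_succ, hxt']
        exact σ.commutes ⟨_, hKl t i'⟩
      have h2 := hcB t (σ (x 0)) ht0 (by
        rw [← hxt' 0]
        exact hx0) (by
        rw [← h1, ← map_eval σ P hKP, hxP, map_zero])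
      rw [← h1, ← hA] at h2
      exact h2.trans (le_abs_self cB)
    have h1 : avn F' Γ (af x) / Γ.card - A =
        (∑ σ ∈ Γ, (hn F' (fun i => σ (af x i)) - A)) / Γ.card := by
      rw [Finset.sum_sub_distrib, Finset.sum_const, nsmul_eq_mul, sub_div,
        mul_div_cancel_left₀ _ hΓ0.ne']
      rfl
    rw [h1, abs_div, abs_of_pos hΓ0, div_le_iff₀ hΓ0]
    refine (Finset.abs_sum_le_sum_abs _ _).trans ((Finset.sum_le_sum h0).trans ?_)
    rw [Finset.sum_const, nsmul_eq_mul, mul_comm]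
  -- the second height
  obtain ⟨u, hu⟩ : ∃ u : Fin (ν + 2) → Qb, u = (pmap F)^[m] x := ⟨_, rfl⟩
  have hq0 : ∀ z : Fin (ν + 2) → Qb, (pmap F)^[m] z 1 = eval z (it F m 1) := fun z => by
    rw [← pmap_it]
    rfl
  have hlcz : ∀ z : Fin (ν + 2) → Qb, lc s₀ (af ((pmap F)^[m] z)) =
      eval z (sF F m s₀) / eval z (it F m 1) := by
    intro z
    rw [← pmap_it, sF, map_sum, lc, Finset.sum_div]
    refine Finset.sum_congr rfl fun i _ => ?_
    rw [smul_eq_mul, map_mul, eval_C, mul_div_assoc]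
    rfl
  have huL : ∀ i, u i ∈ L := by
    intro i
    rw [hu]
    exact orbit_memL F hKF x hxL _ i
  have htlX : ∀ z : Fin (ν + 2) → Qb, ∀ c : Po (ν + 1) Qb,
      eval z (aeval (fun i : Fin (ν + 1) => it F 0 i.succ) c) = eval (tl z) c := by
    intro z c
    rw [Pool.Agent.H18.HX.eval_aeval_gen]
    congr 1
    congr 1
    funext i
    rw [it_zero, eval_X]
    rfl
  have hfirst : (Γ.card : ℝ) * (Y' * A - cA) ≤ E₁ * (avn F' Γ (af u) + Γ.card * cs) := by
    apply root_avX hEQD F' hΓ hE₁ (fun j => eval (tl x) (Cf j)) hxC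
      (fun j => Pool.Agent.H8.TD.eval_mem (Cf j) _ (hKC j) fun i => by
        rw [tl, hxt']
        exact hKl t i) s₀ hKs u huL
    · rw [hu, hlcz]
      apply root_div _ (by
        rw [← hq0]
        exact (havb m).2)
      obtain ⟨Q, hQ⟩ := hrelP
      have h1 := congrArg (eval x) hQ
      rw [map_mul, hxP, zero_mul, map_sum] at h1
      rw [← h1]
      refine Finset.sum_congr rfl fun j _ => ?_
      rw [map_mul, map_mul, map_pow, map_pow, htlX]
    · intro ζ hζ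
      obtain ⟨x', hx'1, hx'2, hx'3, hx'4, -⟩ := hlift (tl x) hxc ζ hζ
      obtain ⟨σ, hσ1, hσ3⟩ := hgal x' (zer_span.mp hx'1) (fun i => by
        have h9 := hx'2 i
        rw [it_zero, eval_X] at h9
        exact h9)
      obtain ⟨τ', hτ⟩ := hgal' σ hσ1
      refine ⟨τ', ?_⟩
      have h1 : τ' (lc s₀ (af u)) = lc s₀ (fun i => τ' (af u i)) := by
        unfold lc
        rw [map_sum]
        apply Finset.sum_congr rfl
        intro i _
        rw [smul_eq_mul, smul_eq_mul, map_mul]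
        have h9 : τ' (s₀ i) = s₀ i := τ'.commutes ⟨s₀ i, hKs i⟩
        rw [h9]
      have h2 : (fun i => τ' (x i)) = x' := by
        funext i
        rw [hτ, hσ3]
      rw [h1, map_af, hu, map_orbit τ' F hKF, h2, hlcz, hx'4, mul_div_cancel_right₀ _ hx'3]
    · intro Sm hSm
      have h1 := hcA t ht0 (by
        rw [eval_ln, ← hxt]
        exact hxC) Sm (by
        simp only [eval_ln]
        rw [← hxt]
        exact hSm)
      simp only [hn_ht] at h1
      rw [← hA] at h1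
      exact h1
    · exact hcs
  have hfirst1 : 2 * q * A - (cA / E₁ + cs) ≤ avn F' Γ (af u) / Γ.card := by
    have h1 : (Γ.card : ℝ) * (E₁ * (2 * q) * A - cA) ≤ Γ.card * (Y' * A - cA) := by
      apply mul_le_mul_of_nonneg_left _ hΓ0.le
      have h3 : (E₁ : ℝ) * (2 * q) ≤ Y' :=
        (mul_le_mul_of_nonneg_left hqY hE0.le).trans hEY
      have h2 := mul_le_mul_of_nonneg_right h3 hAA.2
      linarith
    have h2 := h1.trans hfirst
    have h3 : (Γ.card * (2 * q * A - (cA / E₁ + cs))) * E₁ =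
        Γ.card * (E₁ * (2 * q) * A - cA) - E₁ * (Γ.card * cs) := fracX _ _ _ _ _ hE0
    have h4 : (Γ.card * (2 * q * A - (cA / E₁ + cs))) * E₁ ≤ avn F' Γ (af u) * E₁ := by
      rw [h3]
      linarith
    rw [le_div_iff₀ hΓ0, mul_comm]
    exact le_of_mul_le_mul_right h4 hE0
  have hgrow := growF (fun j => avn F' Γ (af ((pmap F)^[m * j] x)) / Γ.card) (κ := κ) (β := β)
    (q := q) (c₀ := c₀) (A := A) (B := |cB|) (C := cA / E₁ + cs) hq hκ hβκ
    (by
      intro j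
      have h1 := recAv hFIX hP hF F' hc₀ hΓ hKF hKT hKP
        (y := (pmap F)^[m * j] x) (fun i => orbit_memL F hKF x hxL _ i) (hzer _)
        (havb _).2 (havT j)
      rw [← Function.iterate_add_apply, ← Function.iterate_add_apply] at h1
      have h2 : m + m * j = m * (j + 1) := by ring
      have h3 : m + m + m * j = m * (j + 2) := by ring
      rw [h2, h3] at h1
      rw [← sub_nonneg] at h1 ⊢
      have h5 : avn F' Γ (af ((pmap F)^[m * (j + 2)] x)) / Γ.card +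
          β * (avn F' Γ (af ((pmap F)^[m * j] x)) / Γ.card) + c₀ -
          κ * (avn F' Γ (af ((pmap F)^[m * (j + 1)] x)) / Γ.card) =
          (avn F' Γ (af ((pmap F)^[m * (j + 2)] x)) +
            β * avn F' Γ (af ((pmap F)^[m * j] x)) + Γ.card * c₀ -
            κ * avn F' Γ (af ((pmap F)^[m * (j + 1)] x))) / Γ.card := by
        field_simp
      rw [h5]
      exact div_nonneg h1 hΓ0.le)
    (by
      simp only [Nat.mul_zero, Function.iterate_zero, id]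
      exact hfirst0)
    (by
      simp only [Nat.mul_one]
      rw [← hu]
      exact hfirst1)
    (by
      rw [← hA₀]
      exact hAA.1)
  constructor
  · have h1 := (hgrow 0).1
    simp only [Nat.mul_zero, Function.iterate_zero, id] at h1
    have h2 : 1 ≤ avn F' Γ (af x) / Γ.card := by
      have := abs_nonneg c₀
      linarith
    rwa [le_div_iff₀ hΓ0, one_mul] at h2
  · intro n
    have h1 := (hgrow n).2
    rw [le_div_iff₀ hΓ0, mul_assoc, div_mul_cancel₀ _ hΓ0.ne'] at h1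
    exact h1

end Pool.Agent.H8.EDA
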