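import Pool.Agent.H8.EDA.Fin
import Pool.Agent.H8.EDA.Orf
import Pool.Agent.H8.EDA.Alp
import Pool.Agent.H13.EDM.All
import Pool.Agent.H8.TX.All
import Pool.Agent.H18.TXB.All
import Pool.Agent.H18.BKH.All
import Pool.Agent.H42.EDB.CHN
import Pool.Agent.H42.EDB.HTN
import Pool.Agent.H4.EDA.VSF
import Pool.Agent.H73.EDA.VDF
import Pool.Agent.H54.EDA.HVR
import Pool.Agent.H54.EDA.EDG
import Pool.Agent.H89.ED.JPR
import Pool.Agent.H2.ED.FLD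
import Pool.Agent.H65.ED.FLV
import Pool.Agent.H45.ED.VDM
import Pool.Agent.H73.ED.INM
import Pool.Agent.H68.ED.LRG
import Pool.Agent.H68.ED.DRV
import Pool.Agent.H43.ED.JCB
import Pool.Agent.H43.ED.CHN
import Pool.Agent.H46.ED.TRV
import Pool.Agent.H20.ED.KSP
import Pool.Agent.H7.ED.RES
import Pool.Agent.H5.ED.XCH
import Pool.Agent.H17.ED.FDM

/-!
# The theorem for `λ_1 > λ_3`: the facts together
-/

set_option autoImplicit false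

namespace Pool.Agent.H8.EDA.Al

theorem nuf : T_NUF := Pool.Agent.H13.EDM.Al.nuf

theorem vdf : T_VDF := Pool.Agent.H73.EDA.pf_VDF Pool.Agent.H73.ED.pf_INM Pool.Agent.H68.ED.pf_LRG
  Pool.Agent.H68.ED.pf_DRV Pool.Agent.H43.ED.pf_JCB Pool.Agent.H46.ED.pf_TRV
  Pool.Agent.H20.ED.pf_KSP Pool.Agent.H43.ED.pf_CHN Pool.Agent.H7.ED.pf_RES
  Pool.Agent.H5.ED.pf_XCH Pool.Agent.H17.ED.pf_FDM

theorem vsf : T_VSF := Pool.Agent.H4.EDA.pf_VSF Pool.Agent.H65.ED.pf_FLV Pool.Agent.H45.ED.pf_VDM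
  vdf Pool.Agent.H42.EDB.pf_CHN Pool.Agent.H54.EDA.pf_EDG Pool.Agent.H54.EDA.pf_HVR

theorem orf (hEQF : T_EQF) : T_ORF := pf_ORF hEQF Pool.Agent.H8.TX.Al.col
  Pool.Agent.H42.EDB.pf_HTN Pool.Agent.H18.TXB.Al.lfg Pool.Agent.H18.BKH.Al.fix
  Pool.Agent.H18.BKH.Al.eqd Pool.Agent.H18.BKH.Al.hln

theorem jpr : Pool.Agent.H2.ED.T_JPR := Pool.Agent.H89.ED.pf_JPR Pool.Agent.H2.ED.pf_FLD

theorem alp_of (hEQF : T_EQF) : T_ALP := pf_ALP jpr Pool.Agent.H18.TXB.Al.cnv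
  Pool.Agent.H18.BKH.Al.gal nuf (orf hEQF) vsf

end Pool.Agent.H8.EDA.Al
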