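import Pool.Agent.H8.EDA.All
import Pool.Agent.H18.EDB.Bec
import Pool.Agent.H18.EDB.Orc
import Pool.Agent.H1.EDB.EQN
import Pool.Agent.H52.EDB.TRE
import Pool.Agent.H16.EDB.TWR
import Pool.Agent.H2.EDV.All

/-!
# The theorem for `λ_(n-1) > max(e, λ_(n-3))`: the facts together
-/

set_option autoImplicit false

namespace Pool.Agent.H8.EDA.Al

theorem eqn : Pool.Agent.H18.EDB.T_EQN := Pool.Agent.H1.EDB.pf_EQN Pool.Agent.H42.EDB.pf_CHN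

theorem orc : Pool.Agent.H18.EDB.T_ORC := Pool.Agent.H18.EDB.pf_ORC Pool.Agent.H18.BKH.Al.fix
  Pool.Agent.H18.BKH.Al.eqd Pool.Agent.H18.BKH.Al.hln Pool.Agent.H18.TXB.Al.lfg
  Pool.Agent.H42.EDB.pf_HTN eqn Pool.Agent.H18.TXB.Al.cob

theorem tre : Pool.Agent.H18.EDB.T_TRE := Pool.Agent.H52.EDB.pf_TRE Pool.Agent.H52.EDB.pf_FBV

theorem twr : Pool.Agent.H18.EDB.T_TWR := Pool.Agent.H16.EDB.pf_TWR Pool.Agent.H18.BKH.Al.fix

/-- **the theorem for hypersurfaces, `λ_(n-1) > max(e, λ_(n-3))`, `n ≥ 4`** -/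
theorem bet : Pool.Agent.H18.EDB.T_BET := Pool.Agent.H18.EDB.pf_BEC jpr
  Pool.Agent.H18.TXB.Al.cnv Pool.Agent.H18.BKH.Al.gal Pool.Agent.H13.EDM.Al.nub orc
  Pool.Agent.H2.EDV.Al.vsb tre twr

end Pool.Agent.H8.EDA.Al
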