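import Pool.Agent.H13.TX.DGC

/-!
# The degree of a field extension and the number of points of a fibre
-/

set_option autoImplicit false

open MvPolynomial
open Pool.Agent.H18.HIT Pool.Agent.H18.HX Pool.Agent.H18.VZ
open Pool.Agent.H8.TD (lc dg)
open Pool.Agent.H13.TX (scale interp card_le)

namespace Pool.Agent.H8.EDA

/-- homogenization -/
theorem van_gen {L : ℕ} {k K : Type} [Field k] [Field K] [Algebra k K] (I : Ideal (Po L k))
    (χ ξ : Fin L → K) (s₀ : Po L k) (hs₀ : s₀.IsHomogeneous 1) (u : K) (hu : aeval χ s₀ = u)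
    (hχ : χ = fun i => u * ξ i)
    (hI : ∀ (s : ℕ) (q : Po L k), q.IsHomogeneous s → aeval χ q = 0 → q ∈ I) (x : Fin L → k)
    (hx : Zer I x) (hx1 : eval x s₀ = 1) (q : Po L k) (hq : aeval ξ q = 0) : eval x q = 0 := by
  classical
  set N := q.totalDegree with hN
  set Q : Po L k := ∑ t ∈ Finset.range (N + 1), homogeneousComponent t q * s₀ ^ (N - t) with hQ
  have hQh : Q.IsHomogeneous N := by
    refine IsHomogeneous.sum _ _ _ fun t ht => ?_
    have h1 := (homogeneousComponent_isHomogeneous t q).mul (hs₀.pow (N - t))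
    have h2 : t + 1 * (N - t) = N := by
      have := Finset.mem_range.1 ht
      omega
    rwa [h2] at h1
  have h1 : aeval χ Q = 0 := by
    rw [hQ, map_sum]
    have h2 : ∀ t ∈ Finset.range (N + 1), aeval χ (homogeneousComponent t q * s₀ ^ (N - t)) =
        u ^ N * aeval ξ (homogeneousComponent t q) := by
      intro t ht
      rw [map_mul, map_pow, hu]
      conv_lhs => rw [hχ]
      rw [scale _ t (homogeneousComponent_isHomogeneous t q)]
      have : u ^ N = u ^ t * u ^ (N - t) := by
        rw [← pow_add]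
        congr 1
        have := Finset.mem_range.1 ht
        omega
      rw [this]
      ring
    rw [Finset.sum_congr rfl h2, ← Finset.mul_sum, ← map_sum, hN, sum_homogeneousComponent, hq,
      mul_zero]
  have h3 : eval x Q = 0 := hx Q (hI N Q hQh h1)
  have h4 : eval x Q = eval x q := by
    rw [hQ, map_sum]
    conv_rhs => rw [← sum_homogeneousComponent q, map_sum, ← hN]
    refine Finset.sum_congr rfl fun t _ => ?_
    rw [map_mul, map_pow, hx1, one_pow, mul_one]
  rw [← h4, h3]

/-- specialization -/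
theorem spec {L n : ℕ} {k K : Type} [Field k] [Field K] [Algebra k K] (ξ : Fin L → K)
    (x : Fin L → k) (hker : ∀ q : Po L k, aeval ξ q = 0 → eval x q = 0) (A B : Fin n → Po L k)
    (a : Fin n → K) (ha : ∀ i, a i = aeval ξ (A i) / aeval ξ (B i))
    (t : Fin n → k) (hB : ∀ i, eval x (B i) ≠ 0) (hA : ∀ i, eval x (A i) = t i * eval x (B i))
    (H : MvPolynomial (Fin n ⊕ Fin L) k) (hH : aeval (Sum.elim a ξ) H = 0) :
    eval (Sum.elim t x) H = 0 := by
  classical
  set M : Submonoid (Po L k) := (nonZeroDivisors k).comap (eval x) with hM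
  have hMm : ∀ q : Po L k, q ∈ M ↔ eval x q ≠ 0 := fun q => by
    rw [hM, Submonoid.mem_comap, mem_nonZeroDivisors_iff_ne_zero]
  have hMξ : ∀ q : Po L k, q ∈ M → aeval ξ q ≠ 0 := fun q hq h0 => (hMm q).1 hq (hker q h0)
  have e1 : ∀ q : Po L k, (aeval x : Po L k →ₐ[k] k) q = eval x q := fun q => by
    rw [← coe_aeval_eq_eval]; rfl
  have hφ : ∀ y : M, IsUnit ((aeval ξ : Po L k →ₐ[k] K) y) := fun y =>
    isUnit_iff_ne_zero.2 (hMξ y y.2)
  have hψ : ∀ y : M, IsUnit ((aeval x : Po L k →ₐ[k] k) y) := fun y =>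
    isUnit_iff_ne_zero.2 (by rw [e1]; exact (hMm y).1 y.2)
  let φ : Localization M →ₐ[k] K := IsLocalization.liftAlgHom (M := M) hφ
  let ψ : Localization M →ₐ[k] k := IsLocalization.liftAlgHom (M := M) hψ
  have fφ : ∀ q : Po L k, φ (algebraMap _ _ q) = aeval ξ q := fun q =>
    IsLocalization.lift_eq (M := M) (S := Localization M) _ q
  have fψ : ∀ q : Po L k, ψ (algebraMap _ _ q) = eval x q := fun q => by
    rw [← e1]
    exact IsLocalization.lift_eq (M := M) (S := Localization M) _ q
  have hz : ∀ z, φ z = 0 → ψ z = 0 := by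
    intro z hz
    obtain ⟨p, q, rfl⟩ := IsLocalization.exists_mk'_eq M z
    have h1 := IsLocalization.mk'_spec (Localization M) p q
    have h2 := congrArg φ h1
    rw [map_mul, hz, zero_mul, fφ] at h2
    have h3 := congrArg ψ h1
    rw [map_mul, fψ, fψ, hker p h2.symm] at h3
    exact (mul_eq_zero.1 h3).resolve_right ((hMm _).1 q.2)
  let α : Fin n → Localization M := fun i => IsLocalization.mk' _ (A i) ⟨B i, (hMm _).2 (hB i)⟩
  have hα : ∀ i, α i * algebraMap _ _ (B i) = algebraMap _ _ (A i) := fun i =>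
    IsLocalization.mk'_spec (Localization M) (A i) ⟨B i, (hMm _).2 (hB i)⟩
  have hαφ : ∀ i, φ (α i) = a i := by
    intro i
    have h1 := congrArg φ (hα i)
    rw [map_mul, fφ, fφ] at h1
    rw [ha, eq_div_iff (hMξ _ ((hMm _).2 (hB i))), h1]
  have hαψ : ∀ i, ψ (α i) = t i := by
    intro i
    have h1 := congrArg ψ (hα i)
    rw [map_mul, fψ, fψ, hA] at h1
    exact mul_right_cancel₀ (hB i) h1
  let G : Fin n ⊕ Fin L → Localization M := Sum.elim α fun j => algebraMap (Po L k) _ (X j)
  have g1 : φ ∘ G = Sum.elim a ξ := by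
    funext i
    rcases i with i | i
    · exact hαφ i
    · show φ (algebraMap (Po L k) _ (X i)) = ξ i
      rw [fφ, aeval_X]
  have g2 : ψ ∘ G = Sum.elim t x := by
    funext i
    rcases i with i | i
    · exact hαψ i
    · show ψ (algebraMap (Po L k) _ (X i)) = x i
      rw [fψ, eval_X]
  have h1 : φ (aeval G H) = aeval (φ ∘ G) H := by
    rw [← AlgHom.comp_apply, comp_aeval]
    rfl
  have h2 : ψ (aeval G H) = aeval (ψ ∘ G) H := by
    rw [← AlgHom.comp_apply, comp_aeval]
    rfl
  rw [g1, hH] at h1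
  rw [hz _ h1, g2] at h2
  have e2 : (aeval (Sum.elim t x) : MvPolynomial (Fin n ⊕ Fin L) k →ₐ[k] k) H =
      eval (Sum.elim t x) H := by
    rw [← coe_aeval_eq_eval]; rfl
  rw [← e2, ← h2]

/-- common denominators -/
theorem denom {n : ℕ} {k K : Type} [Field k] [Field K] [Algebra k K] (a : Fin n → K) {ι : Type}
    [Fintype ι] [DecidableEq ι] (f : ι → K)
    (hf : ∀ i, f i ∈ IntermediateField.adjoin k (Set.range a)) :
    ∃ (g : MvPolynomial (Fin n) k) (h : ι → MvPolynomial (Fin n) k), g ≠ 0 ∧
      ∀ i, aeval a g * f i = aeval a (h i) := by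
  have h1 : ∀ i, ∃ r s : MvPolynomial (Fin n) k, aeval a s ≠ 0 ∧ f i = aeval a r / aeval a s := by
    intro i
    obtain ⟨r, s, e⟩ := (IntermediateField.mem_adjoin_range_iff k a (f i)).1 (hf i)
    by_cases h0 : aeval a s = 0
    · refine ⟨0, 1, by simp, ?_⟩
      rw [e, h0]
      simp
    · exact ⟨r, s, h0, e⟩
  choose r s hs hr using h1
  have h2 : aeval a (∏ i, s i) ≠ 0 := by
    rw [map_prod]
    exact Finset.prod_ne_zero_iff.2 fun i _ => hs i
  refine ⟨∏ i, s i, fun i => r i * ∏ j ∈ Finset.univ.erase i, s j, ?_, ?_⟩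
  · intro h0
    rw [h0, map_zero] at h2
    exact h2 rfl
  · intro i
    rw [← Finset.mul_prod_erase Finset.univ s (Finset.mem_univ i), map_mul, map_mul, hr i]
    have := hs i
    field_simp

/-- the number of points of the general fibre is at most the degree of the extension -/
theorem dgn {L n : ℕ} (D : ℕ) {k K : Type} [Field k] [Infinite k] [CharZero k] [Field K]
    [Algebra k K] (I : Ideal (Po L k)) (χ : Fin L → K) (s₀ : Po L k) (A B : Fin n → Po L k)
    (m : Fin n → ℕ) (c : Po n k) (htr : Algebra.trdeg k K = n) (hs₀ : s₀.IsHomogeneous 1)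
    (hA : ∀ i, (A i).IsHomogeneous (m i)) (hB : ∀ i, (B i).IsHomogeneous (m i))
    (hu : aeval χ s₀ ≠ 0) (_hBχ : ∀ i, aeval χ (B i) ≠ 0)
    (htop : IntermediateField.adjoin k (Set.range fun i => χ i / aeval χ s₀) = ⊤)
    (hI : ∀ (s : ℕ) (q : Po L k), q.IsHomogeneous s → aeval χ q = 0 → q ∈ I) (hc : c ≠ 0)
    (hpts : ∀ t : Fin n → k, eval t c ≠ 0 → ∃ S : Finset (Fin L → k), D ≤ S.card ∧ ∀ x ∈ S,
      Zer I x ∧ eval x s₀ = 1 ∧ ∀ i, eval x (B i) ≠ 0 ∧ eval x (A i) = t i * eval x (B i)) :
    D ≤ dg k (Set.range fun i => aeval χ (A i) / aeval χ (B i)) := by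
  classical
  rcases Nat.eq_zero_or_pos D with rfl | hD
  · exact Nat.zero_le _
  set u := aeval χ s₀ with hudef
  set ξ : Fin L → K := fun i => χ i / u with hξ
  have hχ : χ = fun i => u * ξ i := by
    funext i
    rw [hξ]
    field_simp
  have sc : ∀ (s : ℕ) (q : Po L k), q.IsHomogeneous s → aeval χ q = u ^ s * aeval ξ q := by
    intro s q hq
    conv_lhs => rw [hχ]
    exact scale q s hq u ξ
  set a : Fin n → K := fun i => aeval χ (A i) / aeval χ (B i) with hadef
  have ha : ∀ i, a i = aeval ξ (A i) / aeval ξ (B i) := by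
    intro i
    rw [hadef]
    show aeval χ (A i) / aeval χ (B i) = _
    rw [sc _ _ (hA i), sc _ _ (hB i), mul_div_mul_left _ _ (pow_ne_zero _ hu)]
  -- specialization
  have sp : ∀ t : Fin n → k, eval t c ≠ 0 → ∃ S : Finset (Fin L → k), D ≤ S.card ∧ ∀ x ∈ S,
      ∀ H : MvPolynomial (Fin n ⊕ Fin L) k, aeval (Sum.elim a ξ) H = 0 →
        eval (Sum.elim t x) H = 0 := by
    intro t ht
    obtain ⟨S, hS, hx⟩ := hpts t ht
    refine ⟨S, hS, fun x hxS H hH => ?_⟩
    obtain ⟨hz, h1, h2⟩ := hx x hxS
    exact spec ξ x (van_gen I χ ξ s₀ hs₀ u hudef.symm hχ hI x hz h1) A B a ha t (fun i => (h2 i).1)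
      (fun i => (h2 i).2) H hH
  have nz : ∀ g : MvPolynomial (Fin n) k, g ≠ 0 → ∃ t : Fin n → k, eval t c ≠ 0 ∧
      eval t g ≠ 0 := by
    intro g hg
    by_contra h
    push Not at h
    have h1 : c * g = 0 := by
      apply MvPolynomial.funext
      intro t
      rw [map_mul, map_zero]
      by_cases h2 : eval t c = 0
      · rw [h2, zero_mul]
      · rw [h t h2, mul_zero]
    rcases mul_eq_zero.1 h1 with h2 | h2
    · exact hc h2
    · exact hg h2
  have evl : ∀ (t : Fin n → k) (x : Fin L → k) (g : MvPolynomial (Fin n) k),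
      eval (Sum.elim t x) (rename Sum.inl g) = eval t g := by
    intro t x g
    rw [eval_rename, Sum.elim_comp_inl]
  have evr : ∀ (t : Fin n → k) (x : Fin L → k) (g : Po L k),
      eval (Sum.elim t x) (rename Sum.inr g) = eval x g := by
    intro t x g
    rw [eval_rename, Sum.elim_comp_inr]
  have ael : ∀ g : MvPolynomial (Fin n) k, aeval (Sum.elim a ξ) (rename Sum.inl g) = aeval a g := by
    intro g
    rw [aeval_rename, Sum.elim_comp_inl]
  have aer : ∀ g : Po L k, aeval (Sum.elim a ξ) (rename Sum.inr g) = aeval ξ g := by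
    intro g
    rw [aeval_rename, Sum.elim_comp_inr]
  -- algebraic independence
  have hai : AlgebraicIndependent k a := by
    rw [algebraicIndependent_iff]
    intro g hg
    by_contra hg0
    obtain ⟨t, ht1, ht2⟩ := nz g hg0
    obtain ⟨S, hS, hx⟩ := sp t ht1
    obtain ⟨x, hxS⟩ : S.Nonempty := Finset.card_pos.1 (by omega)
    have := hx x hxS (rename Sum.inl g) (by rw [ael, hg])
    rw [evl] at this
    exact ht2 this
  have htb : IsTranscendenceBasis k a := by
    refine hai.isTranscendenceBasis_of_trdeg_le_of_finite ?_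
    rw [htr]
    simp
  set F := IntermediateField.adjoin k (Set.range a) with hF
  have halg : Algebra.IsAlgebraic F K := htb.isAlgebraic_field
  have htop2 : IntermediateField.adjoin F (Set.range ξ) = ⊤ := by
    rw [eq_top_iff]
    intro z _
    have h1 : IntermediateField.adjoin k (Set.range ξ) ≤
        (IntermediateField.adjoin F (Set.range ξ)).restrictScalars k := by
      rw [IntermediateField.adjoin_le_iff]
      intro y hy
      exact IntermediateField.subset_adjoin F _ hy
    have h2 : z ∈ IntermediateField.adjoin k (Set.range ξ) := by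
      rw [htop]
      trivial
    exact h1 h2
  have hfd : FiniteDimensional F K := by
    have h1 : FiniteDimensional F (IntermediateField.adjoin F (Set.range ξ)) :=
      IntermediateField.finiteDimensional_adjoin fun x _ => Algebra.IsIntegral.isIntegral x
    rw [htop2] at h1
    exact Module.Finite.equiv (IntermediateField.topEquiv (F := F) (E := K)).toLinearEquiv
  have hsp : Submodule.span F (Set.range fun μ : Fin L →₀ ℕ => aeval ξ (monomial μ (1 : k))) =
      ⊤ := by
    rw [eq_top_iff]
    intro z _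
    have h1 : z ∈ Algebra.adjoin F (Set.range ξ) := by
      rw [← IntermediateField.adjoin_toSubalgebra, htop2]
      trivial
    rw [Algebra.adjoin_range_eq_range_aeval] at h1
    obtain ⟨P, rfl⟩ := h1
    show aeval ξ P ∈ _
    rw [aeval_def, eval₂_eq]
    refine Submodule.sum_mem _ fun μ _ => ?_
    have h2 : aeval ξ (monomial μ (1 : k)) = ∏ i ∈ μ.support, ξ i ^ μ i := by
      rw [aeval_monomial, map_one, one_mul]
      rfl
    rw [← h2, ← Algebra.smul_def]
    exact Submodule.smul_mem _ _ (Submodule.subset_span ⟨μ, rfl⟩)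
  obtain ⟨κ, ν, -, hν2, hν3⟩ := exists_linearIndependent' F
    (fun μ : Fin L →₀ ℕ => aeval ξ (monomial μ (1 : k)))
  let b : Module.Basis κ F K := Module.Basis.mk hν3 (by rw [hν2, hsp])
  have : Finite κ := Module.Finite.finite_basis b
  have : Fintype κ := Fintype.ofFinite κ
  have hb : ∀ l, b l = aeval ξ (monomial (ν l) (1 : k)) := fun l => by
    rw [Module.Basis.mk_apply]
    rfl
  -- the polynomials whose values are expanded
  let Z : Option (Fin L × κ) → Po L k := fun o => o.elim 1 fun q => X q.1 * monomial (ν q.2) 1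
  obtain ⟨g, h, hg0, hgh⟩ := denom a (fun q : Option (Fin L × κ) × κ =>
    ((b.repr (aeval ξ (Z q.1)) q.2 : F) : K)) fun q => (b.repr (aeval ξ (Z q.1)) q.2).2
  obtain ⟨t, ht1, ht2⟩ := nz g hg0
  obtain ⟨S, hS, hx⟩ := sp t ht1
  have rel : ∀ (o : Option (Fin L × κ)) (x : S), eval t g * eval x.1 (Z o) =
      ∑ l, eval t (h (o, l)) * eval x.1 (monomial (ν l) (1 : k)) := by
    intro o x
    have h1 := hx x.1 x.2 (rename Sum.inl g * rename Sum.inr (Z o) -
      ∑ l, rename Sum.inl (h (o, l)) * rename Sum.inr (monomial (ν l) (1 : k))) ?_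
    · rw [map_sub, map_mul, map_sum, evl, evr, sub_eq_zero] at h1
      rw [h1]
      refine Finset.sum_congr rfl fun l _ => ?_
      rw [map_mul, evl, evr]
    · rw [map_sub, map_mul, map_sum, ael, aer, sub_eq_zero]
      have h2 := b.sum_repr (aeval ξ (Z o))
      conv_lhs => rw [← h2]
      rw [Finset.mul_sum]
      refine Finset.sum_congr rfl fun l _ => ?_
      rw [map_mul, ael, aer, ← hgh (o, l), hb l, Algebra.smul_def]
      show _ * (_ * _) = _ * _ * _
      rw [mul_assoc]
      rfl
  have hcard : S.card ≤ Fintype.card κ := by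
    have span : ∀ o : Option (Fin L × κ), (fun x : S => eval x.1 (Z o)) ∈
        Submodule.span k (Set.range fun (l : κ) (x : S) => eval x.1 (monomial (ν l) (1 : k))) := by
      intro o
      have h1 : (fun x : S => eval x.1 (Z o)) = ∑ l, ((eval t g)⁻¹ * eval t (h (o, l))) •
          fun x : S => eval x.1 (monomial (ν l) (1 : k)) := by
        funext x
        rw [Finset.sum_apply]
        have h2 := rel o x
        calc eval x.1 (Z o) = (eval t g)⁻¹ * (eval t g * eval x.1 (Z o)) := by
              field_simp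
          _ = _ := by
              rw [h2, Finset.mul_sum]
              refine Finset.sum_congr rfl fun l _ => ?_
              show _ = ((eval t g)⁻¹ * eval t (h (o, l))) * _
              ring
      rw [h1]
      exact Submodule.sum_mem _ fun l _ => Submodule.smul_mem _ _ (Submodule.subset_span ⟨l, rfl⟩)
    refine card_le S (fun (l : κ) (x : S) => eval x.1 (monomial (ν l) (1 : k))) ?_ ?_
    · have h9 := span none
      have h8 : (fun x : S => eval x.1 (Z none)) = fun _ : S => (1 : k) := by
        funext x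
        show eval x.1 (1 : Po L k) = 1
        rw [map_one]
      rw [h8] at h9
      exact h9
    · intro i l
      have h9 := span (some (i, l))
      have h8 : (fun x : S => eval x.1 (Z (some (i, l)))) =
          fun x : S => x.1 i * eval x.1 (monomial (ν l) (1 : k)) := by
        funext x
        show eval x.1 (X i * monomial (ν l) 1) = _
        rw [map_mul, eval_X]
      rw [h8] at h9
      exact h9
  have hset : (Set.range fun i => aeval χ (A i) / aeval χ (B i)) = Set.range a := rfl
  rw [hset]
  show D ≤ Module.finrank F K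
  rw [Module.finrank_eq_card_basis b]
  omega

end Pool.Agent.H8.EDA
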