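import Pool.Agent.H8.EDA.Fin
import Pool.Agent.H8.TX.All

/-!
# The degree of the extension of the function fields, in every dimension
-/

set_option autoImplicit false

open MvPolynomial
open Pool.Agent.H12.ZD (pmap)
open Pool.Agent.H18.HIT Pool.Agent.H18.HX Pool.Agent.H18.VZ
open Pool.Agent.H8.ZA (HFam Const NA)
open Pool.Agent.H8.TD (lc dg Wsp Cop dh)
open Pool.Agent.H2.ED

namespace Pool.Agent.H8.EDA

theorem dgy_scale {ι k A : Type} [Field k] [CommRing A] [Algebra k A] (P : MvPolynomial ι k)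
    (e : ℕ) (hP : P.IsHomogeneous e) (c : A) (x : ι → A) :
    aeval (fun i => c * x i) P = c ^ e * aeval x P := by
  rw [aeval_def, aeval_def, eval₂_eq, eval₂_eq, Finset.mul_sum]
  refine Finset.sum_congr rfl fun m hm => ?_
  have h1 : ∑ i ∈ m.support, m i = e := by
    have h := hP (mem_support_iff.1 hm)
    rw [Finsupp.weight_apply, Finsupp.sum] at h
    simpa using h
  rw [← h1, ← Finset.prod_pow_eq_pow_sum]
  have h2 : ∏ i ∈ m.support, (c * x i) ^ m i = (∏ i ∈ m.support, c ^ m i) *
      ∏ i ∈ m.support, x i ^ m i := by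
    rw [← Finset.prod_mul_distrib]
    exact Finset.prod_congr rfl fun i _ => mul_pow _ _ _
  rw [h2]
  ring

section

variable {ν : ℕ} {k K : Type} [Field k] [Field K] [Algebra k K]

/-- the homogeneous coordinates with a parameter -/
noncomputable def jp {ν : ℕ} (k : Type) {K : Type} [Field k] [Field K] [Algebra k K] (ξ : Fin (ν + 2) → K) :
    Po (ν + 2) k →ₐ[k] Polynomial K := aeval fun i => Polynomial.X * Polynomial.C (ξ i)

theorem jp_hom (ξ : Fin (ν + 2) → K) (q : Po (ν + 2) k) (t : ℕ) (hq : q.IsHomogeneous t) :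
    jp k ξ q = Polynomial.X ^ t * Polynomial.C (aeval ξ q) := by
  unfold jp
  rw [dgy_scale q t hq]
  congr 1
  have h1 : (aeval (fun i => Polynomial.C (ξ i)) : Po (ν + 2) k →ₐ[k] Polynomial K) =
      (Polynomial.CAlgHom (R := k) (A := K)).comp (aeval ξ) := by
    apply MvPolynomial.algHom_ext
    intro i
    rw [aeval_X, AlgHom.comp_apply, aeval_X]
    rfl
  rw [h1]
  rfl

theorem jp_coeff (ξ : Fin (ν + 2) → K) (q : Po (ν + 2) k) (t : ℕ) (ht : t ≤ q.totalDegree) :
    (jp k ξ q).coeff t = aeval ξ (homogeneousComponent t q) := by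
  conv_lhs => rw [← sum_homogeneousComponent q]
  rw [map_sum, Polynomial.finsetSum_coeff, Finset.sum_eq_single t]
  · rw [jp_hom ξ _ t (homogeneousComponent_isHomogeneous t q), Polynomial.coeff_X_pow_mul',
      if_pos le_rfl, Nat.sub_self, Polynomial.coeff_C_zero]
  · intro s _ hs
    rw [jp_hom ξ _ s (homogeneousComponent_isHomogeneous s q), Polynomial.coeff_mul_C,
      Polynomial.coeff_X_pow, if_neg (Ne.symm hs), zero_mul]
  · intro h
    exact absurd (Finset.mem_range.2 (Nat.lt_succ_of_le ht)) h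

theorem jp_zero (P : Po (ν + 2) k) (r : ℕ) (hP : P.IsHomogeneous r) (ξ : Fin (ν + 2) → K) (h : Gp P ξ)
    (q : Po (ν + 2) k) : jp k ξ q = 0 ↔ P ∣ q := by
  constructor
  · intro h0
    rw [← sum_homogeneousComponent q]
    refine Finset.dvd_sum fun t ht => ?_
    rw [← h.iff t _ (homogeneousComponent_isHomogeneous t q),
      ← jp_coeff ξ q t (Nat.lt_succ_iff.1 (Finset.mem_range.1 ht)), h0, Polynomial.coeff_zero]
  · rintro ⟨u, rfl⟩
    rw [map_mul, jp_hom ξ P r hP, (h.iff r P hP).2 dvd_rfl, Polynomial.C_0, mul_zero, zero_mul]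

/-- the field of rational functions in one variable over `K` -/
abbrev LL (K : Type) [Field K] : Type := FractionRing (Polynomial K)

/-- the coordinates in the field -/
noncomputable def jL {ν : ℕ} (k : Type) {K : Type} [Field k] [Field K] [Algebra k K] (ξ : Fin (ν + 2) → K) :
    Po (ν + 2) k →ₐ[k] LL K := (IsScalarTower.toAlgHom k (Polynomial K) (LL K)).comp (jp k ξ)

theorem jL_apply (ξ : Fin (ν + 2) → K) (q : Po (ν + 2) k) :
    jL k ξ q = algebraMap (Polynomial K) (LL K) (jp k ξ q) := rfl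

theorem jL_zero (P : Po (ν + 2) k) (r : ℕ) (hP : P.IsHomogeneous r) (ξ : Fin (ν + 2) → K) (h : Gp P ξ)
    (q : Po (ν + 2) k) : jL k ξ q = 0 ↔ P ∣ q := by
  rw [jL_apply, map_eq_zero_iff _ (IsFractionRing.injective (Polynomial K) (LL K)),
    jp_zero P r hP ξ h]

/-- the substitution `X ↦ w X ^ d` and `τ` on the coefficients -/
noncomputable def ps (τ : K →ₐ[k] K) (w : K) (d : ℕ) : Polynomial K →ₐ[k] Polynomial K where
  toRingHom := Polynomial.eval₂RingHom (Polynomial.C.comp (τ : K →+* K))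
    (Polynomial.C w * Polynomial.X ^ d)
  commutes' := by
    intro c
    show Polynomial.eval₂ _ _ (algebraMap k (Polynomial K) c) = _
    rw [Polynomial.algebraMap_apply, Polynomial.eval₂_C]
    show Polynomial.C (τ (algebraMap k K c)) = _
    rw [τ.commutes]

theorem ps_C (τ : K →ₐ[k] K) (w : K) (d : ℕ) (x : K) :
    ps τ w d (Polynomial.C x) = Polynomial.C (τ x) := by
  show Polynomial.eval₂ _ _ (Polynomial.C x) = _
  rw [Polynomial.eval₂_C]
  rfl

theorem ps_X (τ : K →ₐ[k] K) (w : K) (d : ℕ) :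
    ps τ w d Polynomial.X = Polynomial.C w * Polynomial.X ^ d := by
  show Polynomial.eval₂ _ _ Polynomial.X = _
  rw [Polynomial.eval₂_X]

theorem ps_inj (τ : K →ₐ[k] K) (w : K) (d : ℕ) (hd : 1 ≤ d) (hw : w ≠ 0) :
    Function.Injective (ps τ w d) := by
  rw [injective_iff_map_eq_zero]
  intro f hf
  have h1 : ps τ w d f = (f.map (τ : K →+* K)).comp (Polynomial.C w * Polynomial.X ^ d) := by
    show Polynomial.eval₂ _ _ f = _
    rw [Polynomial.comp, Polynomial.eval₂_map]
  rw [h1, Polynomial.comp_eq_zero_iff] at hf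
  rcases hf with hf | ⟨-, hf⟩
  · exact (Polynomial.map_eq_zero_iff τ.injective).1 hf
  · exfalso
    have h2 : (Polynomial.C w * Polynomial.X ^ d : Polynomial K).coeff 0 = 0 := by
      rw [Polynomial.coeff_C_mul, Polynomial.coeff_X_pow, if_neg (by omega), mul_zero]
    rw [h2, Polynomial.C_0] at hf
    exact mul_ne_zero (Polynomial.C_ne_zero.2 hw) (pow_ne_zero _ Polynomial.X_ne_zero) hf

end

/-- the degree of the extension of the function fields -/
theorem dgy (hSL1 : Pool.Agent.H8.TD.T_SL1) {ν : ℕ} (k K : Type) [Field k] [CharZero k] [Field K]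
    [Algebra k K] (P θ Δ : Po (ν + 2) k) (F : Tup (ν + 2) k) (r d E : ℕ) (ξ : Fin (ν + 2) → K)
    (τ : K →ₐ[k] K) (hP : Hyp P r) (hd : 1 ≤ d) (hF : ∀ i, (F i).IsHomogeneous d)
    (hS : Slf (Ideal.span {P}) F) (hB : Bas P F E θ Δ) (hFd : Fd P F ξ τ) :
    FiniteDimensional τ.fieldRange K ∧ d * Module.finrank τ.fieldRange K ≤ E := by
  classical
  have hg : Gp P ξ := hFd.gp
  -- the denominator
  obtain ⟨w, hwd⟩ : ∃ w : K, w = aeval ξ (F 1) := ⟨_, rfl⟩
  have hw : w ≠ 0 := by
    intro h0
    have h1 : P ∣ F 1 := (hg.iff d (F 1) (hF 1)).1 (by rw [← hwd, h0])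
    have h2 : (X 1 : Po (ν + 2) k) ∈ Ideal.span {P} := hS.inj (X 1) (by
      rw [aeval_X, Ideal.mem_span_singleton]
      exact h1)
    rw [Ideal.mem_span_singleton, ← hg.iff 1 _ (isHomogeneous_X k 1), aeval_X, hg.one] at h2
    exact one_ne_zero h2
  have hinjL : Function.Injective ((IsScalarTower.toAlgHom k (Polynomial K) (LL K)).comp
      (ps τ w d)) := by
    rw [AlgHom.coe_comp]
    exact (IsFractionRing.injective (Polynomial K) (LL K)).comp (ps_inj τ w d hd hw)
  obtain ⟨τL, hτa⟩ : ∃ τL : LL K →ₐ[k] LL K, ∀ f : Polynomial K,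
      τL (algebraMap (Polynomial K) (LL K) f) = algebraMap (Polynomial K) (LL K) (ps τ w d f) :=
    ⟨IsFractionRing.liftAlgHom hinjL, fun f => IsFractionRing.lift_algebraMap hinjL f⟩
  have halg : ∀ x : K, algebraMap K (LL K) x =
      algebraMap (Polynomial K) (LL K) (Polynomial.C x) := fun x =>
    IsScalarTower.algebraMap_apply K (Polynomial K) (LL K) x
  obtain ⟨s, hsd⟩ : ∃ s : LL K, s = algebraMap (Polynomial K) (LL K) Polynomial.X := ⟨_, rfl⟩
  have hs0 : s ≠ 0 := by
    rw [hsd, Ne, map_eq_zero_iff _ (IsFractionRing.injective (Polynomial K) (LL K))]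
    exact Polynomial.X_ne_zero
  have hcomp : ∀ x : K, τL (algebraMap K (LL K) x) = algebraMap K (LL K) (τ x) := by
    intro x
    rw [halg, halg, hτa, ps_C]
  have hs : τL s = s ^ d * algebraMap K (LL K) w := by
    rw [hsd, hτa, ps_X, map_mul, map_pow, halg, mul_comm]
  have htr : Transcendental K s := by
    rw [hsd, transcendental_algebraMap_iff (IsFractionRing.injective (Polynomial K) (LL K))]
    exact Polynomial.transcendental_X K
  have hjX : ∀ i, jL k ξ (X i) = s * algebraMap K (LL K) (ξ i) := by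
    intro i
    rw [jL_apply, jp, aeval_X, map_mul, ← halg, hsd]
  have hgen : IntermediateField.adjoin K {s} = ⊤ := by
    rw [eq_top_iff]
    intro x _
    have hs1 : s ∈ IntermediateField.adjoin K {s} :=
      IntermediateField.subset_adjoin K {s} (Set.mem_singleton s)
    have hall : ∀ q : Polynomial K, algebraMap (Polynomial K) (LL K) q ∈
        IntermediateField.adjoin K {s} := by
      intro q
      induction q using Polynomial.induction_on with
      | C a => rw [← halg]; exact IntermediateField.algebraMap_mem _ _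
      | add p q hp hq => rw [map_add]; exact add_mem hp hq
      | monomial n a _ =>
        rw [map_mul, map_pow, ← halg, ← hsd]
        exact mul_mem (IntermediateField.algebraMap_mem _ _) (pow_mem hs1 _)
    obtain ⟨a, b, hb, rfl⟩ := IsFractionRing.div_surjective (A := Polynomial K) x
    exact div_mem (hall a) (hall b)
  -- compatibility with the map
  have hjF : ∀ q : Po (ν + 2) k, jL k ξ (aeval F q) = τL (jL k ξ q) := by
    have h1 : (jL k ξ).comp (aeval F : Po (ν + 2) k →ₐ[k] Po (ν + 2) k) = τL.comp (jL k ξ) := by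
      apply MvPolynomial.algHom_ext
      intro i
      rw [AlgHom.comp_apply, AlgHom.comp_apply, aeval_X, hjX, map_mul, hs, hcomp, jL_apply,
        jp_hom ξ (F i) d (hF i), map_mul, map_pow, ← halg, ← hsd, ← hFd.eq i, ← hwd, map_mul]
      ring
    intro q
    exact congrArg (fun f : Po (ν + 2) k →ₐ[k] LL K => f q) h1
  have hΔ : jL k ξ Δ ≠ 0 := by
    rw [Ne, jL_zero P r hP.hom ξ hg]
    exact hB.ne
  -- the span
  obtain ⟨V, hV⟩ : ∃ V : Submodule τL.fieldRange (LL K), V = Submodule.span τL.fieldRange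
      (Set.range fun i : Fin E => jL k ξ θ ^ (i : ℕ)) := ⟨_, rfl⟩
  have hjV : ∀ u : Po (ν + 2) k, jL k ξ u ∈ V := by
    intro u
    obtain ⟨M, c, hc⟩ := hB.gen u
    have h1 := (jL_zero P r hP.hom ξ hg _).2 hc
    rw [map_sub, sub_eq_zero, map_mul, map_pow, hjF, map_sum] at h1
    have h2 : τL (jL k ξ Δ) ≠ 0 := fun h0 => hΔ ((map_eq_zero τL).1 h0)
    have h3 : jL k ξ u = ∑ i : Fin E, τL (jL k ξ (c i) / jL k ξ Δ ^ M) * jL k ξ θ ^ (i : ℕ) := by
      have h4 : jL k ξ u = (∑ i : Fin E, jL k ξ (θ ^ (i : ℕ) * aeval F (c i))) /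
          τL (jL k ξ Δ) ^ M := by
        rw [← h1]
        field_simp
      rw [h4, Finset.sum_div]
      refine Finset.sum_congr rfl fun i _ => ?_
      rw [map_mul, map_pow, hjF, map_div₀, map_pow]
      ring
    rw [h3, hV]
    refine Submodule.sum_mem _ fun i _ => ?_
    have h5 : τL (jL k ξ (c i) / jL k ξ Δ ^ M) * jL k ξ θ ^ (i : ℕ) =
        (⟨τL (jL k ξ (c i) / jL k ξ Δ ^ M), ⟨_, rfl⟩⟩ : τL.fieldRange) •
          (jL k ξ θ ^ (i : ℕ)) := rfl
    rw [h5]
    exact Submodule.smul_mem _ _ (Submodule.subset_span ⟨i, rfl⟩)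
  obtain ⟨S, hSd⟩ : ∃ S : Subalgebra τL.fieldRange (LL K),
      S = Algebra.adjoin τL.fieldRange (Set.range (jL k ξ)) := ⟨_, rfl⟩
  have hSV : Subalgebra.toSubmodule S ≤ V := by
    rw [hSd, Algebra.adjoin_eq_span, Submodule.span_le]
    intro x hx
    have h1 : Submonoid.closure (Set.range (jL k ξ)) ≤
        MonoidHom.mrange ((jL k ξ : Po (ν + 2) k →+* LL K) : Po (ν + 2) k →* LL K) := by
      rw [Submonoid.closure_le]
      rintro _ ⟨u, rfl⟩
      exact ⟨u, rfl⟩
    obtain ⟨u, rfl⟩ := h1 hx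
    exact hjV u
  have hVfd : FiniteDimensional τL.fieldRange V := by
    rw [hV]
    exact FiniteDimensional.span_of_finite _ (Set.finite_range _)
  have hSfd : FiniteDimensional τL.fieldRange (Subalgebra.toSubmodule S) :=
    Submodule.finiteDimensional_of_le hSV
  have hSalg : ∀ x ∈ S, IsAlgebraic τL.fieldRange x := by
    intro x hx
    have h1 : Module.Finite τL.fieldRange S := hSfd
    have h2 : IsIntegral τL.fieldRange (⟨x, hx⟩ : S) := Algebra.IsIntegral.isIntegral _
    exact (h2.map S.val).isAlgebraic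
  have hSinv : ∀ x ∈ S, x⁻¹ ∈ S := fun x hx =>
    Subalgebra.inv_mem_of_algebraic (A := S) (x := ⟨x, hx⟩) (hSalg x hx)
  have hjS : ∀ u, jL k ξ u ∈ S := fun u => by
    rw [hSd]
    exact Algebra.subset_adjoin ⟨u, rfl⟩
  have hsS : s ∈ S := by
    have h1 := hjS (X 1)
    rw [hjX, hg.one, map_one, mul_one] at h1
    exact h1
  have hKS : ∀ x : K, algebraMap K (LL K) x ∈ S := by
    intro x
    have hx : x ∈ IntermediateField.adjoin k (Set.range ξ) := by rw [hg.top]; trivial
    induction hx using IntermediateField.adjoin_induction with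
    | mem x hx =>
      obtain ⟨i, rfl⟩ := hx
      have h1 : algebraMap K (LL K) (ξ i) = jL k ξ (X i) * s⁻¹ := by
        rw [hjX]
        field_simp
      rw [h1]
      exact mul_mem (hjS _) (hSinv s hsS)
    | algebraMap c =>
      have h1 : algebraMap K (LL K) (algebraMap k K c) = jL k ξ (algebraMap k (Po (ν + 2) k) c) := by
        rw [AlgHom.commutes]
        exact (IsScalarTower.algebraMap_apply k K (LL K) c).symm
      rw [h1]
      exact hjS _
    | add x y _ _ hx hy => rw [map_add]; exact add_mem hx hy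
    | inv x _ hx => rw [map_inv₀]; exact hSinv _ hx
    | mul x y _ _ hx hy => rw [map_mul]; exact mul_mem hx hy
  have hall : ∀ x : LL K, x ∈ S := by
    intro x
    have h1 : ∀ q : Polynomial K, algebraMap (Polynomial K) (LL K) q ∈ S := by
      intro q
      induction q using Polynomial.induction_on with
      | C a => rw [← halg]; exact hKS a
      | add p q hp hq => rw [map_add]; exact add_mem hp hq
      | monomial n a _ =>
        rw [map_mul, map_pow, ← halg, ← hsd]
        exact mul_mem (hKS a) (pow_mem hsS _)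
    obtain ⟨a, b, hb, rfl⟩ := IsFractionRing.div_surjective (A := Polynomial K) x
    rw [div_eq_mul_inv]
    exact mul_mem (h1 a) (hSinv _ (h1 b))
  have hVtop : V = ⊤ := by
    rw [eq_top_iff]
    intro x _
    exact hSV (hall x)
  have hfd : FiniteDimensional τL.fieldRange (LL K) := by
    rw [hVtop] at hVfd
    exact Module.Finite.of_surjective (Submodule.topEquiv (R := τL.fieldRange)
      (M := LL K)).toLinearMap (Submodule.topEquiv).surjective
  have hfr : Module.finrank τL.fieldRange (LL K) ≤ E := by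
    have h1 := finrank_range_le_card (R := τL.fieldRange) (fun i : Fin E => jL k ξ θ ^ (i : ℕ))
    rw [Set.finrank, ← hV, hVtop, finrank_top, Fintype.card_fin] at h1
    exact h1
  obtain ⟨hfin0, hfin⟩ := hSL1 k K (LL K) τ τL s w d hd htr hgen hw hcomp hs hfd
  exact ⟨hfin0, hfin.trans hfr⟩

end Pool.Agent.H8.EDA
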