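import Pool.Agent.H8.EDA.Tr

/-!
# Zariski dense orbits in dimension `n`: projective varieties
-/

set_option autoImplicit false

open MvPolynomial
open Pool.Agent.H12.ZD (pmap)
open Pool.Agent.H18.HIT Pool.Agent.H18.HX Pool.Agent.H18.VZ
open Pool.Agent.H8.TD (lc dg)
open Pool.Agent.H2.ED
open Pool.Agent.H18.EDB (dgm)

namespace Pool.Agent.H8.EDA

/-- comparison of exponential functions -/
theorem pow_shift {c c' : ℝ} (hc : 0 < c) (h : c < c') (R : ℝ) :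
    ∃ N : ℕ, ∀ n ≥ N, R * c ^ n ≤ c' ^ n := by
  have h1 : 1 < c' / c := by
    rw [lt_div_iff₀ hc]
    linarith
  obtain ⟨N, hN⟩ := pow_unbounded_of_one_lt R h1
  refine ⟨N, fun n hn => ?_⟩
  have h2 : R ≤ (c' / c) ^ n := hN.le.trans (pow_le_pow_right₀ h1.le hn)
  rw [div_pow, le_div_iff₀ (pow_pos hc n)] at h2
  exact h2

section

variable {n L : ℕ} {k : Type} [Field k]

theorem Ple.nonneg [Infinite k] {I : Ideal (Po L k)} {f : Tup L k} {j : ℕ} {μ C : ℝ}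
    (h : Ple I f n j μ C) (m : ℕ) : 0 ≤ C * μ ^ m := by
  obtain ⟨c, hc, hS⟩ := h m 0 0 (fun _ => 0) (isHomogeneous_zero _ _ _)
    (isHomogeneous_zero _ _ _) (fun _ => isHomogeneous_zero _ _ _)
  obtain ⟨t, ht⟩ : ∃ t : Fin n → k, eval t c ≠ 0 := by
    by_contra hcon
    push Not at hcon
    exact hc (MvPolynomial.funext fun t => by rw [hcon t, map_zero])
  have h1 := hS t ht ∅ (fun x hx => absurd hx (Finset.notMem_empty x))
  rwa [Finset.card_empty, Nat.cast_zero] at h1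

end

/-- reduction to hypersurfaces: the data on the hypersurface and the passage back to the variety -/
theorem redX {L : ℕ} {k : Type} [Field k] [IsAlgClosed k] [CharZero k]
    {I : Ideal (Po L k)} (hI : I.IsPrime) (hhom : ∀ c ∈ I, ∀ t, homogeneousComponent t c ∈ I)
    (hne : ∃ i, X i ∉ I) (n : ℕ)
    (hdim : ∀ u : Fin (n + 2) → Po L k, ∃ q : Po (n + 2) k, q ≠ 0 ∧ aeval u q ∈ I)
    (hdim' : ∃ u : Fin (n + 1) → Po L k, ∀ q : Po (n + 1) k, aeval u q ∈ I → q = 0)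
    (f : Tup L k) (d : ℕ) (hd : 1 ≤ d) (hf : ∀ i, (f i).IsHomogeneous d)
    (hinv : ∀ c ∈ I, aeval f c ∈ I)
    (hdom : ∀ (s : ℕ) (q : Po L k), q.IsHomogeneous s → aeval f q ∈ I → q ∈ I)
    (hNf : Nfi I f)
    (b : Po L k) (t : ℕ) (hb : b.IsHomogeneous t) (hbI : b ∉ I) :
    ∃ (r δ : ℕ) (l : Fin (n + 2) → Po L k) (P b' : Po (n + 2) k) (Δ : Po (n + 1) k)
      (F : Tup (n + 2) k), Pro I l P r Δ δ ∧ Slf I f ∧ r ≤ d + δ ∧ 2 ≤ d + δ ∧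
      (∀ i, (F i).IsHomogeneous (d + δ)) ∧
      (∀ i, aeval l (up Δ) * aeval f (l i) - aeval l (F i) ∈ I) ∧
      Slf (Ideal.span {P}) F ∧ NIv P F ∧ (∃ m, b'.IsHomogeneous m) ∧ ¬ P ∣ b' ∧
      (∀ e, Pvi I f e → Cvi (Ideal.span {P}) F ((d + δ) * e)) ∧
      ∀ y : Fin (n + 2) → k, eval y P = 0 → (∀ j : ℕ, eval ((pmap F)^[j] y) b' ≠ 0) →
        (∀ c : Po (n + 2) k, (∀ j : ℕ, eval ((pmap F)^[j] y) c = 0) → P ∣ c) →
        ∃ x : Fin L → k, Zer I x ∧ (∀ j : ℕ, (pmap f)^[j] x ≠ 0) ∧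
          (∀ j : ℕ, eval ((pmap f)^[j] x) b ≠ 0) ∧
          ∀ (s : ℕ) (h : Po L k), h.IsHomogeneous s →
            (∀ j : ℕ, eval ((pmap f)^[j] x) h = 0) → h ∈ I := by
  have hsf := slf_of_forms hhom hd hf hinv hdom
  obtain ⟨i0, hi0⟩ := hne
  obtain ⟨N, l, hN, hl1, hind, hint, hden⟩ := Pool.Agent.H18.HX.All.nfa L k I hhom ⟨i0, hi0⟩
  have hl0 : ∃ Q : Polynomial (Po N k), Q.Monic ∧
      evg (fun j : Fin N => l j.succ) (l 0) Q ∈ I := int_all hint _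
  obtain ⟨P, r, hP, hker⟩ := Pool.Agent.H18.HX.All.nfb L N k I l hhom hl1 hind hl0
  obtain ⟨Δ, δ, hpro⟩ := Pool.Agent.H18.HX.All.nfc L N r k I l P hN hhom hl1 hind hint hden hP
    hker
  have hNn := dim_le (n := n) hind hdim
  obtain ⟨u, hu⟩ := hdim'
  have hnN := Pool.Agent.H79.ED.pf_DGE L N (n + 1) k I (fun j : Fin N => l j.succ) u hint hu
  obtain rfl : N = n + 1 := by omega
  obtain ⟨B, hBdef⟩ : ∃ B : Po L k, B = b * X i0 := ⟨_, rfl⟩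
  have hBh : B.IsHomogeneous (t + 1) := by
    rw [hBdef]
    exact hb.mul (isHomogeneous_X k i0)
  have hBI : B ∉ I := by
    rw [hBdef]
    exact fun h => (hI.mem_or_mem h).elim hbI hi0
  obtain ⟨F, hF, hFl, hFP⟩ := Pool.Agent.H18.HX.All.lft L (n + 1) r δ d k I l P Δ f hpro hhom hf
    hsf.inv
  have hr : 1 ≤ r := by
    by_contra hr0
    have hr0' : r = 0 := by omega
    apply hpro.hyp.irr.not_isUnit
    have h1 : P.totalDegree = 0 := by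
      have := hpro.hyp.hom.totalDegree_le
      omega
    rw [totalDegree_eq_zero_iff_eq_C] at h1
    rw [h1, isUnit_map_iff, isUnit_iff_ne_zero]
    intro h0
    rw [h0, C_0] at h1
    exact hpro.hyp.irr.ne_zero h1
  have hδ : 1 ≤ δ := hr.trans hpro.le
  have hsF : Slf (Ideal.span {P}) F := lift_slf hpro hsf hF (by omega) hFl hFP
  have hNF : NIv P F := lift_niv hpro hNf hFl
  obtain ⟨b', hb', hPb', htr⟩ := Pool.Agent.H18.HX.All.trv L (n + 1) r δ d (t + 1) k I l P Δ f F B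
    hpro hhom hf hsf.inv hF hFl hBh hBI
  have hupl : aeval l (up Δ) = aeval (fun j : Fin (n + 1) => l j.succ) Δ := by
    rw [up, aeval_rename]
    rfl
  refine ⟨r, δ, l, P, b', Δ, F, hpro, hsf, hpro.le.trans (Nat.le_add_left δ d), by omega, hF,
    (fun i => by
      rw [hupl]
      exact hFl i), hsF, hNF, hb', hPb',
    (fun e he => pf_TWI L (n + 1) r δ d e k I l P Δ f F hpro hhom hf hsf hF hFl he),
    fun y hy hyb hyd => ?_⟩
  obtain ⟨a, ha, hab, had⟩ := htr y hy hyb hyd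
  refine ⟨a, ha, fun j h0 => ?_, fun j => ?_, had⟩
  · apply hab j
    rw [h0, hBdef, map_mul, eval_X, Pi.zero_apply, mul_zero]
  · have h1 := hab j
    rw [hBdef, map_mul] at h1
    exact left_ne_zero_of_mul h1

section

variable {ν L : ℕ} {k K : Type} [Field k] [Field K] [Algebra k K] {I : Ideal (Po L k)}
  {l : Fin (ν + 2) → Po L k} {P : Po (ν + 2) k} {r : ℕ} {Δ : Po (ν + 1) k} {δ : ℕ}
  {ξ : Fin (ν + 2) → K} {F : Tup (ν + 2) k} {τ : K →ₐ[k] K} {f : Tup L k} {d : ℕ}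

/-- the upper bound for the intersection numbers on the hypersurface -/
theorem Ple.dgm_le [IsAlgClosed k] [CharZero k] [hI : I.IsPrime] {j : ℕ} {μ C : ℝ}
    (hle : Ple I f ν j μ C) (hj : 1 ≤ j) (hν : 1 ≤ ν)
    (hhom : ∀ c ∈ I, ∀ t, homogeneousComponent t c ∈ I) (hpro : Pro I l P r Δ δ)
    (h : Fd P F ξ τ) (hf : ∀ i, (f i).IsHomogeneous d) (hs : Slf I f)
    (hF : ∀ i, (F i).IsHomogeneous (d + δ)) (hsF : Slf (Ideal.span {P}) F)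
    (hFl : ∀ i, aeval l (up Δ) * aeval f (l i) - aeval l (F i) ∈ I) (m : ℕ)
    (s : Fin ν → Fin (ν + 2) → k) : (dgm k (pn τ ξ m) ξ j s : ℝ) ≤ C * μ ^ m := by
  obtain ⟨χ, Nn, hC⟩ := exists_chi hpro h.gp
  have hF1 : aeval ξ (F 1) ≠ 0 := by
    have h1 := (pn_eq h hpro.hyp hF hsF 1).1
    rwa [it_one] at h1
  have h1 := Pool.Agent.H8.EDA.dgm_le hhom hpro hC h hF1 hf hs hF hFl m j ⌊C * μ ^ m⌋₊ hj hν
    (fun s hs => by
      obtain ⟨c, hc, hS⟩ := hle m (l 1) (l 1) s (hpro.lin 1) (hpro.lin 1) hs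
      exact ⟨c, hc, fun t ht S hS' => Nat.le_floor (hS t ht S hS')⟩) s
  exact (Nat.cast_le.2 h1).trans (Nat.floor_le (hle.nonneg m))

/-- the lower bound for the intersection numbers on the hypersurface -/
theorem Pge.dgm_ge [IsAlgClosed k] [CharZero k] [hI : I.IsPrime] {j : ℕ} {μ μ₁ : ℝ}
    (hge : Pge I f ν j μ) (hμ₁ : 0 < μ₁) (hμ : μ₁ < μ) (hpro : Pro I l P r Δ δ)
    (h : Fd P F ξ τ) (hf : ∀ i, (f i).IsHomogeneous d) (hs : Slf I f)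
    (hF : ∀ i, (F i).IsHomogeneous (d + δ)) (hsF : Slf (Ideal.span {P}) F)
    (hFl : ∀ i, aeval l (up Δ) * aeval f (l i) - aeval l (F i) ∈ I) (N : ℕ) :
    ∃ m ≥ N, ∃ s : Fin ν → Fin (ν + 2) → k, μ₁ ^ m ≤ (dgm k (pn τ ξ m) ξ j s : ℝ) := by
  obtain ⟨χ, Nn, hC⟩ := exists_chi hpro h.gp
  have hF1 : aeval ξ (F 1) ≠ 0 := by
    have h1 := (pn_eq h hpro.hyp hF hsF 1).1
    rwa [it_one] at h1
  obtain ⟨N₁, hN₁⟩ := pow_shift hμ₁ hμ ((1 + δ : ℕ) ^ ν : ℕ)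
  obtain ⟨m, hm, s₀, s', s, c, hs₀, hs', hsi, hc, hpts⟩ := hge (max N N₁)
  obtain ⟨s'', hs''⟩ := Pool.Agent.H8.EDA.dgm_ge hpro hC h hF1 hf hs hF hFl m j ⌈μ ^ m⌉₊ s₀ s' s c
    hs₀ hs' hsi hc fun t ht => by
      obtain ⟨S, hS, hS'⟩ := hpts t ht
      exact ⟨S, Nat.ceil_le.2 hS, hS'⟩
  refine ⟨m, (le_max_left _ _).trans hm, s'', ?_⟩
  have h1 := hN₁ m ((le_max_right _ _).trans hm)
  have h2 : μ ^ m ≤ (((1 + δ) ^ ν * dgm k (pn τ ξ m) ξ j s'' : ℕ) : ℝ) :=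
    (Nat.le_ceil _).trans (Nat.cast_le.2 hs'')
  rw [Nat.cast_mul] at h2
  have h3 : (0 : ℝ) < (((1 + δ) ^ ν : ℕ) : ℝ) := by
    exact_mod_cast (show 0 < (1 + δ) ^ ν by positivity)
  exact le_of_mul_le_mul_left (h1.trans h2) h3

end

/-- **`λ_1 > λ_3`**: rational self-maps of projective varieties over `Q̄` -/
theorem alpX (hALP : T_ALP) {L : ℕ} {I : Ideal (Po L Qb)} (hI : I.IsPrime)
    (hhom : ∀ c ∈ I, ∀ t, homogeneousComponent t c ∈ I)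
    (hne : ∃ i, X i ∉ I) (n : ℕ) (hn : 3 ≤ n)
    (hdim : ∀ u : Fin (n + 2) → Po L Qb, ∃ q : Po (n + 2) Qb, q ≠ 0 ∧ aeval u q ∈ I)
    (hdim' : ∃ u : Fin (n + 1) → Po L Qb, ∀ q : Po (n + 1) Qb, aeval u q ∈ I → q = 0)
    (f : Tup L Qb) (d : ℕ) (hd : 1 ≤ d) (hf : ∀ i, (f i).IsHomogeneous d)
    (hinv : ∀ c ∈ I, aeval f c ∈ I)
    (hdom : ∀ (s : ℕ) (q : Po L Qb), q.IsHomogeneous s → aeval f q ∈ I → q ∈ I)
    (hNf : Nfi I f) (μ μ' C : ℝ) (hμ'0 : 0 ≤ μ') (hμμ : μ' < μ) (hge : Pge I f n 1 μ)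
    (hle : Ple I f n 3 μ' C)
    (b : Po L Qb) (t : ℕ) (hb : b.IsHomogeneous t) (hbI : b ∉ I) :
    ∃ x : Fin L → Qb, Zer I x ∧ (∀ j : ℕ, (pmap f)^[j] x ≠ 0) ∧
      (∀ j : ℕ, eval ((pmap f)^[j] x) b ≠ 0) ∧
      ∀ (s : ℕ) (h : Po L Qb), h.IsHomogeneous s → (∀ j : ℕ, eval ((pmap f)^[j] x) h = 0) →
        h ∈ I := by
  have hI' := hI
  obtain ⟨r, δ, l, P, b', Δ, F, hpro, hsf, hrd, hd2, hF, hFl, hsF, hNF, hb', hPb', -, hback⟩ :=
    redX hI hhom hne n hdim hdim' f d hd hf hinv hdom hNf b t hb hbI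
  obtain ⟨K, _, _, ξ, τ, hfd⟩ := pf_FLD n r (d + δ) Qb P F hpro.hyp hF hsF
  obtain ⟨y, hy, hyb, hyd⟩ := hALP n r (d + δ) P b' F K ξ τ ((μ + μ') / 2) μ' C hn hpro.hyp hrd
    hd2 hF hsF hNF hfd hμ'0 (by linarith)
    (fun N => hge.dgm_ge (by linarith) (by linarith) hpro hfd hf hsf hF hsF hFl N)
    (fun m s => hle.dgm_le (by omega) (by omega) hhom hpro hfd hf hsf hF hsF hFl m s) hb' hPb'
  exact hback y hy hyb hyd

end Pool.Agent.H8.EDA
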