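import Pool.Agent.H51.TD.CTD
import Pool.Agent.H50.TD.LAV
import Pool.Agent.H8.TD.Core

/-!
# General lines through a point avoid the common zeros of polynomials without common factor
-/

set_option autoImplicit false

open MvPolynomial
open Pool.Agent.H18.HIT
open Pool.Agent.H8.TD hiding ln eval_ln prod_coeff ln_coeff
open Pool.Agent.H51.TD (gauss_core relprime_equiv alg_adjoin)
open Pool.Agent.H50.TD (lav_trdeg_adjoin lav_trdeg_simple lav_trdeg_union)

namespace Pool.Agent.H8.EDA

variable {n : ℕ}

/-- the last three coordinates of a common zero are algebraically dependent -/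
theorem core0 {k Ω : Type} [Field k] [Field Ω] [Algebra k Ω] (S S' : Po (n + 1) k) (ξ : Fin (n + 1) → Ω)
    (hS : S ≠ 0) (hrel : IsRelPrime S S') (h1 : aeval ξ S = 0) (h2 : aeval ξ S' = 0)
    (hind : AlgebraicIndependent k (fun i : Fin n => ξ i.succ)) : False := by
  set j : MvPolynomial (Fin n) k →+* Ω :=
    (aeval (fun i : Fin n => ξ i.succ) : MvPolynomial (Fin n) k →ₐ[k] Ω).toRingHom with hjdef
  have hj : Function.Injective j := hind
  have hev : ∀ q : Po (n + 1) k, (finSuccEquiv k n q).eval₂ j (ξ 0) = aeval ξ q := by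
    intro q
    have h : (Polynomial.eval₂RingHom j (ξ 0)).comp (finSuccEquiv k n).toRingEquiv.toRingHom =
        (aeval ξ : Po (n + 1) k →ₐ[k] Ω).toRingHom := by
      apply MvPolynomial.ringHom_ext
      · intro a
        have : finSuccEquiv k n (C a) = Polynomial.C (C a) := by
          simp [finSuccEquiv_apply]
        simp only [RingHom.comp_apply]
        show (finSuccEquiv k n (C a)).eval₂ j (ξ 0) = aeval ξ (C a)
        rw [this, Polynomial.eval₂_C, hjdef]
        simp
      · intro i
        show (finSuccEquiv k n (X i)).eval₂ j (ξ 0) = aeval ξ (X i)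
        refine Fin.cases ?_ ?_ i
        · rw [finSuccEquiv_X_zero]
          simp
        · intro i
          rw [finSuccEquiv_X_succ, Polynomial.eval₂_C, hjdef]
          simp
    exact congrArg (fun φ : Po (n + 1) k →+* Ω => φ q) h
  refine gauss_core j hj (ξ 0) (finSuccEquiv k n S) (finSuccEquiv k n S') ?_ ?_ ?_ ?_
  · intro h
    exact hS ((finSuccEquiv k n).injective (by rw [h, map_zero]))
  · exact relprime_equiv (finSuccEquiv k n).toRingEquiv hrel
  · rw [hev, h1]
  · rw [hev, h2]

/-- three coordinates of a common zero are algebraically dependent -/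
theorem core {k Ω : Type} [Field k] [Field Ω] [Algebra k Ω] (S S' : Po (n + 1) k) (ξ : Fin (n + 1) → Ω)
    (hS : S ≠ 0) (hrel : IsRelPrime S S') (h1 : aeval ξ S = 0) (h2 : aeval ξ S' = 0)
    (σ : Fin n → Fin (n + 1)) (hσ : Function.Injective σ)
    (hind : AlgebraicIndependent k (fun i : Fin n => ξ (σ i))) : False := by
  obtain ⟨c, hc⟩ : ∃ c, c ∉ Set.range σ := by
    by_contra h
    push Not at h
    have h3 : Function.Surjective σ := h
    have := Fintype.card_le_of_surjective σ h3
    simp at this
  have hπi : Function.Injective (Fin.cons c σ : Fin (n + 1) → Fin (n + 1)) :=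
    Fin.cons_injective_iff.2 ⟨hc, hσ⟩
  have hπb : Function.Bijective (Fin.cons c σ : Fin (n + 1) → Fin (n + 1)) :=
    Finite.injective_iff_bijective.1 hπi
  set π : Fin (n + 1) ≃ Fin (n + 1) := Equiv.ofBijective _ hπb with hπ
  have hπs : ∀ i : Fin n, π i.succ = σ i := by
    intro i
    simp [hπ]
  have hev : ∀ q : Po (n + 1) k, aeval (fun i => ξ (π i)) (renameEquiv k π.symm q) = aeval ξ q := by
    intro q
    rw [renameEquiv_apply, aeval_rename]
    congr 1
    congr 1
    funext i
    simp
  refine core0 (renameEquiv k π.symm S) (renameEquiv k π.symm S') (fun i => ξ (π i)) ?_ ?_ ?_ ?_ ?_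
  · intro h
    exact hS ((renameEquiv k π.symm).injective (by rw [h, map_zero]))
  · exact relprime_equiv (renameEquiv k π.symm).toRingEquiv hrel
  · rw [hev, h1]
  · rw [hev, h2]
  · have : (fun i : Fin n => ξ (π i.succ)) = fun i : Fin n => ξ (σ i) := by
      funext i
      rw [hπs]
    rw [this]
    exact hind

/-- two relatively prime polynomials vanish at the point: the transcendence degree -/
theorem ctd_gen {k Ω : Type} [Field k] [Field Ω] [Algebra k Ω] (S S' : Po (n + 1) k)
    (ξ : Fin (n + 1) → Ω) (hS : S ≠ 0) (hrel : IsRelPrime S S') (h1 : aeval ξ S = 0)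
    (h2 : aeval ξ S' = 0) :
    Algebra.trdeg k (IntermediateField.adjoin k (Set.range ξ)) < n := by
  set E := IntermediateField.adjoin k (Set.range ξ) with hE
  set η : Fin (n + 1) → E := fun i => ⟨ξ i, IntermediateField.subset_adjoin k _ ⟨i, rfl⟩⟩ with hη
  have hηv : ∀ i, (η i : Ω) = ξ i := fun i => rfl
  have := alg_adjoin ξ η hηv
  obtain ⟨t, ht, hB⟩ := exists_isTranscendenceBasis_subset (R := k) (A := E) (Set.range η)
  rw [← hB.cardinalMk_eq_trdeg]
  by_contra hlt
  rw [not_lt] at hlt
  have h3 : Cardinal.mk (Fin n) ≤ Cardinal.mk t := by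
    rw [Cardinal.mk_fin]
    exact hlt
  obtain ⟨em⟩ := (Cardinal.le_def _ _).1 h3
  have hg : ∀ x : t, ∃ i, η i = x := fun x => ht x.2
  choose g hg using hg
  have hginj : Function.Injective g := by
    intro x y hxy
    apply Subtype.ext
    rw [← hg x, ← hg y, hxy]
  refine core S S' ξ hS hrel h1 h2 (fun i => g (em i)) (hginj.comp em.injective) ?_
  have h6 : AlgebraicIndependent k (fun i : Fin n => ((em i : t) : E)) :=
    hB.1.comp em em.injective
  have h7 : AlgebraicIndependent k (fun i : Fin n => (((em i : t) : E) : Ω)) :=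
    h6.map' (f := IntermediateField.val E) (IntermediateField.val E).injective
  have h8 : (fun i : Fin n => ξ (g (em i))) = fun i : Fin n => (((em i : t) : E) : Ω) := by
    funext i
    rw [← hηv, hg]
  rw [h8]
  exact h7

/-- restriction to the generic line through `y` -/
noncomputable def lnp {k : Type} [Field k] (y : Fin (n + 1) → k) : Po (n + 1) k →ₐ[k] Polynomial (Po (n + 1) k) :=
  aeval (fun j => Polynomial.C (C (y j)) + Polynomial.X * Polynomial.C (X j))

theorem eval₂_lnp {k B : Type} [Field k] [CommRing B] [Algebra k B] (y : Fin (n + 1) → k)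
    (φ : Po (n + 1) k →ₐ[k] B) (τ : B) (P : Po (n + 1) k) :
    Polynomial.eval₂ φ.toRingHom τ (lnp y P) =
      aeval (fun j => algebraMap k B (y j) + τ * φ (X j)) P := by
  have h : (Polynomial.eval₂RingHom φ.toRingHom τ).comp (lnp y).toRingHom =
      (aeval (fun j => algebraMap k B (y j) + τ * φ (X j)) : Po (n + 1) k →ₐ[k] B).toRingHom := by
    apply MvPolynomial.ringHom_ext
    · intro a
      have e1 : lnp y (C a) = Polynomial.C (C a) := AlgHom.commutes (lnp y) a
      have e2 : (aeval (fun j => algebraMap k B (y j) + τ * φ (X j)) : Po (n + 1) k →ₐ[k] B) (C a) =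
          algebraMap k B a := AlgHom.commutes _ a
      have e3 : φ (C a) = algebraMap k B a := AlgHom.commutes φ a
      show Polynomial.eval₂ φ.toRingHom τ (lnp y (C a)) = aeval _ (C a)
      rw [e1, e2, Polynomial.eval₂_C, ← e3]
      rfl
    · intro i
      show Polynomial.eval₂ φ.toRingHom τ (lnp y (X i)) = aeval _ (X i)
      have e3 : φ (C (y i)) = algebraMap k B (y i) := AlgHom.commutes φ (y i)
      rw [lnp, aeval_X, aeval_X, Polynomial.eval₂_add, Polynomial.eval₂_mul, Polynomial.eval₂_C,
        Polynomial.eval₂_C, Polynomial.eval₂_X, ← e3]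
      rfl
  exact RingHom.congr_fun h P

/-- a linear combination without common factor with `P` -/
theorem exists_rel {k : Type} [Field k] [Infinite k] {M : ℕ} (G : Fin M → Po (n + 1) k) (hG : Cop G)
    (P : Po (n + 1) k) (hP : P ≠ 0) : ∃ s : Fin M → k, IsRelPrime P (∑ i, s i • G i) := by
  classical
  let f : (Fin M → k) →ₗ[k] Po (n + 1) k := ∑ i, (LinearMap.proj i).smulRight (G i)
  have hf : ∀ s, f s = ∑ i, s i • G i := by
    intro s
    simp [f, LinearMap.sum_apply]
  let Sub : Po (n + 1) k → Submodule k (Fin M → k) := fun π =>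
    Submodule.comap f ((Ideal.span {π}).restrictScalars k)
  have hSub : ∀ π s, s ∈ Sub π ↔ π ∣ ∑ i, s i • G i := by
    intro π s
    rw [← hf, ← Ideal.mem_span_singleton]
    rfl
  let F : Finset (Submodule k (Fin M → k)) :=
    ((UniqueFactorizationMonoid.factors P).toFinset).image Sub
  have htop : (⊤ : Submodule k (Fin M → k)) ∉ F := by
    intro h
    obtain ⟨π, hπ, hπ2⟩ := Finset.mem_image.mp h
    have hirr : Irreducible π :=
      UniqueFactorizationMonoid.irreducible_of_factor π (Multiset.mem_toFinset.mp hπ)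
    obtain ⟨i, hi⟩ := hG π hirr
    apply hi
    have h1 : (Pi.single i (1 : k) : Fin M → k) ∈ Sub π := by rw [hπ2]; trivial
    rw [hSub] at h1
    have h2 : ∑ j, (Pi.single i (1 : k) : Fin M → k) j • G j = G i := by
      rw [Finset.sum_eq_single i]
      · rw [Pi.single_eq_same, one_smul]
      · intro j _ hj
        rw [Pi.single_eq_of_ne hj, zero_smul]
      · intro h; exact absurd (Finset.mem_univ i) h
    rwa [h2] at h1
  have hne := Subspace.biUnion_ne_univ_of_top_notMem htop
  obtain ⟨s, hs⟩ := (Set.ne_univ_iff_exists_notMem _).mp hne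
  refine ⟨s, ?_⟩
  rw [UniqueFactorizationMonoid.isRelPrime_iff_no_prime_factors hP]
  intro d hd1 hd2 hd
  obtain ⟨q, hq1, hq2⟩ := UniqueFactorizationMonoid.exists_mem_factors_of_dvd hP hd.irreducible hd1
  apply hs
  rw [Set.mem_iUnion₂]
  refine ⟨Sub q, Finset.mem_image_of_mem _ (Multiset.mem_toFinset.mpr hq1), ?_⟩
  show s ∈ Sub q
  rw [hSub]
  exact hq2.symm.dvd.trans hd2

theorem lav_gen {k : Type} [Field k] [Infinite k] (M : ℕ) (G : Fin M → Po (n + 1) k)
    (y : Fin (n + 1) → k) (hG : Cop G) (hy : ∃ i, eval y (G i) ≠ 0) : ∃ c : Po (n + 1) k, c ≠ 0 ∧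
    ∀ b : Fin (n + 1) → k, eval b c ≠ 0 → ∀ t : k,
      ∃ i, eval (fun j => y j + t * b j) (G i) ≠ 0 := by
  obtain ⟨i0, hi0⟩ := hy
  have hP0 : G i0 ≠ 0 := by
    intro h; rw [h, map_zero] at hi0; exact hi0 rfl
  obtain ⟨s, hs⟩ := exists_rel G hG (G i0) hP0
  by_cases hunit : IsUnit (G i0)
  · refine ⟨1, one_ne_zero, fun b _ t => ⟨i0, ?_⟩⟩
    exact (hunit.map (eval (fun j => y j + t * b j))).ne_zero
  have hQ0 : (∑ i, s i • G i) ≠ 0 := by
    intro h
    rw [h] at hs
    exact hunit (isRelPrime_zero_right.mp hs)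
  -- the generic line
  let K := FractionRing (Po (n + 1) k)
  let Ω := AlgebraicClosure K
  let φ : Po (n + 1) k →ₐ[k] Ω := IsScalarTower.toAlgHom k (Po (n + 1) k) Ω
  have hφ : Function.Injective φ := by
    have h1 : Function.Injective (algebraMap (Po (n + 1) k) K) := IsFractionRing.injective _ _
    have h2 : Function.Injective (algebraMap K Ω) := (algebraMap K Ω).injective
    have h3 : (φ : Po (n + 1) k → Ω) = (algebraMap K Ω) ∘ (algebraMap (Po (n + 1) k) K) := by
      funext q
      exact IsScalarTower.algebraMap_apply (Po (n + 1) k) K Ω q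
    rw [h3]
    exact h2.comp h1
  have hcop : IsCoprime ((lnp y (G i0)).map (algebraMap (Po (n + 1) k) K))
      ((lnp y (∑ i, s i • G i)).map (algebraMap (Po (n + 1) k) K)) := by
    rw [Polynomial.isCoprime_iff_aeval_ne_zero_of_isAlgClosed K Ω]
    intro τ
    by_contra hcon
    push Not at hcon
    have hmap : ∀ q : Po (n + 1) k, Polynomial.aeval τ ((lnp y q).map (algebraMap (Po (n + 1) k) K)) =
        aeval (fun j => algebraMap k Ω (y j) + τ * φ (X j)) q := by
      intro q
      rw [← eval₂_lnp y φ τ q, Polynomial.aeval_def, Polynomial.eval₂_map]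
      have h3 : (algebraMap K Ω).comp (algebraMap (Po (n + 1) k) K) = φ.toRingHom :=
        RingHom.ext fun q => (IsScalarTower.algebraMap_apply (Po (n + 1) k) K Ω q).symm
      rw [h3]
    rw [hmap, hmap] at hcon
    have hτ : τ ≠ 0 := by
      intro h0
      apply hi0
      have h1 := hcon.1
      rw [h0] at h1
      have h2 : (fun j => algebraMap k Ω (y j) + 0 * φ (X j)) = fun j => algebraMap k Ω (y j) := by
        funext j
        rw [zero_mul, add_zero]
      rw [h2] at h1
      have h3 : aeval (fun j => algebraMap k Ω (y j)) (G i0) = algebraMap k Ω (eval y (G i0)) :=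
        (aeval_algebraMap_apply Ω y (G i0))
      rw [h3] at h1
      exact (map_eq_zero _).mp h1
    have h1 := ctd_gen (G i0) (∑ i, s i • G i) (fun j => algebraMap k Ω (y j) + τ * φ (X j))
      hP0 hs hcon.1 hcon.2
    have h2 : Algebra.trdeg k (IntermediateField.adjoin k
        (Set.range (fun j => algebraMap k Ω (y j) + τ * φ (X j)) ∪ {τ})) ≤ n := by
      rw [lav_trdeg_union]
      refine (add_le_add le_rfl (lav_trdeg_simple τ)).trans ?_
      obtain ⟨m, hm⟩ := Cardinal.lt_aleph0.1 (h1.trans (Cardinal.natCast_lt_aleph0 (n := n)))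
      rw [hm] at h1 ⊢
      have h1' : m < n := by exact_mod_cast h1
      exact_mod_cast (show m + 1 ≤ n from h1')
    have hmem : ∀ j, φ (X j) ∈ IntermediateField.adjoin k
        (Set.range (fun j => algebraMap k Ω (y j) + τ * φ (X j)) ∪ {τ}) := by
      intro j
      have e1 : φ (X j) = ((algebraMap k Ω (y j) + τ * φ (X j)) - algebraMap k Ω (y j)) / τ := by
        rw [add_sub_cancel_left, mul_div_cancel_left₀ _ hτ]
      have h4 : (algebraMap k Ω (y j) + τ * φ (X j)) ∈ IntermediateField.adjoin k
          (Set.range (fun j => algebraMap k Ω (y j) + τ * φ (X j)) ∪ {τ}) :=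
        IntermediateField.subset_adjoin _ _ (Or.inl ⟨j, rfl⟩)
      have h5 : τ ∈ IntermediateField.adjoin k
          (Set.range (fun j => algebraMap k Ω (y j) + τ * φ (X j)) ∪ {τ}) :=
        IntermediateField.subset_adjoin _ _ (Or.inr rfl)
      have h6 := div_mem (sub_mem h4 (IntermediateField.algebraMap_mem _ (y j))) h5
      rwa [← e1] at h6
    have hind : AlgebraicIndependent k (fun j : Fin (n + 1) => (⟨φ (X j), hmem j⟩ :
        IntermediateField.adjoin k
          (Set.range (fun j => algebraMap k Ω (y j) + τ * φ (X j)) ∪ {τ}))) := by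
      apply AlgebraicIndependent.of_comp (IntermediateField.val _)
      have h5 : AlgebraicIndependent k (fun j : Fin (n + 1) => φ (X j)) :=
        (MvPolynomial.algebraicIndependent_X (Fin (n + 1)) k).map' hφ
      exact h5
    have h7 := hind.cardinalMk_le_trdeg
    have h8 := h7.trans h2
    rw [Cardinal.mk_fin] at h8
    have h10 : n + 1 ≤ n := by exact_mod_cast h8
    omega
  obtain ⟨a, b, hab⟩ := hcop
  obtain ⟨b1, hb1, hb1a⟩ := IsLocalization.integerNormalization_spec (nonZeroDivisors (Po (n + 1) k)) a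
  obtain ⟨b2, hb2, hb2b⟩ := IsLocalization.integerNormalization_spec (nonZeroDivisors (Po (n + 1) k)) b
  set A0 := IsLocalization.integerNormalization (nonZeroDivisors (Po (n + 1) k)) a with hA0
  set B0 := IsLocalization.integerNormalization (nonZeroDivisors (Po (n + 1) k)) b with hB0
  have hid : (Polynomial.C b2 * A0) * lnp y (G i0) + (Polynomial.C b1 * B0) *
      lnp y (∑ i, s i • G i) = Polynomial.C (b1 * b2) := by
    apply Polynomial.map_injective (algebraMap (Po (n + 1) k) K) (IsFractionRing.injective _ _)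
    rw [Polynomial.map_add, Polynomial.map_mul, Polynomial.map_mul, Polynomial.map_mul,
      Polynomial.map_mul, Polynomial.map_C, Polynomial.map_C, Polynomial.map_C, hb1a, hb2b]
    have e1 : ∀ (c : Po (n + 1) k) (q : Polynomial K), c • q =
        Polynomial.C (algebraMap (Po (n + 1) k) K c) * q := by
      intro c q
      rw [← Polynomial.smul_eq_C_mul, algebraMap_smul]
    rw [e1, e1, map_mul, Polynomial.C_mul]
    linear_combination (Polynomial.C (algebraMap (Po (n + 1) k) K b1) *
      Polynomial.C (algebraMap (Po (n + 1) k) K b2)) * hab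
  refine ⟨b1 * b2, mul_ne_zero (nonZeroDivisors.ne_zero hb1) (nonZeroDivisors.ne_zero hb2), ?_⟩
  intro z hz t
  by_contra hcon
  push Not at hcon
  apply hz
  let ψ : Po (n + 1) k →ₐ[k] k := aeval z
  have hψ : ∀ q, Polynomial.eval₂ ψ.toRingHom t (lnp y q) = eval (fun j => y j + t * z j) q := by
    intro q
    rw [eval₂_lnp]
    have h3 : (fun j => algebraMap k k (y j) + t * ψ (X j)) = fun j => y j + t * z j := by
      funext j
      show algebraMap k k (y j) + t * aeval z (X j) = _
      rw [aeval_X]
      rfl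
    rw [h3]
    rfl
  have h1 := congrArg (Polynomial.eval₂ ψ.toRingHom t) hid
  rw [Polynomial.eval₂_add, Polynomial.eval₂_mul _ _ (q := lnp y (G i0)),
    Polynomial.eval₂_mul _ _ (q := lnp y (∑ i, s i • G i)), hψ, hψ, hcon i0,
    Polynomial.eval₂_C] at h1
  have h2 : eval (fun j => y j + t * z j) (∑ i, s i • G i) = 0 := by
    rw [map_sum]
    apply Finset.sum_eq_zero
    intro i _
    rw [smul_eval, hcon i, mul_zero]
  rw [h2, mul_zero, mul_zero, add_zero] at h1
  exact h1.symm

/-- the restriction to a line -/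
noncomputable def ln (x v : Fin (n + 1) → Qb) : Po (n + 1) Qb →ₐ[Qb] Polynomial Qb :=
  aeval fun i => Polynomial.C (x i) + Polynomial.C (v i) * Polynomial.X

theorem eval_ln (x v : Fin (n + 1) → Qb) (t : Qb) (q : Po (n + 1) Qb) :
    (ln x v q).eval t = eval (fun i => x i + t * v i) q := by
  have h : ((Polynomial.evalRingHom t).comp (ln x v).toRingHom) =
      eval (fun i => x i + t * v i) := by
    apply MvPolynomial.ringHom_ext
    · intro r
      simp [ln, Polynomial.algebraMap_eq]
    · intro i
      change ((aeval fun i => Polynomial.C (x i) + Polynomial.C (v i) * Polynomial.X : Po (n + 1) Qb →ₐ[Qb]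
        Polynomial Qb) (X i)).eval t = eval (fun i => x i + t * v i) (X i)
      rw [aeval_X, eval_X, Polynomial.eval_add, Polynomial.eval_mul, Polynomial.eval_C,
        Polynomial.eval_C, Polynomial.eval_X, mul_comm t]
  exact DFunLike.congr_fun h q

theorem prod_coeff (s : Finset (Fin (n + 1))) (f : Fin (n + 1) → Polynomial Qb) (n : Fin (n + 1) → ℕ)
    (hf : ∀ i, (f i).natDegree ≤ n i) : (∏ i ∈ s, f i).natDegree ≤ ∑ i ∈ s, n i ∧
      (∏ i ∈ s, f i).coeff (∑ i ∈ s, n i) = ∏ i ∈ s, (f i).coeff (n i) := by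
  classical
  induction s using Finset.induction_on with
  | empty =>
    rw [Finset.prod_empty, Finset.sum_empty, Finset.prod_empty]
    exact ⟨Polynomial.natDegree_one.le, Polynomial.coeff_one_zero⟩
  | insert i s hi ih =>
    rw [Finset.prod_insert hi, Finset.sum_insert hi, Finset.prod_insert hi]
    refine ⟨Polynomial.natDegree_mul_le.trans (add_le_add (hf i) ih.1), ?_⟩
    rw [Polynomial.coeff_mul_add_eq_of_natDegree_le (hf i) ih.1, ih.2]

theorem ln_coeff {q : Po (n + 1) Qb} {D : ℕ} (hq : q.IsHomogeneous D) (x v : Fin (n + 1) → Qb) :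
    (ln x v q).natDegree ≤ D ∧ (ln x v q).coeff D = eval v q := by
  have h1 : ln x v q = ∑ m ∈ q.support, Polynomial.C (coeff m q) *
      ∏ i, (Polynomial.C (x i) + Polynomial.C (v i) * Polynomial.X) ^ m i := by
    rw [ln, aeval_def, eval₂_eq']
    rfl
  have hf : ∀ (m : Fin (n + 1) →₀ ℕ) (i : Fin (n + 1)),
      ((Polynomial.C (x i) + Polynomial.C (v i) * Polynomial.X) ^ m i).natDegree ≤ m i := by
    intro m i
    refine Polynomial.natDegree_pow_le.trans ?_
    refine (Nat.mul_le_mul_left _ (?_ : _ ≤ 1)).trans (Nat.mul_one _).le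
    rw [add_comm]
    exact Polynomial.natDegree_linear_le
  have hc : ∀ (m : Fin (n + 1) →₀ ℕ) (i : Fin (n + 1)),
      ((Polynomial.C (x i) + Polynomial.C (v i) * Polynomial.X) ^ m i).coeff (m i) =
        v i ^ m i := by
    intro m i
    have h2 : (Polynomial.C (x i) + Polynomial.C (v i) * Polynomial.X).natDegree ≤ 1 := by
      rw [add_comm]
      exact Polynomial.natDegree_linear_le
    have h3 := Polynomial.coeff_pow_of_natDegree_le (m := m i) h2
    rw [Nat.mul_one] at h3
    rw [h3, Polynomial.coeff_add, Polynomial.coeff_C_mul, Polynomial.coeff_X_one, mul_one,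
      Polynomial.coeff_C_of_ne_zero one_ne_zero, zero_add]
  have hD : ∀ m ∈ q.support, ∑ i, m i = D := by
    intro m hm
    have h2 : m.degree = D := by
      by_contra hcon
      exact (mem_support_iff.mp hm) (hq.coeff_eq_zero hcon)
    rw [Finsupp.degree_eq_sum] at h2
    exact h2
  constructor
  · rw [h1]
    apply Polynomial.natDegree_sum_le_of_forall_le
    intro m hm
    refine (Polynomial.natDegree_C_mul_le _ _).trans ?_
    rw [← hD m hm]
    exact (prod_coeff Finset.univ _ m (hf m)).1
  · rw [h1, Polynomial.finsetSum_coeff, eval_eq']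
    apply Finset.sum_congr rfl
    intro m hm
    rw [Polynomial.coeff_C_mul, ← hD m hm, (prod_coeff Finset.univ _ m (hf m)).2]
    congr 1
    exact Finset.prod_congr rfl fun i _ => hc m i

end Pool.Agent.H8.EDA
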