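import Pool.Agent.H8.EDA.Targets
import Pool.Agent.H8.EDA.Lav
import Pool.Agent.H18.TXB.Core1
import Pool.Agent.H2.ED.Rec1

/-!
# Zariski dense orbits in dimension `ν` by forward heights: elementary lemmas
-/

set_option autoImplicit false

open MvPolynomial
open Pool.Agent.H12.ZD (pmap)
open Pool.Agent.H18.HIT Pool.Agent.H18.HX Pool.Agent.H18.VZ
open Pool.Agent.H8.ZA (HFam Const NA)
open Pool.Agent.H8.TD (lc dg Wsp Cop dh lc_single lc_map lc_iterate)
open Pool.Agent.H8.TX (hn hn_nonneg hn_lc szn_one hn_mono hn_le_sum hn_coord one_le_szn le_szn szn)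
open Pool.Agent.H2.ED
open Pool.Agent.H18.TE (lg Gc T_GAL T_FIX T_EQD T_HLN)
open Pool.Agent.H18.BKH (map_eval map_pmap map_orbit eval_memL orbit_memL Gc.prod_mem)
open Pool.Agent.H18.TXB (avn avn_nonneg avn_mem sum_fin prod_fin hn_ht exists_algEquiv root_div)
open Pool.Agent.H18.EDB (dgm)

namespace Pool.Agent.H8.EDA

variable {ν : ℕ}

section hmg

variable {k : Type} [Field k]

/-- homogenization with respect to the coordinate `X 1` -/
noncomputable def hmg (p : Po (ν + 2) k) : Po (ν + 2) k :=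
  ∑ t ∈ Finset.range (p.totalDegree + 1), X 1 ^ (p.totalDegree - t) * homogeneousComponent t p

theorem hmg_hom (p : Po (ν + 2) k) : (hmg p).IsHomogeneous p.totalDegree := by
  apply IsHomogeneous.sum
  intro t ht
  have h1 : t ≤ p.totalDegree := Nat.lt_succ_iff.mp (Finset.mem_range.mp ht)
  have h2 := ((isHomogeneous_X k (1 : Fin (ν + 2))).pow (p.totalDegree - t)).mul
    (homogeneousComponent_isHomogeneous t p)
  rwa [one_mul, Nat.sub_add_cancel h1] at h2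

theorem sum_hc (p : Po (ν + 2) k) :
    ∑ t ∈ Finset.range (p.totalDegree + 1), homogeneousComponent t p = p :=
  sum_homogeneousComponent p

theorem aeval_hmg {K : Type} [Field K] [Algebra k K] (p : Po (ν + 2) k) (y : Fin (ν + 2) → K)
    (hy : y 1 = 1) : aeval y (hmg p) = aeval y p := by
  rw [hmg, map_sum]
  conv_rhs => rw [← sum_hc p, map_sum]
  refine Finset.sum_congr rfl fun t _ => ?_
  rw [map_mul, map_pow, aeval_X, hy, one_pow, one_mul]

theorem eval_hmg_one (p : Po (ν + 2) k) (y : Fin (ν + 2) → k) (hy : y 1 = 1) :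
    eval y (hmg p) = eval y p := by
  rw [hmg, map_sum]
  conv_rhs => rw [← sum_hc p, map_sum]
  refine Finset.sum_congr rfl fun t _ => ?_
  rw [map_mul, map_pow, eval_X, hy, one_pow, one_mul]

end hmg

/-- proportional points have the same affine coordinates -/
theorem af_smul {c : Qb} (hc : c ≠ 0) (y : Fin (ν + 2) → Qb) : af (fun i => c * y i) = af y := by
  funext i
  exact mul_div_mul_left _ _ hc

theorem eval_smul_hom {q : Po (ν + 2) Qb} {s : ℕ} (hq : q.IsHomogeneous s) (c : Qb) (y : Fin (ν + 2) → Qb) :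
    eval (fun i => c * y i) q = c ^ s * eval y q := Pool.Agent.H8.TD.eval_smul hq c y

theorem eval_af {q : Po (ν + 2) Qb} {s : ℕ} (hq : q.IsHomogeneous s) {y : Fin (ν + 2) → Qb} (hy : y 1 ≠ 0) :
    eval y q = y 1 ^ s * eval (af y) q := by
  rw [← eval_smul_hom hq]
  congr 1
  congr 1
  funext i
  rw [af]
  field_simp

theorem af_one {y : Fin (ν + 2) → Qb} (hy : y 1 ≠ 0) : af y 1 = 1 := div_self hy

theorem eval_hmg (p : Po (ν + 2) Qb) {y : Fin (ν + 2) → Qb} (hy : y 1 ≠ 0) :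
    eval y (hmg p) = y 1 ^ p.totalDegree * eval (af y) p := by
  rw [eval_af (hmg_hom p) hy, eval_hmg_one p (af y) (af_one hy)]

theorem af_af {y : Fin (ν + 2) → Qb} (hy : y 1 ≠ 0) : af (af y) = af y := by
  funext i
  rw [af, af_one hy, div_one]

/-- a homogeneous map and affine coordinates -/
theorem af_pmap {T : Tup (ν + 2) Qb} {D : ℕ} (hT : ∀ i, (T i).IsHomogeneous D) {y : Fin (ν + 2) → Qb}
    (hy : y 1 ≠ 0) : af (pmap T (af y)) = af (pmap T y) := by
  have h1 : pmap T y = fun i => y 1 ^ D * pmap T (af y) i := by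
    funext i
    exact eval_af (hT i) hy
  rw [h1]
  exact (af_smul (pow_ne_zero _ hy) _).symm

theorem one_le_r {r : ℕ} {P : Po (ν + 2) Qb} (hP : Hyp P r) : 1 ≤ r := by
  by_contra hr0
  have hr0' : r = 0 := by omega
  apply hP.irr.not_isUnit
  have h1 : P.totalDegree = 0 := by
    have := hP.hom.totalDegree_le
    omega
  rw [totalDegree_eq_zero_iff_eq_C] at h1
  rw [h1, isUnit_map_iff, isUnit_iff_ne_zero]
  intro h0
  rw [h0, C_0] at h1
  exact hP.irr.ne_zero h1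

/-- a linear combination of the coordinates of an iterate -/
noncomputable def sF (F : Tup (ν + 2) Qb) (n : ℕ) (s : Fin (ν + 2) → Qb) : Po (ν + 2) Qb :=
  ∑ i, C (s i) * it F n i

section

variable {K : Type} [Field K] [Algebra Qb K] {P : Po (ν + 2) Qb} {F : Tup (ν + 2) Qb}
  {ξ : Fin (ν + 2) → K} {τ : K →ₐ[Qb] K}

theorem aeval_sF (n : ℕ) (s : Fin (ν + 2) → Qb) :
    aeval ξ (sF F n s) = lc s fun i => aeval ξ (it F n i) := by
  rw [sF, map_sum, lc]
  refine Finset.sum_congr rfl fun i _ => ?_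
  rw [map_mul, aeval_C, Algebra.smul_def]

theorem sF_hom {d : ℕ} (hF : ∀ i, (F i).IsHomogeneous d) (n : ℕ) (s : Fin (ν + 2) → Qb) :
    (sF F n s).IsHomogeneous (d ^ n) := by
  apply IsHomogeneous.sum
  intro i _
  have h1 := (isHomogeneous_C (Fin (ν + 2)) (s i)).mul (it_hom hF n i)
  rwa [zero_add] at h1

theorem lc_pn {n : ℕ} (heq : ∀ i, pn τ ξ n i = aeval ξ (it F n i) / aeval ξ (it F n 1))
    (s : Fin (ν + 2) → Qb) : lc s (pn τ ξ n) = aeval ξ (sF F n s) / aeval ξ (it F n 1) := by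
  rw [aeval_sF, lc, lc, Finset.sum_div]
  refine Finset.sum_congr rfl fun i _ => ?_
  rw [heq, smul_div_assoc]

end

section

variable {K : IntermediateField ℚ Qb}

theorem map_af (σ : Qb ≃ₐ[K] Qb) (y : Fin (ν + 2) → Qb) :
    (fun i => σ (af y i)) = af fun i => σ (y i) := by
  funext i
  exact map_div₀ σ _ _

/-- the averaged recursion -/
theorem recAv (hFIX : T_FIX) {P : Po (ν + 2) Qb} {F : Tup (ν + 2) Qb} {r d m : ℕ} {κ β c₀ : ℝ}
    {T : Finset (Po (ν + 2) Qb)} (hP : Hyp P r) (hF : ∀ i, (F i).IsHomogeneous d) (F' : HFam K)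
    (hrec : ∀ (μ : ℕ) (z : Fin μ → Fin (ν + 2) → Qb), (∀ j, eval (z j) P = 0) → (∀ j, z j 1 = 1) →
          (∀ j, ∀ p ∈ T, eval (z j) p ≠ 0) → (∀ p ∈ T, ∏ j, eval (z j) p ∈ K) →
          κ * ∑ j, hn F' (af (pmap (it F m) (z j))) ≤
            ∑ j, hn F' (af (pmap (it F (m + m)) (z j))) + β * ∑ j, hn F' (z j) + μ * c₀)
    {Γ : Finset (Qb ≃ₐ[K] Qb)} {L : IntermediateField K Qb} (hΓ : Gc K Γ L)
    (hKF : ∀ i, ∀ c ∈ (F i).coeffs, c ∈ K) (hKT : ∀ p ∈ T, ∀ c ∈ p.coeffs, c ∈ K)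
    (hKP : ∀ c ∈ P.coeffs, c ∈ K) {y : Fin (ν + 2) → Qb} (hy : ∀ i, y i ∈ L) (hyP : eval y P = 0)
    (hy1 : y 1 ≠ 0) (hyT : ∀ p ∈ T, eval (af y) p ≠ 0) :
    κ * avn F' Γ (af ((pmap F)^[m] y)) ≤ avn F' Γ (af ((pmap F)^[m + m] y)) +
      β * avn F' Γ (af y) + Γ.card * c₀ := by
  have hafL : ∀ i, af y i ∈ L := fun i => div_mem (hy i) (hy 1)
  have hafP : eval (af y) P = 0 := by
    have h1 := eval_af hP.hom hy1
    rw [hyP] at h1
    exact (mul_eq_zero.1 h1.symm).resolve_left (pow_ne_zero _ hy1)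
  obtain ⟨g, hg⟩ : ∃ g : Fin Γ.card → (Qb ≃ₐ[K] Qb), g = fun j =>
    ((Γ.equivFin.symm j : Γ) : Qb ≃ₐ[K] Qb) := ⟨_, rfl⟩
  have hz : ∀ n (σ : Qb ≃ₐ[K] Qb), af (pmap (it F n) fun i => σ (af y i)) =
      fun i => σ (af ((pmap F)^[n] y) i) := by
    intro n σ
    have hσy1 : (fun i => σ (y i)) 1 ≠ 0 := (map_ne_zero σ).2 hy1
    rw [map_af, af_pmap (it_hom hF n) hσy1, map_af, map_orbit σ F hKF y n,
      pmap_it]
  have h1 := hrec Γ.card (fun j i => g j (af y i)) (fun j => by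
      rw [← map_eval (g j) P hKP, hafP, map_zero]) (fun j => by
      rw [af_one hy1, map_one]) (fun j p hp => by
      rw [← map_eval (g j) p (hKT p hp)]
      exact (map_ne_zero (g j)).2 (hyT p hp)) (fun p hp => by
      have h2 : ∀ j, eval (fun i => g j (af y i)) p = g j (eval (af y) p) := fun j =>
        (map_eval (g j) p (hKT p hp) _).symm
      rw [Finset.prod_congr rfl fun j _ => h2 j, hg,
        prod_fin Γ fun σ => σ (eval (af y) p)]
      exact Gc.prod_mem hΓ hFIX (eval_memL p (hKT p hp) _ hafL))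
  rw [hg] at h1
  simp only [hz] at h1
  rw [sum_fin Γ fun σ => hn F' fun i => σ (af ((pmap F)^[m] y) i),
    sum_fin Γ fun σ => hn F' fun i => σ (af ((pmap F)^[m + m] y) i),
    sum_fin Γ fun σ => hn F' fun i => σ (af y i)] at h1
  exact h1

/-- the average of the heights of the conjugates of a root -/
theorem root_avX (hEQD : T_EQD) (F : HFam K)
    {Γ : Finset (Qb ≃ₐ[K] Qb)} {L : IntermediateField K Qb} (hΓ : Gc K Γ L) {E : ℕ} (hE : 1 ≤ E)
    (c : Fin (E + 1) → Qb) (h0 : c 0 ≠ 0) (hcK : ∀ j, c j ∈ K) (s : Fin (ν + 2) → Qb)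
    (hs : ∀ i, s i ∈ K) (u : Fin (ν + 2) → Qb) (hu : ∀ i, u i ∈ L)
    (hroot : ∑ j : Fin (E + 1), c j * lc s (af u) ^ (E - (j : ℕ)) = 0)
    (hconj : ∀ r, ∑ j : Fin (E + 1), c j * r ^ (E - (j : ℕ)) = 0 →
      ∃ τ : Qb ≃ₐ[K] Qb, τ (lc s (af u)) = r) {B C cs : ℝ}
    (hB : ∀ S : Multiset Qb,
      ∑ j : Fin (E + 1), Polynomial.C (c j) * Polynomial.X ^ (E - (j : ℕ)) =
        Polynomial.C (c 0) * (S.map fun r => Polynomial.X - Polynomial.C r).prod →
      B ≤ (S.map fun r => hn F ![r]).sum + C)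
    (hcs : ∀ w : Fin (ν + 2) → Qb, hn F ![lc s w] ≤ hn F w + cs) :
    Γ.card * (B - C) ≤ E * (avn F Γ (af u) + Γ.card * cs) := by
  obtain ⟨h1, h2, h3, h4⟩ := Pool.Agent.H18.BKH.mq_spec hE c h0
  have hr₀L : lc s (af u) ∈ L := by
    apply sum_mem
    intro i _
    rw [smul_eq_mul]
    exact mul_mem (L.algebraMap_mem ⟨s i, hs i⟩) (div_mem (hu _) (hu _))
  have h5 := hEQD K Γ L hΓ (Pool.Agent.H18.BKH.mq c) (lc s (af u)) h1 (by
      intro j
      unfold Pool.Agent.H18.BKH.mq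
      rw [Polynomial.finsetSum_coeff]
      apply sum_mem
      intro i _
      rw [Polynomial.coeff_C_mul, Polynomial.coeff_X_pow]
      apply mul_mem (div_mem (hcK _) (hcK _))
      split_ifs
      · exact one_mem K
      · exact zero_mem K) hr₀L ((h3 _).2 hroot) (fun r hr => hconj r ((h3 r).1 hr))
    (fun r => hn F ![r])
  rw [h2] at h5
  have h6 := hB _ h4
  have h7 : ∑ σ ∈ Γ, hn F ![σ (lc s (af u))] ≤ avn F Γ (af u) + Γ.card * cs := by
    unfold avn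
    rw [← nsmul_eq_mul, ← Finset.sum_const, ← Finset.sum_add_distrib]
    apply Finset.sum_le_sum
    intro σ _
    have h8 : σ (lc s (af u)) = lc s (fun i => σ (af u i)) := by
      unfold lc
      rw [map_sum]
      apply Finset.sum_congr rfl
      intro i _
      rw [smul_eq_mul, smul_eq_mul, map_mul]
      have h9 : σ (s i) = s i := σ.commutes ⟨s i, hs i⟩
      rw [h9]
    rw [h8]
    exact hcs _
  have hΓ0 : (0 : ℝ) ≤ Γ.card := Nat.cast_nonneg _
  calc (Γ.card : ℝ) * (B - C) ≤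
        Γ.card * ((Pool.Agent.H18.BKH.mq c).roots.map fun r => hn F ![r]).sum :=
        mul_le_mul_of_nonneg_left (by linarith) hΓ0
    _ = E * ∑ σ ∈ Γ, hn F ![σ (lc s (af u))] := h5
    _ ≤ _ := mul_le_mul_of_nonneg_left h7 (Nat.cast_nonneg _)

end

/-- the direction of the line -/
theorem dirB (hν : 1 ≤ ν) {E Y' : ℕ} {Cf : Fin (E + 1) → Po (ν + 1) Qb} (hCf : ∀ j, (Cf j).IsHomogeneous Y')
    (hcop : Cop Cf) {w : Fin (ν + 1) → Qb} (hw : w 0 ≠ 0) (hw0 : eval w (Cf 0) ≠ 0) :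
    ∃ c' : Po (ν + 1) Qb, c' ≠ 0 ∧ ∀ b' : Fin (ν + 1) → Qb, eval b' c' ≠ 0 → ∀ ϖ : Qb, ϖ ≠ 0 →
      (∃ i, ϖ * b' i ≠ 0) ∧ (∀ t : Qb, ∃ i, w i + t * (ϖ * b' i) ≠ 0) ∧
      eval (fun i => ϖ * b' i) (Cf 0) ≠ 0 ∧
      ∀ t : Qb, ∃ j, eval (fun i => w i + t * (ϖ * b' i)) (Cf j) ≠ 0 := by
  have hC0 : Cf 0 ≠ 0 := by
    intro h0
    rw [h0, map_zero] at hw0
    exact hw0 rfl
  obtain ⟨cL, hcL, hcL'⟩ := lav_gen (E + 1) Cf w hcop ⟨0, hw0⟩
  have h01 : (0 : Fin (ν + 1)) ≠ 1 := by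
    obtain ⟨n, rfl⟩ : ∃ n, ν = n + 1 := ⟨ν - 1, by omega⟩
    exact Fin.zero_ne_one
  have hcM : (C (w 0) * X 1 - C (w 1) * X 0 : Po (ν + 1) Qb) ≠ 0 := by
    intro h0
    have h1 := congrArg (coeff (Finsupp.single 1 1)) h0
    rw [coeff_sub, coeff_C_mul, coeff_C_mul, coeff_X, coeff_X, if_pos rfl, if_neg
      (fun h => h01 ((Finsupp.single_left_inj one_ne_zero).mp h)), mul_zero, sub_zero, mul_one,
      coeff_zero] at h1
    exact hw h1
  refine ⟨cL * (C (w 0) * X 1 - C (w 1) * X 0) * Cf 0 * X 0, mul_ne_zero (mul_ne_zero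
    (mul_ne_zero hcL hcM) hC0) (X_ne_zero 0), fun b' hb' ϖ hϖ => ?_⟩
  rw [map_mul, map_mul, map_mul] at hb'
  have hbL := hcL' b' (left_ne_zero_of_mul (left_ne_zero_of_mul (left_ne_zero_of_mul hb')))
  have hbM := right_ne_zero_of_mul (left_ne_zero_of_mul (left_ne_zero_of_mul hb'))
  have hbG := right_ne_zero_of_mul (left_ne_zero_of_mul hb')
  have hb0 := right_ne_zero_of_mul hb'
  rw [eval_X] at hb0
  rw [map_sub, map_mul, map_mul, eval_C, eval_C, eval_X, eval_X] at hbM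
  refine ⟨⟨0, mul_ne_zero hϖ hb0⟩, fun t => ?_, ?_, fun t => ?_⟩
  · by_contra hcon
    push Not at hcon
    have h1 := hcon 0
    have h2 := hcon 1
    apply hbM
    have h4 : ϖ * (w 0 * b' 1 - w 1 * b' 0) = 0 := by
      have h5 : w 0 = -(t * (ϖ * b' 0)) := eq_neg_of_add_eq_zero_left h1
      have h6 : w 1 = -(t * (ϖ * b' 1)) := eq_neg_of_add_eq_zero_left h2
      rw [h5, h6]
      ring
    exact (mul_eq_zero.mp h4).resolve_left hϖ
  · rw [Pool.Agent.H8.TD.eval_smul (hCf 0)]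
    exact mul_ne_zero (pow_ne_zero _ hϖ) hbG
  · obtain ⟨i, hi⟩ := hbL (t * ϖ)
    refine ⟨i, ?_⟩
    have h1 : (fun j => w j + t * (ϖ * b' j)) = fun j => w j + t * ϖ * b' j := by
      funext j
      ring
    rw [h1]
    exact hi

end Pool.Agent.H8.EDA
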