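import Pool.Agent.H2.ED.Gam3
import Pool.Agent.H8.EDA.Dgn
import Pool.Agent.H8.EDA.Targets

/-!
# Zariski dense orbits in dimension `ν`: intersection numbers and numbers of points
-/

set_option autoImplicit false

open MvPolynomial
open Pool.Agent.H12.ZD (pmap)
open Pool.Agent.H18.HIT Pool.Agent.H18.HX Pool.Agent.H18.VZ
open Pool.Agent.H8.TD (lc dg)
open Pool.Agent.H2.ED
open Pool.Agent.H18.EDB (dgm)

namespace Pool.Agent.H8.EDA

section defs

variable {L : ℕ} {k : Type} [Field k]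

/-- `x` is a point of the variety, `s₀ = 1` at `x`, and `x` satisfies the `n` equations
`s i = t i s'` at the `m`-th iterate for `i < j` and `s i = t i s₀` at `x` for `j ≤ i` -/
def Sol (I : Ideal (Po L k)) (f : Tup L k) (n j m : ℕ) (s₀ s' : Po L k) (s : Fin n → Po L k)
    (t : Fin n → k) (x : Fin L → k) : Prop :=
  Zer I x ∧ eval x s₀ = 1 ∧ eval ((pmap f)^[m] x) s' ≠ 0 ∧ ∀ i : Fin n,
    ((i : ℕ) < j → eval ((pmap f)^[m] x) (s i) = t i * eval ((pmap f)^[m] x) s') ∧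
    (j ≤ (i : ℕ) → eval x (s i) = t i)

/-- the general intersection numbers are at most `C μ ^ m` -/
def Ple (I : Ideal (Po L k)) (f : Tup L k) (n j : ℕ) (μ C : ℝ) : Prop :=
  ∀ (m : ℕ) (s₀ s' : Po L k) (s : Fin n → Po L k), s₀.IsHomogeneous 1 → s'.IsHomogeneous 1 →
    (∀ i, (s i).IsHomogeneous 1) → ∃ c : Po n k, c ≠ 0 ∧
    ∀ t : Fin n → k, eval t c ≠ 0 → ∀ S : Finset (Fin L → k),
      (∀ x ∈ S, Sol I f n j m s₀ s' s t x) → (S.card : ℝ) ≤ C * μ ^ m

/-- general intersection numbers are at least `μ ^ m` for infinitely many `m` -/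
def Pge (I : Ideal (Po L k)) (f : Tup L k) (n j : ℕ) (μ : ℝ) : Prop :=
  ∀ M : ℕ, ∃ m ≥ M, ∃ (s₀ s' : Po L k) (s : Fin n → Po L k) (c : Po n k),
    s₀.IsHomogeneous 1 ∧ s'.IsHomogeneous 1 ∧ (∀ i, (s i).IsHomogeneous 1) ∧ c ≠ 0 ∧
    ∀ t : Fin n → k, eval t c ≠ 0 → ∃ S : Finset (Fin L → k), μ ^ m ≤ (S.card : ℝ) ∧
      ∀ x ∈ S, Sol I f n j m s₀ s' s t x

end defs

section

variable {ν L : ℕ} {k K : Type} [Field k] [Field K] [Algebra k K] {I : Ideal (Po L k)}
  {l : Fin (ν + 2) → Po L k} {P : Po (ν + 2) k} {r : ℕ} {Δ : Po (ν + 1) k} {δ : ℕ}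
  {ξ : Fin (ν + 2) → K} {χ : Fin L → K} {Nn : Fin L → Po (ν + 2) k} {F : Tup (ν + 2) k}
  {τ : K →ₐ[k] K} {f : Tup L k} {d : ℕ}

/-- few points in the general fibre give a small degree -/
theorem dgm_le [IsAlgClosed k] [CharZero k] [hI : I.IsPrime]
    (hhom : ∀ c ∈ I, ∀ t, homogeneousComponent t c ∈ I)
    (hpro : Pro I l P r Δ δ) (hC : Chi I l Δ δ ξ χ Nn) (h : Fd P F ξ τ)
    (hF1 : aeval ξ (F 1) ≠ 0) (hf : ∀ i, (f i).IsHomogeneous d) (hs : Slf I f)
    (hF : ∀ i, (F i).IsHomogeneous (d + δ))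
    (hFl : ∀ i, aeval l (up Δ) * aeval f (l i) - aeval l (F i) ∈ I) (m j M : ℕ) (hj : 1 ≤ j)
    (hν : 1 ≤ ν)
    (hpts : ∀ s : Fin ν → Po L k, (∀ i, (s i).IsHomogeneous 1) → ∃ c : Po ν k, c ≠ 0 ∧
      ∀ t : Fin ν → k, eval t c ≠ 0 → ∀ S : Finset (Fin L → k),
        (∀ x ∈ S, Sol I f ν j m (l 1) (l 1) s t x) → S.card ≤ M)
    (s : Fin ν → Fin (ν + 2) → k) : dgm k (pn τ ξ m) ξ j s ≤ M := by
  obtain ⟨hne, -⟩ := tau_chi_iter hpro hC h hF1 hf hs hF hFl m
  have h11 : aeval χ (l 1) = 1 := by rw [hC.lin, h.gp.one]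
  have h1 : aeval χ (l 1) ≠ 0 := by
    rw [h11]
    exact one_ne_zero
  obtain ⟨c, hc, hpt⟩ := hpts (fun i => plb l (s i)) fun i => plb_hom hpro.lin (s i)
  have hev : ∀ (x : Fin L → k) (q : Po L k), eval x (aeval (it f m) q) =
      eval ((pmap f)^[m] x) q := by
    intro x q
    rw [Pool.Agent.H18.HIT.eval_aeval, pmap_it]
  have h2 := Pool.Agent.H79.ED.pf_UPD L ν M k K I χ (l 1)
    (fun i => if (i : ℕ) < j then aeval (it f m) (plb l (s i)) else plb l (s i))
    (fun i => if (i : ℕ) < j then aeval (it f m) (l 1) else l 1)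
    (fun i => if (i : ℕ) < j then d ^ m * 1 else 1) c hI hhom h.gp.trd (hpro.lin 1)
    (fun i => by
      split_ifs
      · exact aeval_hom (it_hom hf m) (plb_hom hpro.lin _)
      · exact plb_hom hpro.lin _)
    (fun i => by
      split_ifs
      · exact aeval_hom (it_hom hf m) (hpro.lin 1)
      · exact hpro.lin 1)
    h1 (fun i => by
      split_ifs
      · exact hne
      · exact h1) (adjoin_chi hpro h.gp hC h1) hC.iff hc
    (fun t ht S hS => by
      refine hpt t ht S fun x hx => ?_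
      obtain ⟨hx1, hx2, hx3⟩ := hS x hx
      refine ⟨hx1, hx2, ?_, fun i => ⟨fun hi => ?_, fun hi => ?_⟩⟩
      · have h3 := (hx3 ⟨0, by omega⟩).1
        rw [if_pos (by simp only; omega), hev] at h3
        exact h3
      · have h3 := (hx3 i).2
        rw [if_pos hi, if_pos hi, hev, hev] at h3
        exact h3
      · have h3 := (hx3 i).2
        rw [if_neg (by omega), if_neg (by omega), hx2, mul_one] at h3
        exact h3)
  have h3 : (fun i : Fin ν => lc (s i) (if (i : ℕ) < j then pn τ ξ m else ξ)) =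
      fun i : Fin ν => aeval χ (if (i : ℕ) < j then aeval (it f m) (plb l (s i)) else
        plb l (s i)) / aeval χ (if (i : ℕ) < j then aeval (it f m) (l 1) else l 1) := by
    funext i
    split_ifs with hi
    · rw [plb_iter hpro hC h hF1 hf hs hF hFl m, mul_div_cancel_left₀ _ hne]
    · rw [h11, div_one, plb_chi hC]
  rw [dgm, h3]
  exact h2

/-- many points in the general fibre give a large degree -/
theorem dgm_ge [IsAlgClosed k] [CharZero k] [hI : I.IsPrime]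
    (hpro : Pro I l P r Δ δ) (hC : Chi I l Δ δ ξ χ Nn) (h : Fd P F ξ τ)
    (hF1 : aeval ξ (F 1) ≠ 0) (hf : ∀ i, (f i).IsHomogeneous d) (hs : Slf I f)
    (hF : ∀ i, (F i).IsHomogeneous (d + δ))
    (hFl : ∀ i, aeval l (up Δ) * aeval f (l i) - aeval l (F i) ∈ I) (m j D : ℕ)
    (s₀ s' : Po L k) (s : Fin ν → Po L k) (c : Po ν k) (hs₀ : s₀.IsHomogeneous 1)
    (hs' : s'.IsHomogeneous 1) (hsi : ∀ i, (s i).IsHomogeneous 1) (hc : c ≠ 0)
    (hpts : ∀ t : Fin ν → k, eval t c ≠ 0 → ∃ S : Finset (Fin L → k), D ≤ S.card ∧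
      ∀ x ∈ S, Sol I f ν j m s₀ s' s t x) :
    ∃ s'' : Fin ν → Fin (ν + 2) → k, D ≤ (1 + δ) ^ ν * dgm k (pn τ ξ m) ξ j s'' := by
  rcases Nat.eq_zero_or_pos D with rfl | hD
  · exact ⟨0, Nat.zero_le _⟩
  have hev : ∀ (x : Fin L → k) (q : Po L k), eval x (aeval (it f m) q) =
      eval ((pmap f)^[m] x) q := by
    intro x q
    rw [Pool.Agent.H18.HIT.eval_aeval, pmap_it]
  obtain ⟨t, ht⟩ : ∃ t : Fin ν → k, eval t c ≠ 0 := by
    by_contra hcon
    push Not at hcon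
    exact hc (MvPolynomial.funext fun t => by rw [hcon t, map_zero])
  obtain ⟨S, hS, hSx⟩ := hpts t ht
  obtain ⟨x, hx⟩ : S.Nonempty := Finset.card_pos.1 (by omega)
  obtain ⟨hx1, hx2, hx3, -⟩ := hSx x hx
  have hs₀I : s₀ ∉ I := by
    intro h0
    have h1 := hx1 s₀ h0
    rw [hx2] at h1
    exact one_ne_zero h1
  have hs'I : s' ∉ I := by
    intro h0
    exact hx3 (zer_iterate hs.inv hx1 m s' h0)
  have h₀ : aeval χ s₀ ≠ 0 := fun h0 => hs₀I ((hC.iff 1 s₀ hs₀).1 h0)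
  have h' : aeval χ s' ≠ 0 := fun h0 => hs'I ((hC.iff 1 s' hs').1 h0)
  obtain ⟨hne, hti⟩ := tau_chi_iter hpro hC h hF1 hf hs hF hFl m
  obtain ⟨g, hg⟩ := iter_algHomX τ m
  have hgx : ∀ q : Po (ν + 2) k, g (aeval ξ q) = aeval (pn τ ξ m) q := by
    intro q
    rw [hg]
    exact iter_aeval τ m q
  have hitq : ∀ q : Po L k, q.IsHomogeneous 1 → aeval χ (aeval (it f m) q) =
      aeval χ (aeval (it f m) (l 1)) * g (aeval χ q) := by
    intro q hq
    have h3 : aeval χ (aeval (it f m) q) = aeval (fun i => aeval χ (it f m i)) q := by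
      rw [← AlgHom.comp_apply, comp_aeval]
    have h4 : (fun i => aeval χ (it f m i)) =
        fun i => aeval χ (aeval (it f m) (l 1)) * g (χ i) := by
      funext i
      rw [← hti, hg, mul_comm]
    have h5 : aeval (fun i => g (χ i)) q = g (aeval χ q) := by
      rw [← AlgHom.comp_apply, comp_aeval]
    rw [h3, h4, aeval_smul_ring hq, pow_one, h5]
  have hit' : aeval χ (aeval (it f m) s') ≠ 0 := by
    rw [hitq s' hs']
    exact mul_ne_zero hne ((map_ne_zero g).2 h')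
  -- the degree is at least the number of points
  have h2 := dgn D I χ s₀
    (fun i : Fin ν => if (i : ℕ) < j then aeval (it f m) (s i) else s i)
    (fun i : Fin ν => if (i : ℕ) < j then aeval (it f m) s' else s₀)
    (fun i : Fin ν => if (i : ℕ) < j then d ^ m * 1 else 1) c h.gp.trd hs₀
    (fun i => by
      split_ifs
      · exact aeval_hom (it_hom hf m) (hsi i)
      · exact hsi i)
    (fun i => by
      split_ifs
      · exact aeval_hom (it_hom hf m) hs'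
      · exact hs₀)
    h₀ (fun i => by
      split_ifs
      · exact hit'
      · exact h₀) (adjoin_chi hpro h.gp hC h₀) (fun s q hq h0 => (hC.iff s q hq).1 h0) hc
    (fun t ht => by
      obtain ⟨S, hS, hSx⟩ := hpts t ht
      refine ⟨S, hS, fun x hx => ?_⟩
      obtain ⟨hx1, hx2, hx3, hx4⟩ := hSx x hx
      refine ⟨hx1, hx2, fun i => ?_⟩
      by_cases hi : (i : ℕ) < j
      · rw [if_pos hi, if_pos hi, hev, hev]
        exact ⟨hx3, (hx4 i).1 hi⟩
      · rw [if_neg hi, if_neg hi, hx2, mul_one]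
        exact ⟨one_ne_zero, (hx4 i).2 (by omega)⟩)
  -- the functions
  obtain ⟨φ, hφ⟩ : ∃ φ : Fin ν → Fin (ν + 2) → K, φ = fun i : Fin ν =>
    if (i : ℕ) < j then pn τ ξ m else ξ := ⟨_, rfl⟩
  obtain ⟨q₀, hq₀⟩ : ∃ q₀ : Fin ν → Po (ν + 2) k, q₀ = fun i : Fin ν =>
    if (i : ℕ) < j then aeval Nn s' else aeval Nn s₀ := ⟨_, rfl⟩
  have hq0 : ∀ i, aeval (φ i) (q₀ i) ≠ 0 := by
    intro i
    rw [hφ, hq₀]
    by_cases hi : (i : ℕ) < j
    · simp only [if_pos hi]
      rw [← hgx]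
      exact (map_ne_zero g).2 (quot_chi hC hs' hs' h').1
    · simp only [if_neg hi]
      exact (quot_chi hC hs₀ hs₀ h₀).1
  have h3 : (fun i : Fin ν => aeval χ (if (i : ℕ) < j then aeval (it f m) (s i) else s i) /
      aeval χ (if (i : ℕ) < j then aeval (it f m) s' else s₀)) =
      fun i => aeval (φ i) (aeval Nn (s i)) / aeval (φ i) (q₀ i) := by
    funext i
    rw [hφ, hq₀]
    by_cases hi : (i : ℕ) < j
    · simp only [if_pos hi]
      rw [hitq _ (hsi i), hitq _ hs', mul_div_mul_left _ _ hne, ← hgx, ← hgx, ← map_div₀,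
        (quot_chi hC (hsi i) hs' h').2, map_div₀]
    · simp only [if_neg hi]
      exact (quot_chi hC (hsi i) hs₀ h₀).2
  rw [h3] at h2
  by_contra hcon
  push Not at hcon
  obtain ⟨Y, hY⟩ : ∃ Y : ℕ, Y = (D - 1) / (1 + δ) ^ ν := ⟨_, rfl⟩
  have hpos : 0 < (1 + δ) ^ ν := by positivity
  have h4 : ∀ s'' : Fin ν → Fin (ν + 2) → k, dg k (Set.range fun i => lc (s'' i) (φ i)) ≤ Y := by
    intro s''
    rw [hY, Nat.le_div_iff_mul_le hpos, mul_comm]
    have h5 := hcon s''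
    rw [dgm] at h5
    rw [hφ]
    show (1 + δ) ^ ν * dg k (Set.range fun i : Fin ν =>
      lc (s'' i) (if (i : ℕ) < j then pn τ ξ m else ξ)) ≤ D - 1
    omega
  have h5 := Pool.Agent.H73.ED.pf_INM k K ν (ν + 2) Y φ (fun i => aeval Nn (s i)) q₀
    (fun _ => 1 + δ) (fg_top h.gp) h.gp.trd h4 (fun i => totalDegree_Nn hC (hsi i))
    (fun i => by
      rw [hq₀]
      by_cases hi : (i : ℕ) < j
      · simp only [if_pos hi]
        exact totalDegree_Nn hC hs'
      · simp only [if_neg hi]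
        exact totalDegree_Nn hC hs₀) hq0
  rw [Finset.prod_const, Finset.card_univ, Fintype.card_fin] at h5
  have h6 : (1 + δ) ^ ν * Y ≤ D - 1 := by
    rw [hY]
    exact Nat.mul_div_le _ _
  omega

end

end Pool.Agent.H8.EDA
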